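import Mathlib
import Pool.Agent.H76.GL.Jen
import Pool.Agent.H52.RK.HlocG
import Pool.Agent.H76.RP.ZcF

/-!
# Cnt: the number of zeros in a small disc around a tame point

PROOF.  Case `r0/16 < r`: `jen` (`H76/GL/Jen.lean`) with radius `r0`: `zc (r0/2) t ≤ C E`, `zc_mono`, and
`E ≤ 16 r E/r0`.
Case `r ≤ r0/16`: `exists_HG` (`H52/RK/HlocG.lean`) with `η = 1`, `a = r0/16`, radius `R = r0/4`; its growth
hypothesis on `closedBall (pt a t) (r0/2)`: as in the proof of `jen` (`‖ζ z‖ ≤ e^E` by `Tame`,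
`‖z - 1‖ ≤ 2 ‖c - 1‖`, `‖ζ(c)‖ ≥ a/18`), `G = E + log (36/a) ≤ C' E`.  Evaluate the formula at `z = pt r t`
(`‖z - pt a t‖ = |r - a| ≤ R`): `zetaPole'/zetaPole (z) = ∑_{u ∈ S} zord u/(z - u) + H z`, `‖H z‖ ≤ C G/R ≤
C'' E/r0`.  On the left `zetaPole'/zetaPole = 1/(z-1) + ζ'/ζ` (`neg_logDeriv_zetaPole` in `H6/Win/Line.lean`),
`‖1/(z-1)‖ ≤ 1` as `|t| ≥ 1`, `‖ζ'/ζ(z)‖ ≤ ∑ Λ(n) n^(-1-r) ≤ C/r` (see `dco0_bound`, private, in
`H76/SV/TailV.lean`, copy; or `norm_LSeries_line`).  Real parts: every `Re 1/(z - u) ≥ 0` (`re u < 1 < re z`), and for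
`u` in `disc r t`: `‖z - u‖ ≤ 2r`, `Re (z - u) ≥ r`, so `Re 1/(z-u) ≥ r/(2r)^2 = 1/(4r)`.  Hence
`zc r t/(4r) ≤ C/r + 1 + C'' E/r0`.  (`zord` and `analyticOrderNatAt`: `zord_eq`, see `zc_ge` in `ZcF.lean`.)
About 150 lines.
-/

set_option autoImplicit false

open Complex

namespace Pool.Agent.H48.LD

open Pool.Agent.H6 Pool.Agent.H76.CR Pool.Agent.H76.RP Pool.Agent.H76.GL

section

open Pool.Agent.H6.Win

/-- size of `∑ n^(-(1+a))` -/
private lemma tsum_le {a : ℝ} (ha : 0 < a) (ha1 : a ≤ 1) :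
    ∑' n : ℕ, 1 / (n : ℝ) ^ (1 + a) ≤ 18 / a := by
  have h5 : riemannZeta ((1 + a : ℝ) : ℂ) = ((∑' n : ℕ, 1 / (n : ℝ) ^ (1 + a) : ℝ) : ℂ) := by
    rw [zeta_eq_tsum_one_div_nat_cpow (by rw [ofReal_re]; linarith), ofReal_tsum]
    congr 1
    funext n
    rw [ofReal_div, ofReal_one, ofReal_cpow (Nat.cast_nonneg n), ofReal_natCast]
  have h4 : (∑' n : ℕ, 1 / (n : ℝ) ^ (1 + a)) = ‖riemannZeta ((1 + a : ℝ) : ℂ)‖ := by
    rw [h5, norm_real, Real.norm_of_nonneg (tsum_nonneg fun n => by positivity)]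
  have h7 := norm_zetaPole_le (s := ((1 + a : ℝ) : ℂ)) (by rw [ofReal_re]; linarith)
  have h8 : zetaPole ((1 + a : ℝ) : ℂ) =
      (((1 + a : ℝ) : ℂ) - 1) * riemannZeta ((1 + a : ℝ) : ℂ) := by
    rw [zetaPole_of_ne]
    intro h
    have : (1 + a : ℝ) = 1 := by exact_mod_cast h
    linarith
  rw [h8, norm_mul] at h7
  have h9 : ‖((1 + a : ℝ) : ℂ) - 1‖ = a := by
    rw [← ofReal_one, ← ofReal_sub, norm_real, Real.norm_of_nonneg (by linarith)]
    ring
  have h10 : ‖((1 + a : ℝ) : ℂ)‖ = 1 + a := by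
    rw [norm_real, Real.norm_of_nonneg (by linarith)]
  rw [h9, h10] at h7
  rw [h4, le_div_iff₀ ha]
  nlinarith

/-- lower bound for `zetaPole` at `c = 1 + a + it` -/
private lemma low {a : ℝ} (ha : 0 < a) (ha1 : a ≤ 1) (t : ℝ) :
    a ≤ ‖pt a t - 1‖ ∧ 1 ≤ 18 / a * ‖riemannZeta (pt a t)‖ ∧
      ‖zetaPole (pt a t)‖ = ‖pt a t - 1‖ * ‖riemannZeta (pt a t)‖ := by
  set K0 : ℝ := ∑' n : ℕ, 1 / (n : ℝ) ^ (1 + a) with hK0
  have hK1 : K0 ≤ 18 / a := tsum_le ha ha1
  set c : ℂ := pt a t with hc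
  have hcre : c.re = 1 + a := by rw [hc, pt]; simp
  have h3 := norm_inv_riemannZeta_le (s := c) (x := 1 + a) (by linarith) (by rw [hcre])
  have hcne : c ≠ 1 := by
    intro h; rw [h] at hcre; simp at hcre; linarith
  have hζ : riemannZeta c ≠ 0 := riemannZeta_ne_zero_of_one_le_re (by rw [hcre]; linarith)
  have h4 : zetaPole c = (c - 1) * riemannZeta c := zetaPole_of_ne hcne
  have h5 : a ≤ ‖c - 1‖ := by
    have := Complex.abs_re_le_norm (c - 1)
    rw [Complex.sub_re, hcre, Complex.one_re] at this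
    have h6 : |1 + a - 1| = a := by rw [add_sub_cancel_left, abs_of_pos ha]
    rw [h6] at this
    exact this
  refine ⟨h5, ?_, by rw [h4, norm_mul]⟩
  rw [norm_inv] at h3
  have hpos : 0 < ‖riemannZeta c‖ := norm_pos_iff.2 hζ
  have h7 : 1 ≤ K0 * ‖riemannZeta c‖ := by
    rw [inv_le_iff_one_le_mul₀ hpos] at h3
    exact h3
  exact h7.trans (mul_le_mul_of_nonneg_right hK1 hpos.le)

end

private lemma ne_one' {u : ℂ} (hu : riemannZeta u = 0) : u ≠ 1 := by
  rintro rfl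
  exact riemannZeta_one_ne_zero hu

/-- `∑ Λ(n) n^(-1-b)` over `n < 2^J` by dyadic blocks (Chebyshev). -/
private theorem dco0_dyadic {b : ℝ} (hb : 0 < b) (J : ℕ) :
    ∑ n ∈ Finset.range (2 ^ J), dco b 0 n ≤
      ∑ j ∈ Finset.range J, 2 * (Real.log 4 + 4) * ((2 : ℝ) ^ (-b)) ^ j := by
  induction J with
  | zero => simp [dco]
  | succ J ih =>
    rw [Finset.sum_range_succ, Finset.range_eq_Ico, ← Finset.sum_Ico_consecutive (fun n => dco b 0 n)
      (Nat.zero_le (2 ^ J)) (Nat.pow_le_pow_right (by norm_num) (Nat.le_succ J)),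
      ← Finset.range_eq_Ico]
    refine add_le_add ih ?_
    have hpos : (0 : ℝ) < (2 : ℝ) ^ J := by positivity
    have h1 : ∀ n ∈ Finset.Ico (2 ^ J) (2 ^ (J + 1)), dco b 0 n ≤
        ((2 : ℝ) ^ J) ^ (-(1 + b)) * ArithmeticFunction.vonMangoldt n := by
      intro n hn
      rw [Finset.mem_Ico] at hn
      have hn1 : ((2 : ℝ) ^ J) ≤ n := by exact_mod_cast hn.1
      unfold dco
      simp only [pow_zero, Nat.factorial_zero, Nat.cast_one, div_one, mul_one]
      rw [mul_comm]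
      refine mul_le_mul_of_nonneg_right ?_ ArithmeticFunction.vonMangoldt_nonneg
      exact Real.rpow_le_rpow_of_nonpos hpos hn1 (by linarith)
    refine (Finset.sum_le_sum h1).trans ?_
    rw [← Finset.mul_sum]
    have h2 : ∑ n ∈ Finset.Ico (2 ^ J) (2 ^ (J + 1)), ArithmeticFunction.vonMangoldt n ≤
        Chebyshev.psi ((2 : ℝ) ^ (J + 1)) := by
      rw [Chebyshev.psi_eq_sum_Icc]
      refine Finset.sum_le_sum_of_subset_of_nonneg ?_ fun _ _ _ =>
        ArithmeticFunction.vonMangoldt_nonneg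
      intro n hn
      rw [Finset.mem_Ico] at hn
      rw [Finset.mem_Icc]
      refine ⟨Nat.zero_le _, ?_⟩
      rw [Nat.le_floor_iff (by positivity)]
      have : n ≤ 2 ^ (J + 1) := hn.2.le
      exact_mod_cast this
    have h3 : Chebyshev.psi ((2 : ℝ) ^ (J + 1)) ≤ (Real.log 4 + 4) * (2 : ℝ) ^ (J + 1) :=
      Chebyshev.psi_le_const_mul_self (by positivity)
    calc ((2 : ℝ) ^ J) ^ (-(1 + b)) * ∑ n ∈ Finset.Ico (2 ^ J) (2 ^ (J + 1)),
          ArithmeticFunction.vonMangoldt n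
        ≤ ((2 : ℝ) ^ J) ^ (-(1 + b)) * ((Real.log 4 + 4) * (2 : ℝ) ^ (J + 1)) := by
          refine mul_le_mul_of_nonneg_left (h2.trans h3) ?_
          positivity
      _ = 2 * (Real.log 4 + 4) * (((2 : ℝ) ^ J) ^ (-(1 + b)) * (2 : ℝ) ^ J) := by
          rw [pow_succ]; ring
      _ = 2 * (Real.log 4 + 4) * ((2 : ℝ) ^ (-b)) ^ J := by
          congr 1
          have e1 : ((2 : ℝ) ^ J) ^ (-(1 + b)) * (2 : ℝ) ^ J = ((2 : ℝ) ^ J) ^ (-b) := by
            have e2 : -(1 + b) = -b - 1 := by ring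
            rw [e2, Real.rpow_sub_one hpos.ne']
            field_simp
          rw [e1, ← Real.rpow_natCast, ← Real.rpow_natCast, ← Real.rpow_mul (by norm_num),
            ← Real.rpow_mul (by norm_num)]
          congr 1
          ring

private theorem dco0_bound {b : ℝ} (hb : 0 < b) :
    b * ∑' n : ℕ, dco b 0 n ≤ 2 * (Real.log 4 + 4) * (1 / Real.log 2 + b) := by
  have hl2 : 0 < Real.log 2 := Real.log_pos (by norm_num)
  have hl4 : 0 < Real.log 4 := Real.log_pos (by norm_num)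
  set r : ℝ := (2 : ℝ) ^ (-b) with hr
  have hr0 : 0 < r := by positivity
  have h2b : 1 + b * Real.log 2 ≤ (2 : ℝ) ^ b := by
    rw [Real.rpow_def_of_pos (by norm_num)]
    have := Real.add_one_le_exp (Real.log 2 * b)
    linarith
  have hrinv : r * (2 : ℝ) ^ b = 1 := by
    rw [hr, ← Real.rpow_add (by norm_num)]
    simp
  have hbl : 0 < b * Real.log 2 := by positivity
  have hr1 : r < 1 := by
    by_contra hcon
    have h1 : 1 ≤ r := not_lt.mp hcon
    nlinarith
  have hgeo : ∀ J : ℕ, ∑ j ∈ Finset.range J, r ^ j ≤ 1 / (1 - r) := by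
    intro J
    have h1 : 0 < 1 - r := by linarith
    rw [le_div_iff₀ h1, mul_comm]
    have h2 := mul_neg_geom_sum r J
    rw [h2]
    have : 0 ≤ r ^ J := by positivity
    linarith
  have hsum : ∑' n : ℕ, dco b 0 n ≤ 2 * (Real.log 4 + 4) * (1 / (1 - r)) := by
    refine Real.tsum_le_of_sum_range_le (fun n => dco_nonneg b 0 n) fun N => ?_
    have h1 : ∑ n ∈ Finset.range N, dco b 0 n ≤ ∑ n ∈ Finset.range (2 ^ N), dco b 0 n := by
      refine Finset.sum_le_sum_of_subset_of_nonneg ?_ fun _ _ _ => dco_nonneg _ _ _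
      refine Finset.range_subset_range.mpr ?_
      exact Nat.lt_two_pow_self.le
    refine h1.trans ((dco0_dyadic hb N).trans ?_)
    rw [← Finset.mul_sum]
    exact mul_le_mul_of_nonneg_left (hgeo N) (by positivity)
  have hb1 : b * (1 / (1 - r)) ≤ 1 / Real.log 2 + b := by
    have h1 : 0 < 1 - r := by linarith
    rw [mul_one_div, div_le_iff₀ h1]
    have h3 : r ≤ 1 / (1 + b * Real.log 2) := by
      rw [le_div_iff₀ (by positivity)]
      nlinarith
    have h4 : b * Real.log 2 / (1 + b * Real.log 2) ≤ 1 - r := by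
      have e : b * Real.log 2 / (1 + b * Real.log 2) = 1 - 1 / (1 + b * Real.log 2) := by
        field_simp
        ring
      rw [e]; linarith
    calc b = (1 / Real.log 2 + b) * (b * Real.log 2 / (1 + b * Real.log 2)) := by
          field_simp
      _ ≤ (1 / Real.log 2 + b) * (1 - r) := by gcongr
  calc b * ∑' n : ℕ, dco b 0 n ≤ b * (2 * (Real.log 4 + 4) * (1 / (1 - r))) := by gcongr
    _ = 2 * (Real.log 4 + 4) * (b * (1 / (1 - r))) := by ring
    _ ≤ _ := by gcongr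

/-- size of the Dirichlet series of `Λ` at `1 + r + it` -/
private lemma lser_le {r : ℝ} (hr : 0 < r) (t : ℝ) :
    ‖LSeries (fun n => (ArithmeticFunction.vonMangoldt n : ℂ)) (pt r t)‖ ≤
      ∑' n : ℕ, dco r 0 n := by
  have hre : (pt r t).re = 1 + r := by rw [pt]; simp
  refine tsum_of_norm_bounded (summable_dco hr 0).hasSum fun n => ?_
  rw [LSeries.norm_term_eq, hre]
  split_ifs with h
  · exact dco_nonneg r 0 n
  · apply le_of_eq
    unfold dco
    rw [Complex.norm_real, Real.norm_of_nonneg ArithmeticFunction.vonMangoldt_nonneg,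
      Real.rpow_neg (Nat.cast_nonneg n)]
    simp only [pow_zero, Nat.factorial_zero, Nat.cast_one, div_one, mul_one]
    rw [div_eq_mul_inv]

/-- the growth hypothesis of `exists_HG` in the disc of radius `r/2` -/
private lemma grow_two {r E t a : ℝ} (hr : 0 < r) (hr1 : r ≤ 1) (hE : 1 + Real.log (1 / r) ≤ E)
    (ht : 1 ≤ |t|) (hT : Tame r E t) (ha : a = r / 16) :
    ∀ z ∈ Metric.closedBall (pt a t) (r / 2),
      ‖zetaPole z‖ ≤ Real.exp (9 * E) * ‖zetaPole (pt a t)‖ := by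
  have hlr : 0 ≤ Real.log (1 / r) := Real.log_nonneg (by rw [le_div_iff₀ hr]; linarith)
  have hE1 : 1 ≤ E := by linarith
  have ha0 : 0 < a := by rw [ha]; positivity
  have ha1 : a ≤ 1 := by rw [ha]; linarith
  obtain ⟨l1, l2, l3⟩ := low ha0 ha1 t
  have hcim : (pt a t - 1).im = t := by rw [pt]; simp
  have hct : 1 ≤ ‖pt a t - 1‖ := by
    have h := Complex.abs_im_le_norm (pt a t - 1)
    rw [hcim] at h
    linarith
  have hcd : ‖pt a t - (1 + t * I)‖ = a := by
    have h : pt a t - (1 + t * I) = (a : ℂ) := by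
      rw [pt]
      push_cast
      ring
    rw [h, Complex.norm_real, Real.norm_of_nonneg ha0.le]
  intro z hz
  rw [Metric.mem_closedBall, dist_eq_norm] at hz
  have hz1 : ‖z - (1 + t * I)‖ ≤ 15 / 16 * r := by
    calc ‖z - (1 + t * I)‖ = ‖(z - pt a t) + (pt a t - (1 + t * I))‖ := by congr 1; ring
      _ ≤ ‖z - pt a t‖ + ‖pt a t - (1 + t * I)‖ := norm_add_le _ _
      _ ≤ r / 2 + a := by rw [hcd]; linarith
      _ ≤ 15 / 16 * r := by rw [ha]; linarith
  have hζ := hT z (by linarith)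
  have hzne : z ≠ 1 := by
    intro h
    rw [h] at hz1
    have h1 := Complex.abs_im_le_norm ((1 : ℂ) - (1 + t * I))
    have h2 : ((1 : ℂ) - (1 + t * I)).im = -t := by simp
    rw [h2, abs_neg] at h1
    linarith
  have hz2 : ‖z - 1‖ ≤ 2 * ‖pt a t - 1‖ := by
    calc ‖z - 1‖ = ‖(z - pt a t) + (pt a t - 1)‖ := by congr 1; ring
      _ ≤ ‖z - pt a t‖ + ‖pt a t - 1‖ := norm_add_le _ _
      _ ≤ r / 2 + ‖pt a t - 1‖ := by linarith
      _ ≤ 2 * ‖pt a t - 1‖ := by linarith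
  have hexpr : Real.exp (Real.log (1 / r)) = 1 / r := Real.exp_log (by positivity)
  have hnum : (576 : ℝ) ≤ Real.exp 7 := by
    have := Real.exp_one_gt_d9
    have h8 : Real.exp 7 = Real.exp 1 ^ 7 := by rw [← Real.exp_nat_mul]; norm_num
    rw [h8]
    calc (576 : ℝ) ≤ 2.7 ^ 7 := by norm_num
      _ ≤ Real.exp 1 ^ 7 := by gcongr; linarith
  have hζ0 : 0 ≤ ‖riemannZeta (pt a t)‖ := norm_nonneg _
  have hc0 : 0 ≤ ‖pt a t - 1‖ := norm_nonneg _
  rw [zetaPole_of_ne hzne, norm_mul, l3]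
  calc ‖z - 1‖ * ‖riemannZeta z‖
      ≤ (2 * ‖pt a t - 1‖) * Real.exp E := by gcongr
    _ = (2 * ‖pt a t - 1‖) * Real.exp E * 1 := by ring
    _ ≤ (2 * ‖pt a t - 1‖) * Real.exp E * (18 / a * ‖riemannZeta (pt a t)‖) := by gcongr
    _ = 576 * Real.exp E * (1 / r) * (‖pt a t - 1‖ * ‖riemannZeta (pt a t)‖) := by
        rw [ha]
        field_simp
        ring
    _ ≤ Real.exp 7 * Real.exp E * Real.exp (Real.log (1 / r)) *
        (‖pt a t - 1‖ * ‖riemannZeta (pt a t)‖) := by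
        rw [hexpr]
        gcongr
    _ = Real.exp (7 + E + Real.log (1 / r)) * (‖pt a t - 1‖ * ‖riemannZeta (pt a t)‖) := by
        rw [← Real.exp_add, ← Real.exp_add]
    _ ≤ Real.exp (9 * E) * (‖pt a t - 1‖ * ‖riemannZeta (pt a t)‖) := by
        apply mul_le_mul_of_nonneg_right _ (by positivity)
        apply Real.exp_le_exp.2
        linarith

/-- a real part -/
private lemma re_inv (w : ℂ) : (1 / w).re = w.re / ‖w‖ ^ 2 := by
  rw [one_div, Complex.inv_re, Complex.normSq_eq_norm_sq]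

theorem cnt : ∃ C : ℝ, 1 ≤ C ∧ ∀ r0 E t r : ℝ, 0 < r0 → r0 ≤ 1 → 1 + Real.log (1 / r0) ≤ E →
    1 ≤ |t| → Tame r0 E t → 0 < r → r ≤ r0 / 2 → (zc r t : ℝ) ≤ C * (1 + r * E / r0) := by
  obtain ⟨C1, hC1, hjen⟩ := jen
  obtain ⟨C2, hC2, hmain⟩ := Pool.Agent.H52.RK.exists_HG (η := 1) (by norm_num)
  obtain ⟨K, hK⟩ : ∃ K : ℝ, K = 2 * (Real.log 4 + 4) * (1 / Real.log 2 + 1) := ⟨_, rfl⟩
  have hl2 : 0 < Real.log 2 := Real.log_pos (by norm_num)
  have hl4 : 0 < Real.log 4 := Real.log_pos (by norm_num)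
  have hK0 : 0 < K := by rw [hK]; positivity
  refine ⟨16 * C1 + 4 * K + 4 + 144 * C2, by linarith, ?_⟩
  intro r0 E t r hr0 hr01 hE ht hT hr hrr
  have hlr : 0 ≤ Real.log (1 / r0) := Real.log_nonneg (by rw [le_div_iff₀ hr0]; linarith)
  have hE1 : 1 ≤ E := by linarith
  have hx0 : 0 ≤ r * E / r0 := by positivity
  rcases le_or_gt r (r0 / 16) with hsm | hbig
  swap
  · have h1 := hjen r0 E t hr0 hr01 hE ht hT
    have h2 : zc r t ≤ zc (r0 / 2) t := zc_mono hrr (by linarith) t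
    have h3 : (zc r t : ℝ) ≤ zc (r0 / 2) t := by exact_mod_cast h2
    have h4 : E ≤ 16 * (r * E / r0) := by
      rw [← mul_div_assoc, le_div_iff₀ hr0]
      nlinarith
    have h5 : C1 * E ≤ C1 * (16 * (r * E / r0)) := by gcongr
    have h6 : 0 ≤ (4 * K + 4 + 144 * C2) * (1 + r * E / r0) := by positivity
    have h7 : 0 ≤ 16 * C1 := by linarith
    nlinarith
  obtain ⟨a, ha⟩ : ∃ a : ℝ, a = r0 / 16 := ⟨_, rfl⟩
  have ha0 : 0 < a := by rw [ha]; positivity
  have hgrow := grow_two hr0 hr01 hE ht hT ha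
  obtain ⟨S, H, hS1, -, -, -, hS5, hS6⟩ := hmain a (r0 / 4) t (9 * E) ha0 (by positivity)
    (by linarith) (fun z hz => hgrow z (by
      have e : (1 + 1) * (r0 / 4) = r0 / 2 := by ring
      rwa [e] at hz))
  have hpd : ‖pt r t - pt a t‖ ≤ a := by
    have h : pt r t - pt a t = ((r - a : ℝ) : ℂ) := by
      rw [pt, pt]
      push_cast
      ring
    rw [h, Complex.norm_real, Real.norm_eq_abs, abs_le]
    constructor <;> linarith
  have hre : (pt r t).re = 1 + r := by rw [pt]; simp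
  have hz1 : pt r t ∈ Metric.closedBall (pt a t) (r0 / 4) := by
    rw [Metric.mem_closedBall, dist_eq_norm]
    linarith
  have hz2 : pt r t ∈ Metric.ball (pt a t) ((1 + 1 / 2) * (r0 / 4)) := by
    rw [Metric.mem_ball, dist_eq_norm]
    linarith
  have hne : zetaPole (pt r t) ≠ 0 :=
    zetaPole_ne_zero_of_one_le (by rw [hre]; linarith)
  have hform := hS6 _ hz2 hne
  have hH := hS5 _ hz1
  have hneg := Pool.Agent.H6.Win.neg_logDeriv_zetaPole (s := pt r t) (by rw [hre]; linarith)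
  have hL := lser_le hr t
  have hsum : ∑' n : ℕ, dco r 0 n ≤ K / r := by
    rw [le_div_iff₀ hr, mul_comm]
    refine (dco0_bound hr).trans ?_
    rw [hK]
    gcongr
    linarith
  have hone : ‖1 / (pt r t - 1)‖ ≤ 1 := by
    have h := Complex.abs_im_le_norm (pt r t - 1)
    have hcim : (pt r t - 1).im = t := by rw [pt]; simp
    rw [hcim] at h
    rw [norm_div, norm_one, div_le_one (by linarith)]
    linarith
  have hquot : ‖deriv zetaPole (pt r t) / zetaPole (pt r t)‖ ≤ K / r + 1 := by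
    rw [← norm_neg, hneg]
    refine (norm_sub_le _ _).trans ?_
    exact add_le_add (hL.trans hsum) hone
  have hSsum : ∑ u ∈ S, (zord u : ℝ) * (1 / (pt r t - u)).re ≤
      K / r + 1 + C2 * (9 * E) / (r0 / 4) := by
    have h1 : ∑ u ∈ S, (zord u : ℂ) / (pt r t - u) =
        deriv zetaPole (pt r t) / zetaPole (pt r t) - H (pt r t) := by
      rw [hform]
      ring
    have h2 : ∑ u ∈ S, (zord u : ℝ) * (1 / (pt r t - u)).re =
        (∑ u ∈ S, (zord u : ℂ) / (pt r t - u)).re := by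
      rw [Complex.re_sum]
      refine Finset.sum_congr rfl fun u _ => ?_
      have e : (zord u : ℂ) / (pt r t - u) = ((zord u : ℝ) : ℂ) * (1 / (pt r t - u)) := by
        push_cast
        ring
      rw [e, Complex.re_ofReal_mul]
    rw [h2, h1]
    refine (Complex.re_le_norm _).trans ((norm_sub_le _ _).trans ?_)
    exact add_le_add hquot hH
  have hzero : ∀ u ∈ S, riemannZeta u = 0 := by
    intro u hu
    have h := ((hS1 u).1 hu).2
    have hu1 : u ≠ 1 := by
      intro h1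
      rw [h1] at h
      exact zetaPole_ne_zero_of_one_le (by simp) h
    exact (zetaPole_eq_zero_iff hu1).1 h
  have hpos : ∀ u : ℂ, riemannZeta u = 0 → 0 ≤ (1 / (pt r t - u)).re := by
    intro u hu
    have h := re_lt_one hu
    rw [re_inv]
    have h2 : (pt r t - u).re = 1 + r - u.re := by rw [Complex.sub_re, hre]
    rw [h2]
    have : 0 ≤ 1 + r - u.re := by linarith
    positivity
  have hsub : (disc_finite (by linarith : r ≤ 1) t).toFinset ⊆ S := by
    intro u hu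
    rw [Set.Finite.mem_toFinset] at hu
    rw [hS1]
    refine ⟨?_, (zetaPole_eq_zero_iff (ne_one' hu.1)).2 hu.1⟩
    rw [Metric.mem_closedBall, dist_eq_norm]
    have hcd : ‖pt a t - (1 + t * I)‖ = a := by
      have h : pt a t - (1 + t * I) = (a : ℂ) := by
        rw [pt]
        push_cast
        ring
      rw [h, Complex.norm_real, Real.norm_of_nonneg ha0.le]
    have h3 : ‖u - pt a t‖ ≤ ‖u - (1 + t * I)‖ + ‖pt a t - (1 + t * I)‖ := by
      calc ‖u - pt a t‖ = ‖(u - (1 + t * I)) - (pt a t - (1 + t * I))‖ := by congr 1; ring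
        _ ≤ _ := norm_sub_le _ _
    have h4 := hu.2
    rw [hcd] at h3
    linarith
  have hlow : ∀ u ∈ (disc_finite (by linarith : r ≤ 1) t).toFinset,
      (zord u : ℝ) * (1 / (4 * r)) ≤ (zord u : ℝ) * (1 / (pt r t - u)).re := by
    intro u hu
    rw [Set.Finite.mem_toFinset] at hu
    refine mul_le_mul_of_nonneg_left ?_ (Nat.cast_nonneg _)
    have h := re_lt_one hu.1
    rw [re_inv]
    have h2 : (pt r t - u).re = 1 + r - u.re := by rw [Complex.sub_re, hre]
    have hcd : ‖pt r t - (1 + t * I)‖ = r := by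
      have h : pt r t - (1 + t * I) = (r : ℂ) := by
        rw [pt]
        push_cast
        ring
      rw [h, Complex.norm_real, Real.norm_of_nonneg hr.le]
    have h3 : ‖pt r t - u‖ ≤ 2 * r := by
      calc ‖pt r t - u‖ = ‖(pt r t - (1 + t * I)) - (u - (1 + t * I))‖ := by congr 1; ring
        _ ≤ ‖pt r t - (1 + t * I)‖ + ‖u - (1 + t * I)‖ := norm_sub_le _ _
        _ ≤ 2 * r := by rw [hcd]; linarith [hu.2]
    have h4 : 0 < ‖pt r t - u‖ := by
      rw [norm_pos_iff]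
      intro h5
      rw [h5] at h2
      rw [Complex.zero_re] at h2
      linarith
    rw [h2, div_le_div_iff₀ (by positivity) (by positivity)]
    have h5 : ‖pt r t - u‖ ^ 2 ≤ (2 * r) ^ 2 := by gcongr
    nlinarith
  have hzc : (zc r t : ℝ) = ∑ u ∈ (disc_finite (by linarith : r ≤ 1) t).toFinset,
      (zord u : ℝ) := by
    rw [zc_sum (by linarith : r ≤ 1)]
    push_cast
    refine Finset.sum_congr rfl fun u hu => ?_
    rw [Set.Finite.mem_toFinset] at hu
    rw [zord_eq (ne_one' hu.1)]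
  have hfin : (zc r t : ℝ) * (1 / (4 * r)) ≤ K / r + 1 + C2 * (9 * E) / (r0 / 4) := by
    rw [hzc, Finset.sum_mul]
    refine (Finset.sum_le_sum hlow).trans (le_trans ?_ hSsum)
    refine Finset.sum_le_sum_of_subset_of_nonneg hsub fun u hu _ => ?_
    exact mul_nonneg (Nat.cast_nonneg _) (hpos u (hzero u hu))
  have h8 : (zc r t : ℝ) ≤ 4 * r * (K / r + 1 + C2 * (9 * E) / (r0 / 4)) := by
    rw [mul_one_div, div_le_iff₀ (by positivity)] at hfin
    linarith
  have h9 : 4 * r * (K / r + 1 + C2 * (9 * E) / (r0 / 4)) =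
      4 * K + 4 * r + 144 * C2 * (r * E / r0) := by
    field_simp
    ring
  rw [h9] at h8
  have h10 : 0 ≤ 16 * C1 := by linarith
  have h11 : 0 ≤ (16 * C1 + 4 * K + 4) * (r * E / r0) := by positivity
  nlinarith

end Pool.Agent.H48.LD
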