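import Mathlib

/-!
# Dual: duality with a weight

PROOF (compare `H52/Unc/Halasz.lean`).  Choose `η t` with `‖η t‖ ≤ 1`, `‖G t‖ = η t G t`, `G t = ∑_{n ∈ P} b n n^(-it)`.
Exchange: `∑_t ‖G t‖ = ∑_{n ∈ P} (b n/√(h n)) (√(h n) ∑_t η t n^(-it))`; Cauchy-Schwarz; enlarge `P` to `F`
(`h ≥ 0`); open the square: `∑_{n ∈ F} h n ‖∑_t η t n^(-it)‖^2 = ∑_{t,s} η t conj(η s) ∑_n h n n^(-i(t-s))`.
About 100 lines.
-/

set_option autoImplicit false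

open Complex

namespace Pool.Agent.H48.LD

private theorem dual_e_eq (n : ℕ) (hn : 1 ≤ n) (x : ℝ) :
    (n : ℂ) ^ (-(x * I)) = cexp (((-(x * Real.log n) : ℝ) : ℂ) * I) := by
  have hn0 : (n : ℂ) ≠ 0 := by
    have : n ≠ 0 := by omega
    exact_mod_cast this
  rw [cpow_def_of_ne_zero hn0, ← natCast_log]
  congr 1
  push_cast
  ring

private theorem dual_e_mul (n : ℕ) (hn : 1 ≤ n) (x y : ℝ) :
    (n : ℂ) ^ (-(x * I)) * (starRingEnd ℂ) ((n : ℂ) ^ (-(y * I))) =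
      (n : ℂ) ^ (-(((x - y : ℝ) : ℂ) * I)) := by
  rw [dual_e_eq n hn, dual_e_eq n hn, dual_e_eq n hn, ← Complex.exp_conj, map_mul, conj_ofReal,
    conj_I, ← Complex.exp_add]
  congr 1
  push_cast
  ring

theorem dual (F P : Finset ℕ) (hPF : P ⊆ F) (hF : ∀ n ∈ F, 1 ≤ n) (h : ℕ → ℝ)
    (h0 : ∀ n ∈ F, 0 ≤ h n) (hP : ∀ n ∈ P, 0 < h n) (b : ℕ → ℂ) (X : Finset ℝ) :
    (∑ t ∈ X, ‖∑ n ∈ P, b n * (n : ℂ) ^ (-(t * I))‖) ^ 2 ≤
      (∑ n ∈ P, ‖b n‖ ^ 2 / h n) *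
        ∑ t ∈ X, ∑ s ∈ X, ‖∑ n ∈ F, (h n : ℂ) * (n : ℂ) ^ (-(((t - s : ℝ) : ℂ) * I))‖ := by
  classical
  set G : ℝ → ℂ := fun x => ∑ n ∈ P, b n * (n : ℂ) ^ (-(x * I)) with hG
  -- unimodular factors
  set η : ℝ → ℂ := fun x => if G x = 0 then 0 else (starRingEnd ℂ) (G x) / ‖G x‖ with hη
  have hη1 : ∀ x, ‖η x‖ ≤ 1 := by
    intro x
    simp only [hη]
    split_ifs with h
    · simp
    · rw [norm_div, RCLike.norm_conj, Complex.norm_real, norm_norm, div_self (norm_ne_zero_iff.2 h)]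
  have hηG : ∀ x, η x * G x = (‖G x‖ : ℂ) := by
    intro x
    simp only [hη]
    split_ifs with h
    · simp [h]
    · have h2 : (‖G x‖ : ℂ) ≠ 0 := by exact_mod_cast norm_ne_zero_iff.2 h
      rw [div_mul_eq_mul_div, mul_comm, Complex.mul_conj, Complex.normSq_eq_norm_sq]
      push_cast
      field_simp
  set A : ℕ → ℂ := fun n => ∑ x ∈ X, η x * (n : ℂ) ^ (-(x * I)) with hA
  have hsum : ((∑ x ∈ X, ‖G x‖ : ℝ) : ℂ) = ∑ n ∈ P, b n * A n := by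
    push_cast
    calc ∑ x ∈ X, (‖G x‖ : ℂ) = ∑ x ∈ X, η x * G x := Finset.sum_congr rfl fun x _ => (hηG x).symm
      _ = ∑ x ∈ X, ∑ n ∈ P, b n * (η x * (n : ℂ) ^ (-(x * I))) := by
          apply Finset.sum_congr rfl
          intro x _
          rw [hG, Finset.mul_sum]
          apply Finset.sum_congr rfl
          intro n _
          ring
      _ = ∑ n ∈ P, ∑ x ∈ X, b n * (η x * (n : ℂ) ^ (-(x * I))) := Finset.sum_comm
      _ = _ := by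
          apply Finset.sum_congr rfl
          intro n _
          rw [hA, Finset.mul_sum]
  have hle : ∑ x ∈ X, ‖G x‖ ≤ ∑ n ∈ P, ‖b n‖ * ‖A n‖ := by
    have h2 : 0 ≤ ∑ x ∈ X, ‖G x‖ := Finset.sum_nonneg fun x _ => norm_nonneg _
    have h3 : ‖((∑ x ∈ X, ‖G x‖ : ℝ) : ℂ)‖ = ∑ x ∈ X, ‖G x‖ := by
      rw [Complex.norm_real, Real.norm_of_nonneg h2]
    rw [← h3, hsum]
    refine (norm_sum_le _ _).trans (le_of_eq ?_)
    exact Finset.sum_congr rfl fun n _ => norm_mul _ _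
  -- Cauchy-Schwarz
  have hcs : (∑ n ∈ P, ‖b n‖ * ‖A n‖) ^ 2 ≤
      (∑ n ∈ P, ‖b n‖ ^ 2 / h n) * ∑ n ∈ P, h n * ‖A n‖ ^ 2 := by
    have h2 := Finset.sum_mul_sq_le_sq_mul_sq P (fun n => ‖b n‖ / √(h n))
      (fun n => √(h n) * ‖A n‖)
    have h3 : ∀ n ∈ P, ‖b n‖ / √(h n) * (√(h n) * ‖A n‖) = ‖b n‖ * ‖A n‖ := by
      intro n hn
      have h4 : √(h n) ≠ 0 := (Real.sqrt_pos.2 (hP n hn)).ne'
      field_simp
    have h5 : ∀ n ∈ P, (‖b n‖ / √(h n)) ^ 2 = ‖b n‖ ^ 2 / h n := by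
      intro n hn
      rw [div_pow, Real.sq_sqrt (hP n hn).le]
    have h6 : ∀ n ∈ P, (√(h n) * ‖A n‖) ^ 2 = h n * ‖A n‖ ^ 2 := by
      intro n hn
      rw [mul_pow, Real.sq_sqrt (hP n hn).le]
    rw [Finset.sum_congr rfl h3, Finset.sum_congr rfl h5, Finset.sum_congr rfl h6] at h2
    exact h2
  have hb0 : 0 ≤ ∑ n ∈ P, ‖b n‖ ^ 2 / h n :=
    Finset.sum_nonneg fun n hn => div_nonneg (by positivity) (hP n hn).le
  have hsub : ∑ n ∈ P, h n * ‖A n‖ ^ 2 ≤ ∑ n ∈ F, h n * ‖A n‖ ^ 2 :=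
    Finset.sum_le_sum_of_subset_of_nonneg hPF
      fun n hn _ => mul_nonneg (h0 n hn) (by positivity)
  -- the Gram sum
  set Γ : ℝ → ℂ := fun u => ∑ n ∈ F, (h n : ℂ) * (n : ℂ) ^ (-((u : ℂ) * I)) with hΓ
  have hgr : ∑ n ∈ F, h n * ‖A n‖ ^ 2 ≤ ∑ x ∈ X, ∑ y ∈ X, ‖Γ (x - y)‖ := by
    have h2 : ((∑ n ∈ F, h n * ‖A n‖ ^ 2 : ℝ) : ℂ) =
        ∑ x ∈ X, ∑ y ∈ X, η x * (starRingEnd ℂ) (η y) * Γ (x - y) := by
      push_cast
      have h3 : ∀ n ∈ F, (h n : ℂ) * (‖A n‖ : ℂ) ^ 2 = ∑ x ∈ X, ∑ y ∈ X,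
          η x * (starRingEnd ℂ) (η y) *
            ((h n : ℂ) * (n : ℂ) ^ (-(((x - y : ℝ) : ℂ) * I))) := by
        intro n hn
        have h4 : (‖A n‖ : ℂ) ^ 2 = A n * (starRingEnd ℂ) (A n) := by
          rw [Complex.mul_conj, Complex.normSq_eq_norm_sq]
          push_cast
          rfl
        rw [h4, hA]
        simp only
        rw [map_sum, Finset.sum_mul_sum, Finset.mul_sum]
        apply Finset.sum_congr rfl
        intro x _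
        rw [Finset.mul_sum]
        apply Finset.sum_congr rfl
        intro y _
        rw [map_mul, ← dual_e_mul n (hF n hn) x y]
        ring
      rw [Finset.sum_congr rfl h3, Finset.sum_comm]
      apply Finset.sum_congr rfl
      intro x _
      rw [Finset.sum_comm]
      apply Finset.sum_congr rfl
      intro y _
      rw [hΓ, Finset.mul_sum]
    have h7 : 0 ≤ ∑ n ∈ F, h n * ‖A n‖ ^ 2 :=
      Finset.sum_nonneg fun n hn => mul_nonneg (h0 n hn) (by positivity)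
    calc ∑ n ∈ F, h n * ‖A n‖ ^ 2 = ‖((∑ n ∈ F, h n * ‖A n‖ ^ 2 : ℝ) : ℂ)‖ := by
          rw [Complex.norm_real, Real.norm_of_nonneg h7]
      _ ≤ ∑ x ∈ X, ∑ y ∈ X, ‖η x * (starRingEnd ℂ) (η y) * Γ (x - y)‖ := by
          rw [h2]
          exact (norm_sum_le _ _).trans (Finset.sum_le_sum fun x _ => norm_sum_le _ _)
      _ ≤ _ := by
          apply Finset.sum_le_sum
          intro x _
          apply Finset.sum_le_sum
          intro y _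
          rw [norm_mul, norm_mul, RCLike.norm_conj]
          calc ‖η x‖ * ‖η y‖ * ‖Γ (x - y)‖ ≤ 1 * 1 * ‖Γ (x - y)‖ := by
                gcongr
                · exact hη1 x
                · exact hη1 y
            _ = _ := by ring
  have hfin : (∑ x ∈ X, ‖G x‖) ^ 2 ≤
      (∑ n ∈ P, ‖b n‖ ^ 2 / h n) * ∑ x ∈ X, ∑ y ∈ X, ‖Γ (x - y)‖ := by
    have h8 : 0 ≤ ∑ x ∈ X, ‖G x‖ := Finset.sum_nonneg fun x _ => norm_nonneg _
    calc (∑ x ∈ X, ‖G x‖) ^ 2 ≤ (∑ n ∈ P, ‖b n‖ * ‖A n‖) ^ 2 := pow_le_pow_left₀ h8 hle 2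
      _ ≤ _ := hcs
      _ ≤ _ := mul_le_mul_of_nonneg_left (hsub.trans hgr) hb0
  exact hfin

end Pool.Agent.H48.LD
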