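import Mathlib

/-!
# Lcm: `∑ 1/lcm`

PROOF.  `1/lcm(a,b) = gcd(a,b)/(ab)`, `gcd(a,b) = ∑_{g ∣ gcd} φ(g)` (`Nat.sum_totient`), exchange:
`∑_{g ≤ z} φ(g) (∑_{a ≤ z, g ∣ a} 1/a)² ≤ ∑_{g ≤ z} φ(g)/g² (1 + log z)² ≤ (1 + log z)³`
(`∑_{a ≤ z, g ∣ a} 1/a ≤ (1/g) ∑_{m ≤ z} 1/m`, `harmonic_le_one_add_log`).  Or: group by `g = gcd(a,b)`, `a = g a'`,
`b = g b'`: `∑ 1/lcm ≤ ∑_{g,a',b' ≤ z} 1/(g a' b')`.  About 80 lines.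
-/

set_option autoImplicit false

namespace Pool.Agent.H48.LD

private theorem lcm_harm (z : ℕ) : ∑ a ∈ Finset.Icc 1 z, 1 / (a : ℝ) ≤ 1 + Real.log z := by
  have h := harmonic_le_one_add_log z
  rw [harmonic_eq_sum_Icc] at h
  push_cast at h
  simpa only [one_div] using h

theorem lcm_sum (z : ℕ) (hz : 1 ≤ z) :
    ∑ a ∈ Finset.Icc 1 z, ∑ b ∈ Finset.Icc 1 z, 1 / (Nat.lcm a b : ℝ) ≤ (1 + Real.log z) ^ 3 := by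
  set I := Finset.Icc 1 z with hI
  let ph : ℕ × ℕ → ℕ × ℕ × ℕ := fun p => (Nat.gcd p.1 p.2, p.1 / Nat.gcd p.1 p.2, p.2 / Nat.gcd p.1 p.2)
  let F : ℕ × ℕ × ℕ → ℝ := fun q => 1 / (q.1 : ℝ) * (1 / (q.2.1 : ℝ) * (1 / (q.2.2 : ℝ)))
  have hmem : ∀ p ∈ I ×ˢ I, (1 ≤ p.1 ∧ p.1 ≤ z) ∧ (1 ≤ p.2 ∧ p.2 ≤ z) := fun p hp => by
    rw [Finset.mem_product, hI, Finset.mem_Icc, Finset.mem_Icc] at hp
    exact hp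
  have h1 : ∀ p ∈ I ×ˢ I, 1 / (Nat.lcm p.1 p.2 : ℝ) = F (ph p) := fun p hp => by
    obtain ⟨⟨ha, -⟩, ⟨hb, -⟩⟩ := hmem p hp
    have hg : 0 < Nat.gcd p.1 p.2 := Nat.gcd_pos_of_pos_left _ ha
    have e : Nat.lcm p.1 p.2 = Nat.gcd p.1 p.2 * (p.1 / Nat.gcd p.1 p.2 * (p.2 / Nat.gcd p.1 p.2)) := by
      have e1 := Nat.gcd_mul_lcm p.1 p.2
      have e2 : Nat.gcd p.1 p.2 * (p.1 / Nat.gcd p.1 p.2) = p.1 := Nat.mul_div_cancel' (Nat.gcd_dvd_left _ _)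
      have e3 : Nat.gcd p.1 p.2 * (p.2 / Nat.gcd p.1 p.2) = p.2 := Nat.mul_div_cancel' (Nat.gcd_dvd_right _ _)
      apply Nat.eq_of_mul_eq_mul_left hg
      rw [e1]
      calc p.1 * p.2 = (Nat.gcd p.1 p.2 * (p.1 / Nat.gcd p.1 p.2)) * (Nat.gcd p.1 p.2 * (p.2 / Nat.gcd p.1 p.2)) := by
            rw [e2, e3]
        _ = _ := by ring
    change 1 / (Nat.lcm p.1 p.2 : ℝ) = 1 / ((Nat.gcd p.1 p.2 : ℕ) : ℝ) * (1 / ((p.1 / Nat.gcd p.1 p.2 : ℕ) : ℝ) *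
      (1 / ((p.2 / Nat.gcd p.1 p.2 : ℕ) : ℝ)))
    rw [e, Nat.cast_mul, Nat.cast_mul]
    rw [one_div_mul_one_div, one_div_mul_one_div]
  have h2 : Set.InjOn ph (I ×ˢ I : Finset (ℕ × ℕ)) := by
    intro p hp q hq h
    have e1 : Nat.gcd p.1 p.2 = Nat.gcd q.1 q.2 := congrArg Prod.fst h
    have e2 : p.1 / Nat.gcd p.1 p.2 = q.1 / Nat.gcd q.1 q.2 := congrArg (fun x => x.2.1) h
    have e3 : p.2 / Nat.gcd p.1 p.2 = q.2 / Nat.gcd q.1 q.2 := congrArg (fun x => x.2.2) h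
    have a1 : Nat.gcd p.1 p.2 * (p.1 / Nat.gcd p.1 p.2) = p.1 := Nat.mul_div_cancel' (Nat.gcd_dvd_left _ _)
    have a2 : Nat.gcd p.1 p.2 * (p.2 / Nat.gcd p.1 p.2) = p.2 := Nat.mul_div_cancel' (Nat.gcd_dvd_right _ _)
    have a3 : Nat.gcd q.1 q.2 * (q.1 / Nat.gcd q.1 q.2) = q.1 := Nat.mul_div_cancel' (Nat.gcd_dvd_left _ _)
    have a4 : Nat.gcd q.1 q.2 * (q.2 / Nat.gcd q.1 q.2) = q.2 := Nat.mul_div_cancel' (Nat.gcd_dvd_right _ _)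
    refine Prod.ext ?_ ?_
    · rw [← a1, ← a3, e2, e1]
    · rw [← a2, ← a4, e3, e1]
  have h3 : (I ×ˢ I).image ph ⊆ I ×ˢ (I ×ˢ I) := by
    intro q hq
    obtain ⟨p, hp, rfl⟩ := Finset.mem_image.1 hq
    obtain ⟨⟨ha, ha'⟩, ⟨hb, hb'⟩⟩ := hmem p hp
    have hg : 0 < Nat.gcd p.1 p.2 := Nat.gcd_pos_of_pos_left _ ha
    have g1 : Nat.gcd p.1 p.2 ≤ p.1 := Nat.gcd_le_left _ ha
    have g2 : Nat.gcd p.1 p.2 ≤ p.2 := Nat.gcd_le_right _ hb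
    change (Nat.gcd p.1 p.2, p.1 / Nat.gcd p.1 p.2, p.2 / Nat.gcd p.1 p.2) ∈ I ×ˢ (I ×ˢ I)
    rw [Finset.mem_product, Finset.mem_product, hI, Finset.mem_Icc, Finset.mem_Icc, Finset.mem_Icc]
    exact ⟨⟨hg, g1.trans ha'⟩, ⟨Nat.div_pos g1 hg, (Nat.div_le_self _ _).trans ha'⟩,
      ⟨Nat.div_pos g2 hg, (Nat.div_le_self _ _).trans hb'⟩⟩
  have hF : ∀ q : ℕ × ℕ × ℕ, 0 ≤ F q := fun q => by
    change 0 ≤ 1 / (q.1 : ℝ) * (1 / (q.2.1 : ℝ) * (1 / (q.2.2 : ℝ)))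
    positivity
  rw [← Finset.sum_product', Finset.sum_congr rfl h1]
  calc ∑ x ∈ I ×ˢ I, F (ph x) = ∑ q ∈ (I ×ˢ I).image ph, F q := (Finset.sum_image h2).symm
    _ ≤ ∑ q ∈ I ×ˢ (I ×ˢ I), F q := Finset.sum_le_sum_of_subset_of_nonneg h3 fun q _ _ => hF q
    _ = (∑ a ∈ I, 1 / (a : ℝ)) * ((∑ a ∈ I, 1 / (a : ℝ)) * (∑ a ∈ I, 1 / (a : ℝ))) := by
        rw [Finset.sum_mul_sum I I, ← Finset.sum_product', Finset.sum_mul_sum, ← Finset.sum_product']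
    _ ≤ (1 + Real.log z) ^ 3 := by
        have h4 := lcm_harm z
        have h5 : 0 ≤ ∑ a ∈ I, 1 / (a : ℝ) := Finset.sum_nonneg fun a _ => by positivity
        have h6 : (∑ a ∈ I, 1 / (a : ℝ)) * ((∑ a ∈ I, 1 / (a : ℝ)) * (∑ a ∈ I, 1 / (a : ℝ))) =
          (∑ a ∈ I, 1 / (a : ℝ)) ^ 3 := by ring
        rw [h6]
        exact pow_le_pow_left₀ h5 h4 3

end Pool.Agent.H48.LD
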