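import Mathlib
import Pool.Agent.H77.SV.Selb
import Pool.Agent.H37.SFQ.Selberg

/-!
# Selb: Selberg's weights for `ν(p) = 1/p`

PROOF.  `selberg` (`H77/SV/Selb.lean`) with `Q` the primes `≤ z`, `ν p = 1/p`, `D = z`: `lam` vanishes unless
`d ∣ ∏ p` and `d ≤ z` (so `lam 0 = 0`: `0 ∣ Π` is false).  `∏_{p ∣ lcm} 1/p = 1/lcm` for squarefree `lcm`
(`Nat.prod_primeFactors_of_squarefree`; both `a, b ∣ Π` squarefree).  The sums over `Icc 1 z` and over the
divisors of `Π` have the same nonzero terms.  `∑_{d ∣ Π, d ≤ z} ∏_{p ∣ d} 1/(p-1) = ∑_{k ≤ z squarefree} 1/φ(k) ≥ (log z)/3`: `selG_ge` in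
`H37/SFQ/Selberg.lean` (import it).
Nonnegativity: `1/lcm(a,b) = (1/(ab)) ∑_{g ∣ a, g ∣ b} φ(g)`
(`Nat.sum_totient`), so the form is `∑_g φ(g) (∑_{g ∣ a} lam a/a)^2 ≥ 0`.  About 150 lines.
-/

set_option autoImplicit false

namespace Pool.Agent.H48.LD

private lemma selb_term (z : ℕ) (lam : ℕ → ℝ) {a b : ℕ} (ha : a ∈ Finset.Icc 1 z)
    (hb : b ∈ Finset.Icc 1 z) :
    lam a * lam b / (Nat.lcm a b : ℝ) = ∑ g ∈ Finset.Icc 1 z, (Nat.totient g : ℝ) *
      ((if g ∣ a then lam a / a else 0) * (if g ∣ b then lam b / b else 0)) := by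
  rw [Finset.mem_Icc] at ha hb
  have ha0 : (a : ℝ) ≠ 0 := by
    have : a ≠ 0 := by omega
    exact_mod_cast this
  have hb0 : (b : ℝ) ≠ 0 := by
    have : b ≠ 0 := by omega
    exact_mod_cast this
  have hl0 : (Nat.lcm a b : ℝ) ≠ 0 := by
    have : Nat.lcm a b ≠ 0 := Nat.lcm_ne_zero (by omega) (by omega)
    exact_mod_cast this
  have hgl : (Nat.gcd a b : ℝ) * (Nat.lcm a b : ℝ) = (a : ℝ) * b := by
    exact_mod_cast Nat.gcd_mul_lcm a b
  have hg0 : Nat.gcd a b ≠ 0 := Nat.gcd_ne_zero_left (by omega)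
  have h1 : (Nat.gcd a b : ℝ) = ∑ g ∈ Finset.Icc 1 z, if g ∣ a ∧ g ∣ b then (Nat.totient g : ℝ) else 0 := by
    have h2 : ∑ g ∈ (Nat.gcd a b).divisors, Nat.totient g = Nat.gcd a b := Nat.sum_totient _
    rw [← Finset.sum_filter]
    have h3 : (Finset.Icc 1 z).filter (fun g => g ∣ a ∧ g ∣ b) = (Nat.gcd a b).divisors := by
      ext g
      rw [Finset.mem_filter, Finset.mem_Icc, Nat.mem_divisors]
      constructor
      · rintro ⟨_, h4, h5⟩
        exact ⟨Nat.dvd_gcd h4 h5, hg0⟩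
      · rintro ⟨h4, _⟩
        have h5 := h4.trans (Nat.gcd_dvd_left a b)
        have h6 := h4.trans (Nat.gcd_dvd_right a b)
        have h7 := Nat.le_of_dvd (by omega) h5
        have h8 := Nat.pos_of_dvd_of_pos h5 (by omega)
        exact ⟨⟨h8, h7.trans ha.2⟩, h5, h6⟩
    rw [h3]
    exact_mod_cast h2.symm
  have h2 : lam a * lam b / (Nat.lcm a b : ℝ) = (lam a / a) * (lam b / b) * (Nat.gcd a b : ℝ) := by
    rw [div_eq_iff hl0]
    have : (lam a / a) * (lam b / b) * (Nat.gcd a b : ℝ) * (Nat.lcm a b : ℝ) =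
        (lam a / a) * (lam b / b) * ((Nat.gcd a b : ℝ) * (Nat.lcm a b : ℝ)) := by ring
    rw [this, hgl]
    field_simp
  rw [h2, h1, Finset.mul_sum]
  refine Finset.sum_congr rfl fun g _ => ?_
  by_cases h3 : g ∣ a
  · by_cases h4 : g ∣ b
    · rw [if_pos ⟨h3, h4⟩, if_pos h3, if_pos h4]
      ring
    · rw [if_neg fun h => h4 h.2, if_neg h4]
      ring
  · rw [if_neg fun h => h3 h.1, if_neg h3]
    ring

private lemma selb_nonneg (z : ℕ) (lam : ℕ → ℝ) :
    0 ≤ ∑ a ∈ Finset.Icc 1 z, ∑ b ∈ Finset.Icc 1 z, lam a * lam b / (Nat.lcm a b : ℝ) := by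
  have h1 : ∑ a ∈ Finset.Icc 1 z, ∑ b ∈ Finset.Icc 1 z, lam a * lam b / (Nat.lcm a b : ℝ) =
      ∑ g ∈ Finset.Icc 1 z, (Nat.totient g : ℝ) *
        (∑ a ∈ Finset.Icc 1 z, if g ∣ a then lam a / a else 0) ^ 2 := by
    rw [Finset.sum_congr rfl fun a ha => Finset.sum_congr rfl fun b hb => selb_term z lam ha hb]
    rw [Finset.sum_congr rfl fun a _ => Finset.sum_comm, Finset.sum_comm]
    refine Finset.sum_congr rfl fun g _ => ?_
    simp_rw [← Finset.mul_sum]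
    rw [← Finset.sum_mul, sq]
  rw [h1]
  exact Finset.sum_nonneg fun g _ => mul_nonneg (Nat.cast_nonneg _) (sq_nonneg _)

private lemma selb_inv {m : ℕ} (hm : Squarefree m) :
    ∏ p ∈ m.primeFactors, (1 : ℝ) / (p : ℝ) = 1 / (m : ℝ) := by
  rw [Finset.prod_div_distrib, Finset.prod_const_one]
  congr 1
  have h := congrArg (Nat.cast : ℕ → ℝ) (Nat.prod_primeFactors_of_squarefree hm)
  rwa [Nat.cast_prod] at h

private lemma selb_phi {m : ℕ} (hm : Squarefree m) :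
    ∏ p ∈ m.primeFactors, ((1 : ℝ) / (p : ℝ)) / (1 - 1 / (p : ℝ)) = 1 / (Nat.totient m : ℝ) := by
  have h1 : ∀ p ∈ m.primeFactors, ((1 : ℝ) / (p : ℝ)) / (1 - 1 / (p : ℝ)) = 1 / ((p - 1 : ℕ) : ℝ) := by
    intro p hp
    have hpp := Nat.prime_of_mem_primeFactors hp
    have h2 : (2 : ℝ) ≤ p := by exact_mod_cast hpp.two_le
    have h3 : (p : ℝ) ≠ 0 := by linarith
    have h4 : (p : ℝ) - 1 ≠ 0 := by linarith
    have h5 : ((p - 1 : ℕ) : ℝ) = (p : ℝ) - 1 := by
      rw [Nat.cast_sub hpp.one_le, Nat.cast_one]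
    rw [h5]
    have h6 : 1 - 1 / (p : ℝ) = ((p : ℝ) - 1) / p := by field_simp
    rw [h6, div_div_div_cancel_right₀ h3]
  rw [Finset.prod_congr rfl h1, Finset.prod_div_distrib, Finset.prod_const_one]
  congr 1
  have h2 := Nat.totient_mul_prod_primeFactors m
  rw [Nat.prod_primeFactors_of_squarefree hm, mul_comm] at h2
  have h3 := Nat.eq_of_mul_eq_mul_left (Nat.pos_of_ne_zero hm.ne_zero) h2
  rw [h3]
  push_cast
  rfl

theorem selb (z : ℕ) (hz : 2 ≤ z) : ∃ lam : ℕ → ℝ, lam 1 = 1 ∧ (∀ d, |lam d| ≤ 1) ∧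
    (∀ d, lam d ≠ 0 → 1 ≤ d ∧ d ≤ z) ∧
    0 ≤ ∑ a ∈ Finset.Icc 1 z, ∑ b ∈ Finset.Icc 1 z, lam a * lam b / (Nat.lcm a b : ℝ) ∧
    ∑ a ∈ Finset.Icc 1 z, ∑ b ∈ Finset.Icc 1 z, lam a * lam b / (Nat.lcm a b : ℝ) ≤
      3 / Real.log z := by
  classical
  set Q : Finset ℕ := (Finset.Icc 1 z).filter Nat.Prime with hQdef
  have hQ : ∀ p ∈ Q, p.Prime := fun p hp => (Finset.mem_filter.1 hp).2
  have hν : ∀ p ∈ Q, 0 < (fun p : ℕ => (1 : ℝ) / (p : ℝ)) p ∧ (fun p : ℕ => (1 : ℝ) / (p : ℝ)) p < 1 := by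
    intro p hp
    have h2 : (2 : ℝ) ≤ p := by exact_mod_cast (hQ p hp).two_le
    simp only
    constructor
    · positivity
    · rw [div_lt_one (by linarith)]
      linarith
  obtain ⟨lam, h1, h2, h3, h4⟩ := Pool.Agent.H77.SV.selberg Q hQ (fun p : ℕ => (1 : ℝ) / (p : ℝ)) hν z
    (by omega)
  set N : ℕ := ∏ p ∈ Q, p with hN
  have hN0 : N ≠ 0 := Finset.prod_ne_zero_iff.2 fun p hp => (hQ p hp).ne_zero
  have hNsq : Squarefree N := by
    rw [hN]
    refine Finset.squarefree_prod_of_pairwise_isCoprime ?_ fun p hp => (hQ p hp).squarefree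
    intro p hp q hq hpq
    rw [Function.onFun, ← Nat.coprime_iff_isRelPrime]
    exact (Nat.coprime_primes (hQ p hp) (hQ q hq)).2 hpq
  refine ⟨lam, h1, h2, ?_, selb_nonneg z lam, ?_⟩
  · intro d hd
    obtain ⟨h5, h6⟩ := h3 d hd
    exact ⟨Nat.pos_of_dvd_of_pos h5 (Nat.pos_of_ne_zero hN0), h6⟩
  · -- the two sums have the same nonzero terms
    have hsum : ∀ G : ℕ → ℝ, (∀ a, lam a = 0 → G a = 0) →
        ∑ a ∈ Finset.Icc 1 z, G a = ∑ a ∈ N.divisors, G a := by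
      intro G hG
      have e1 : ∑ a ∈ Finset.Icc 1 z ∩ N.divisors, G a = ∑ a ∈ Finset.Icc 1 z, G a := by
        refine Finset.sum_subset Finset.inter_subset_left fun a ha hna => hG a ?_
        by_contra h
        exact hna (Finset.mem_inter.2 ⟨ha, Nat.mem_divisors.2 ⟨(h3 a h).1, hN0⟩⟩)
      have e2 : ∑ a ∈ Finset.Icc 1 z ∩ N.divisors, G a = ∑ a ∈ N.divisors, G a := by
        refine Finset.sum_subset Finset.inter_subset_right fun a ha hna => hG a ?_
        by_contra h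
        exact hna (Finset.mem_inter.2 ⟨Finset.mem_Icc.2
          ⟨Nat.pos_of_dvd_of_pos (h3 a h).1 (Nat.pos_of_ne_zero hN0), (h3 a h).2⟩, ha⟩)
      rw [← e1, e2]
    have hform : ∑ a ∈ Finset.Icc 1 z, ∑ b ∈ Finset.Icc 1 z, lam a * lam b / (Nat.lcm a b : ℝ) =
        ∑ a ∈ N.divisors, ∑ b ∈ N.divisors, lam a * lam b *
          ∏ p ∈ (Nat.lcm a b).primeFactors, (1 : ℝ) / (p : ℝ) := by
      rw [hsum (fun a => ∑ b ∈ Finset.Icc 1 z, lam a * lam b / (Nat.lcm a b : ℝ))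
        (fun a ha => by simp only [ha, zero_mul, zero_div, Finset.sum_const_zero])]
      refine Finset.sum_congr rfl fun a ha => ?_
      rw [hsum (fun b => lam a * lam b / (Nat.lcm a b : ℝ))
        (fun b hb => by simp only [hb, mul_zero, zero_div])]
      refine Finset.sum_congr rfl fun b hb => ?_
      have hl : Squarefree (Nat.lcm a b) := by
        refine hNsq.squarefree_of_dvd ?_
        exact Nat.lcm_dvd (Nat.dvd_of_mem_divisors ha) (Nat.dvd_of_mem_divisors hb)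
      rw [selb_inv hl]
      ring
    rw [hform]
    refine h4.trans ?_
    have hlog : 0 < Real.log z := Real.log_pos (by
      have : (2 : ℝ) ≤ z := by exact_mod_cast hz
      linarith)
    have hG : Real.log z / 3 ≤ ∑ d ∈ N.divisors.filter (· ≤ z),
        ∏ p ∈ d.primeFactors, ((1 : ℝ) / (p : ℝ)) / (1 - 1 / (p : ℝ)) := by
      refine (Pool.Agent.H37.SFQ.selG_ge (R := z) (by omega)).trans ?_
      unfold Pool.Agent.H37.SFQ.selG
      rw [← Finset.sum_filter]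
      refine le_of_eq ?_
      refine Finset.sum_congr ?_ ?_
      · ext k
        rw [Finset.mem_filter, Finset.mem_filter, Finset.mem_Icc, Nat.mem_divisors]
        constructor
        · rintro ⟨⟨k1, k2⟩, k3⟩
          refine ⟨⟨?_, hN0⟩, k2⟩
          rw [← Nat.prod_primeFactors_of_squarefree k3, hN]
          refine Finset.prod_dvd_prod_of_subset _ _ _ ?_
          intro p hp
          rw [hQdef, Finset.mem_filter, Finset.mem_Icc]
          have hpp := Nat.prime_of_mem_primeFactors hp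
          have hpd := Nat.le_of_dvd (by omega) (Nat.dvd_of_mem_primeFactors hp)
          exact ⟨⟨hpp.one_le, by omega⟩, hpp⟩
        · rintro ⟨⟨k1, _⟩, k2⟩
          exact ⟨⟨Nat.pos_of_dvd_of_pos k1 (Nat.pos_of_ne_zero hN0), k2⟩, hNsq.squarefree_of_dvd k1⟩
      · intro k hk
        rw [Finset.mem_filter, Nat.mem_divisors] at hk
        rw [selb_phi (hNsq.squarefree_of_dvd hk.1.1)]
    have hpos : 0 < Real.log z / 3 := by positivity
    calc _ ≤ 1 / (Real.log z / 3) := one_div_le_one_div_of_le hpos hG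
      _ = 3 / Real.log z := by rw [one_div_div]

end Pool.Agent.H48.LD
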