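import Mathlib
import Pool.Agent.H76.CR.Defs

/-!
# Log-free density near `Re s = 1`: definitions
-/

set_option autoImplicit false

open Complex

namespace Pool.Agent.H48.LD

open Pool.Agent.H76.CR

/-- the number, with multiplicity, of the zeros `u` of `ζ` with `Re u ≥ σ`, `0 < Im u ≤ T` -/
noncomputable def NZ (σ T : ℝ) : ℕ :=
  ∑ᶠ u ∈ {u : ℂ | riemannZeta u = 0 ∧ σ ≤ u.re ∧ 0 < u.im ∧ u.im ≤ T},
    analyticOrderNatAt riemannZeta u

/-- the hat function of centre `c` and half-width `w` -/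
noncomputable def hat (c w y : ℝ) : ℝ := max 0 (1 - |y - c| / w)

/-- the primes in `[e^v1, e^v2]` -/
noncomputable def PP (v1 v2 : ℝ) : Finset ℕ :=
  (Finset.Icc ⌈Real.exp v1⌉₊ ⌊Real.exp v2⌋₊).filter Nat.Prime

/-- `∑ p ∈ PP v1 v2, dco x k p p^(-it)` -/
noncomputable def FP (x : ℝ) (k : ℕ) (v1 v2 t : ℝ) : ℂ :=
  ∑ p ∈ PP v1 v2, (dco x k p : ℂ) * (p : ℂ) ^ (-(t * I))

/-- the kernel `∑_{m ≤ M} hat(log (m D)) m^(-1-iu)` -/
noncomputable def KD (c w u : ℝ) (D M : ℕ) : ℂ :=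
  ∑ m ∈ Finset.Icc 1 M, ((hat c w (Real.log (m * D)) / m : ℝ) : ℂ) * (m : ℂ) ^ (-(u * I))

/-- the Fourier integral of the hat function -/
noncomputable def HI (c w u : ℝ) : ℂ :=
  ∫ y : ℝ in (c - w)..(c + w), (hat c w y : ℂ) * cexp (-((u * y : ℝ) * I))

/-- the saving -/
noncomputable def sav (c q L : ℝ) : ℝ := Real.exp (-(c * min q (q ^ 3 / L ^ 2)))

theorem hat_nonneg (c w y : ℝ) : 0 ≤ hat c w y := le_max_left _ _

theorem hat_le_one {c w : ℝ} (hw : 0 < w) (y : ℝ) : hat c w y ≤ 1 := by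
  unfold hat
  have : 0 ≤ |y - c| / w := by positivity
  exact max_le zero_le_one (by linarith)

end Pool.Agent.H48.LD
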