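import Mathlib
import Pool.Agent.H48.LD.Defs

/-!
# Hat: the Fourier integral of the hat function

PROOF.  (1) `|hat| ≤ 1` on an interval of length `2w`.  (2) `hat c w y = 1 - (c - y)/w` on `[c-w, c]` and
`1 - (y - c)/w` on `[c, c+w]`; integrate by parts (or write down the antiderivative) on both pieces: the boundary
terms with the values of `hat` cancel, what remains is `(1/(w u²)) (2 e^(-iuc) - e^(-iu(c-w)) - e^(-iu(c+w)))`.
(3) the triangle inequality, from `|max 0 a - max 0 b| ≤ |a - b|`.  About 100 lines.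
-/

set_option autoImplicit false

open Complex

namespace Pool.Agent.H48.LD

private theorem hat_E_norm (u y : ℝ) : ‖cexp (-((u * y : ℝ) * I))‖ = 1 := by
  have h1 : -(((u * y : ℝ) : ℂ) * I) = ((-(u * y) : ℝ) : ℂ) * I := by push_cast; ring
  rw [h1, Complex.norm_exp_ofReal_mul_I]

private theorem hat_E_deriv (u y : ℝ) :
    HasDerivAt (fun y : ℝ => cexp (-((u * y : ℝ) * I))) (cexp (-((u * y : ℝ) * I)) * (-((u : ℂ) * I))) y := by
  have h1 : HasDerivAt (fun y : ℝ => -(((u * y : ℝ) : ℂ) * I)) (-((u : ℂ) * I)) y := by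
    have h2 : HasDerivAt (fun y : ℝ => u * y) (u * 1) y := (hasDerivAt_id y).const_mul u
    have h3 : HasDerivAt (fun y : ℝ => -(((u * y : ℝ) : ℂ) * I)) (-(((u * 1 : ℝ) : ℂ) * I)) y :=
      (h2.ofReal_comp.mul_const I).neg
    refine h3.congr_deriv ?_
    rw [mul_one]
  exact h1.cexp

/-- the antiderivative of `(a + b y) e^(-iuy)` -/
private theorem hat_int {u : ℝ} (hu : u ≠ 0) (a b x y : ℝ) :
    (∫ t : ℝ in x..y, ((a + b * t : ℝ) : ℂ) * cexp (-((u * t : ℝ) * I))) =
      (((a + b * y : ℝ) : ℂ) * (I / u) + b / (u : ℂ) ^ 2) * cexp (-((u * y : ℝ) * I)) -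
        (((a + b * x : ℝ) : ℂ) * (I / u) + b / (u : ℂ) ^ 2) * cexp (-((u * x : ℝ) * I)) := by
  have hu' : (u : ℂ) ≠ 0 := by exact_mod_cast hu
  refine intervalIntegral.integral_eq_sub_of_hasDerivAt
    (f := fun t : ℝ => (((a + b * t : ℝ) : ℂ) * (I / u) + b / (u : ℂ) ^ 2) * cexp (-((u * t : ℝ) * I)))
    (fun t _ => ?_) ?_
  · have h1 : HasDerivAt (fun t : ℝ => ((a + b * t : ℝ) : ℂ)) (b : ℂ) t := by
      have h2 : HasDerivAt (fun t : ℝ => a + b * t) (b * 1) t := ((hasDerivAt_id t).const_mul b).const_add a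
      have h3 := h2.ofReal_comp
      simpa using h3
    have h4 := ((h1.mul_const (I / u)).add_const ((b : ℂ) / (u : ℂ) ^ 2)).mul (hat_E_deriv u t)
    refine h4.congr_deriv ?_
    have hI : I * I = -1 := Complex.I_mul_I
    field_simp
    ring_nf
    simp only [Complex.I_sq]
    ring
  · apply Continuous.intervalIntegrable
    fun_prop

theorem HI_le {w : ℝ} (hw : 0 < w) (c u : ℝ) : ‖HI c w u‖ ≤ 2 * w := by
  unfold HI
  have h1 := intervalIntegral.norm_integral_le_of_norm_le_const (a := c - w) (b := c + w) (C := 1)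
    (f := fun y : ℝ => (hat c w y : ℂ) * cexp (-((u * y : ℝ) * I))) (fun y _ => by
      rw [norm_mul, hat_E_norm, mul_one, Complex.norm_real, Real.norm_eq_abs, abs_of_nonneg (hat_nonneg c w y)]
      exact hat_le_one hw y)
  have h2 : |c + w - (c - w)| = 2 * w := by
    rw [show c + w - (c - w) = 2 * w by ring, abs_of_pos (by linarith)]
  rw [h2, one_mul] at h1
  exact h1

private theorem hat_left {w : ℝ} (hw : 0 < w) {c y : ℝ} (h1 : c - w ≤ y) (h2 : y ≤ c) :
    hat c w y = -((c - w) / w) + 1 / w * y := by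
  unfold hat
  rw [abs_of_nonpos (by linarith), max_eq_right]
  · field_simp
    ring
  · have : -(y - c) / w ≤ 1 := by
      rw [div_le_one hw]
      linarith
    linarith

private theorem hat_right {w : ℝ} (hw : 0 < w) {c y : ℝ} (h1 : c ≤ y) (h2 : y ≤ c + w) :
    hat c w y = (c + w) / w + (-(1 / w)) * y := by
  unfold hat
  rw [abs_of_nonneg (by linarith), max_eq_right]
  · field_simp
    ring
  · have : (y - c) / w ≤ 1 := by
      rw [div_le_one hw]
      linarith
    linarith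

private theorem hat_cont (c w : ℝ) : Continuous (hat c w) := by
  unfold hat
  fun_prop

theorem HI_decay {w u : ℝ} (hw : 0 < w) (hu : u ≠ 0) (c : ℝ) : ‖HI c w u‖ ≤ 4 / (w * u ^ 2) := by
  have hu' : (u : ℂ) ≠ 0 := by exact_mod_cast hu
  have hw' : (w : ℂ) ≠ 0 := by exact_mod_cast hw.ne'
  have hi : ∀ a b : ℝ, IntervalIntegrable (fun y : ℝ => (hat c w y : ℂ) * cexp (-((u * y : ℝ) * I)))
      MeasureTheory.volume a b := by
    intro a b
    apply Continuous.intervalIntegrable
    have := hat_cont c w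
    fun_prop
  have hsplit : HI c w u = (∫ y : ℝ in (c - w)..c, (hat c w y : ℂ) * cexp (-((u * y : ℝ) * I))) +
      ∫ y : ℝ in c..(c + w), (hat c w y : ℂ) * cexp (-((u * y : ℝ) * I)) := by
    unfold HI
    exact (intervalIntegral.integral_add_adjacent_intervals (hi _ _) (hi _ _)).symm
  have hL : (∫ y : ℝ in (c - w)..c, (hat c w y : ℂ) * cexp (-((u * y : ℝ) * I))) =
      ∫ y : ℝ in (c - w)..c, ((-((c - w) / w) + 1 / w * y : ℝ) : ℂ) * cexp (-((u * y : ℝ) * I)) := by
    apply intervalIntegral.integral_congr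
    intro y hy
    rw [Set.uIcc_of_le (by linarith)] at hy
    simp only
    rw [hat_left hw hy.1 hy.2]
  have hR : (∫ y : ℝ in c..(c + w), (hat c w y : ℂ) * cexp (-((u * y : ℝ) * I))) =
      ∫ y : ℝ in c..(c + w), (((c + w) / w + (-(1 / w)) * y : ℝ) : ℂ) * cexp (-((u * y : ℝ) * I)) := by
    apply intervalIntegral.integral_congr
    intro y hy
    rw [Set.uIcc_of_le (by linarith)] at hy
    simp only
    rw [hat_right hw hy.1 hy.2]
  have hval : HI c w u = (1 / ((w : ℂ) * (u : ℂ) ^ 2)) * (2 * cexp (-((u * c : ℝ) * I)) -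
      cexp (-((u * (c - w) : ℝ) * I)) - cexp (-((u * (c + w) : ℝ) * I))) := by
    rw [hsplit, hL, hR, hat_int hu, hat_int hu]
    have e1 : (-((c - w) / w) + 1 / w * c : ℝ) = 1 := by field_simp; ring
    have e2 : (-((c - w) / w) + 1 / w * (c - w) : ℝ) = 0 := by field_simp; ring
    have e3 : ((c + w) / w + (-(1 / w)) * (c + w) : ℝ) = 0 := by field_simp; ring
    have e4 : ((c + w) / w + (-(1 / w)) * c : ℝ) = 1 := by field_simp; ring
    rw [e1, e2, e3, e4]
    push_cast
    field_simp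
    ring
  rw [hval, norm_mul]
  have h1 : ‖(1 / ((w : ℂ) * (u : ℂ) ^ 2))‖ = 1 / (w * u ^ 2) := by
    rw [norm_div, norm_one, norm_mul, norm_pow, Complex.norm_real, Complex.norm_real, Real.norm_eq_abs,
      Real.norm_eq_abs, abs_of_pos hw, sq_abs]
  have h2 : ‖2 * cexp (-((u * c : ℝ) * I)) - cexp (-((u * (c - w) : ℝ) * I)) -
      cexp (-((u * (c + w) : ℝ) * I))‖ ≤ 4 := by
    refine (norm_sub_le _ _).trans ?_
    have h3 := norm_sub_le (2 * cexp (-((u * c : ℝ) * I))) (cexp (-((u * (c - w) : ℝ) * I)))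
    rw [norm_mul, hat_E_norm, hat_E_norm] at h3
    rw [hat_E_norm]
    have h4 : ‖(2 : ℂ)‖ = 2 := by norm_num
    rw [h4] at h3
    linarith
  rw [h1]
  have h5 : 0 < w * u ^ 2 := by positivity
  calc 1 / (w * u ^ 2) * ‖2 * cexp (-((u * c : ℝ) * I)) - cexp (-((u * (c - w) : ℝ) * I)) -
      cexp (-((u * (c + w) : ℝ) * I))‖ ≤ 1 / (w * u ^ 2) * 4 := by
        apply mul_le_mul_of_nonneg_left h2
        positivity
    _ = 4 / (w * u ^ 2) := by ring

theorem hat_lip {w : ℝ} (hw : 0 < w) (c y z : ℝ) : |hat c w y - hat c w z| ≤ |y - z| / w := by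
  unfold hat
  have h1 : |max 0 (1 - |y - c| / w) - max 0 (1 - |z - c| / w)| ≤
      |(1 - |y - c| / w) - (1 - |z - c| / w)| := by
    have := abs_max_sub_max_le_abs (1 - |y - c| / w) (1 - |z - c| / w) 0
    rwa [max_comm _ (0 : ℝ), max_comm _ (0 : ℝ)] at this
  refine h1.trans ?_
  have h2 : (1 - |y - c| / w) - (1 - |z - c| / w) = (|z - c| - |y - c|) / w := by ring
  rw [h2, abs_div, abs_of_pos hw]
  apply div_le_div_of_nonneg_right _ hw.le
  have h3 := abs_abs_sub_abs_le (z - c) (y - c)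
  have h4 : z - c - (y - c) = -(y - z) := by ring
  rwa [h4, abs_neg] at h3

end Pool.Agent.H48.LD
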