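import Mathlib
import Pool.Agent.H48.LD.Hat

/-!
# SumI: the kernel and its Fourier integral, small `u`

`f(y) = hat c w (log (yD)) y^(-1-iu)` for `y > 0`, supported in `[e^(c-w)/D, e^(c+w)/D] ⊆ (0, M]`.
PROOF.  `∫_0^M f = D^(iu) HI c w u` (substitution `y = e^s/D`).  For `y ∈ [m, m+1]`, `m ≥ 1`:
`‖f(y) - f(m)‖ ≤ |hat(log yD) - hat(log mD)| y^(-1) + ‖y^(-1-iu) - m^(-1-iu)‖ ≤ (1/w) m^(-2) + (1+|u|) m^(-2)`
(`hat_lip`, `log (y/m) ≤ 1/m`), and both vanish unless `m + 1 ≥ Y := e^(c-w)/D ≥ 1`.  So the difference of the sum over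
`m ≤ M` and the integral over `[1, M+1]` is at most `∑_{m ≥ Y - 1, m ≥ 1} (2 + |u|)/m² ≤ C (1+|u|)/Y`
(`f` vanishes on `[M, M+1]` up to the end point; on `(0,1]` it vanishes as `Y ≥ 1`).  Mathlib: `sum_integral` by
intervals (`intervalIntegral.sum_integral_adjacent_intervals`).  About 170 lines.
-/

set_option autoImplicit false

open Complex

namespace Pool.Agent.H48.LD

/-- the integrand -/
private noncomputable def sumI_G (c w u s : ℝ) : ℂ := (hat c w s : ℂ) * cexp (-((u * s : ℝ) * I))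

private theorem sumI_E_norm (u y : ℝ) : ‖cexp (-((u * y : ℝ) * I))‖ = 1 := by
  have h1 : -(((u * y : ℝ) : ℂ) * I) = ((-(u * y) : ℝ) : ℂ) * I := by push_cast; ring
  rw [h1, Complex.norm_exp_ofReal_mul_I]

private theorem sumI_E_lip (u y z : ℝ) :
    ‖cexp (-((u * y : ℝ) * I)) - cexp (-((u * z : ℝ) * I))‖ ≤ |u| * |y - z| := by
  have h1 : cexp (-((u * y : ℝ) * I)) - cexp (-((u * z : ℝ) * I)) =
      cexp (-((u * z : ℝ) * I)) * (cexp (I * ((-(u * (y - z)) : ℝ) : ℂ)) - 1) := by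
    rw [mul_sub, mul_one, ← Complex.exp_add]
    congr 2
    push_cast
    ring
  rw [h1, norm_mul, sumI_E_norm, one_mul]
  refine Real.norm_exp_I_mul_ofReal_sub_one_le.trans ?_
  rw [norm_neg, Real.norm_eq_abs, abs_mul]

private theorem sumI_G_norm {c w : ℝ} (hw : 0 < w) (u s : ℝ) : ‖sumI_G c w u s‖ ≤ 1 := by
  unfold sumI_G
  rw [norm_mul, sumI_E_norm, mul_one, Complex.norm_real, Real.norm_eq_abs, abs_of_nonneg (hat_nonneg c w s)]
  exact hat_le_one hw s

private theorem sumI_G_lip {c w : ℝ} (hw : 1 ≤ w) (u s t : ℝ) :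
    ‖sumI_G c w u s - sumI_G c w u t‖ ≤ (1 + |u|) * |s - t| := by
  have hw0 : 0 < w := by linarith
  have h1 : sumI_G c w u s - sumI_G c w u t =
      ((hat c w s - hat c w t : ℝ) : ℂ) * cexp (-((u * s : ℝ) * I)) +
        (hat c w t : ℂ) * (cexp (-((u * s : ℝ) * I)) - cexp (-((u * t : ℝ) * I))) := by
    unfold sumI_G
    push_cast
    ring
  rw [h1]
  refine (norm_add_le _ _).trans ?_
  rw [norm_mul, norm_mul, sumI_E_norm, mul_one, Complex.norm_real, Complex.norm_real, Real.norm_eq_abs,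
    Real.norm_eq_abs, abs_of_nonneg (hat_nonneg c w t)]
  have h2 := hat_lip hw0 c s t
  have h3 : |s - t| / w ≤ |s - t| := div_le_self (abs_nonneg _) hw
  have h4 := sumI_E_lip u s t
  have h5 := hat_le_one hw0 (c := c) t
  have h6 : hat c w t * ‖cexp (-((u * s : ℝ) * I)) - cexp (-((u * t : ℝ) * I))‖ ≤ |u| * |s - t| := by
    calc hat c w t * ‖cexp (-((u * s : ℝ) * I)) - cexp (-((u * t : ℝ) * I))‖
        ≤ 1 * ‖cexp (-((u * s : ℝ) * I)) - cexp (-((u * t : ℝ) * I))‖ :=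
          mul_le_mul_of_nonneg_right h5 (norm_nonneg _)
      _ ≤ |u| * |s - t| := by rw [one_mul]; exact h4
  linarith

private theorem sumI_G_cont (c w u : ℝ) : Continuous (sumI_G c w u) := by
  have h : Continuous (hat c w) := by
    unfold hat
    fun_prop
  unfold sumI_G
  fun_prop

private theorem sumI_hat_left {c w : ℝ} (hw : 0 < w) {y : ℝ} (h : y ≤ c - w) : hat c w y = 0 := by
  unfold hat
  apply max_eq_left
  have h1 : 1 ≤ |y - c| / w := by
    rw [le_div_iff₀ hw, abs_of_nonpos (by linarith)]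
    linarith
  linarith

private theorem sumI_hat_right {c w : ℝ} (hw : 0 < w) {y : ℝ} (h : c + w ≤ y) : hat c w y = 0 := by
  unfold hat
  apply max_eq_left
  have h1 : 1 ≤ |y - c| / w := by
    rw [le_div_iff₀ hw, abs_of_nonneg (by linarith)]
    linarith
  linarith

private theorem sumI_zero {c w u a b : ℝ} (hab : a ≤ b) (h : ∀ y, a ≤ y → y ≤ b → hat c w y = 0) :
    (∫ y : ℝ in a..b, sumI_G c w u y) = 0 := by
  have h1 : (∫ y : ℝ in a..b, sumI_G c w u y) = ∫ y : ℝ in a..b, (0 : ℂ) := by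
    apply intervalIntegral.integral_congr
    intro y hy
    rw [Set.uIcc_of_le hab] at hy
    simp only [sumI_G]
    rw [h y hy.1 hy.2]
    simp
  rw [h1, intervalIntegral.integral_zero]

/-- one step -/
private theorem sumI_step {c w : ℝ} (hw : 1 ≤ w) (u : ℝ) {D : ℕ} (hD : 1 ≤ D) {m : ℕ} (hm : 1 ≤ m) :
    ‖sumI_G c w u (Real.log ((m : ℝ) * D)) / (m : ℂ) -
      ∫ y : ℝ in (Real.log ((m : ℝ) * D))..(Real.log (((m + 1 : ℕ) : ℝ) * D)), sumI_G c w u y‖ ≤
      (3 + 2 * |u|) * (1 / (m : ℝ) - 1 / ((m : ℝ) + 1)) := by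
  have hm0 : (0 : ℝ) < m := by exact_mod_cast hm
  have hm1 : (1 : ℝ) ≤ m := by exact_mod_cast hm
  have hD0 : (0 : ℝ) < D := by exact_mod_cast hD
  set s0 := Real.log ((m : ℝ) * D) with hs0
  set s1 := Real.log (((m + 1 : ℕ) : ℝ) * D) with hs1
  have hδ : s1 - s0 = Real.log (1 + 1 / (m : ℝ)) := by
    rw [hs0, hs1, ← Real.log_div (by positivity) (by positivity)]
    congr 1
    push_cast
    field_simp
  have hx : (0 : ℝ) < 1 / m := by positivity
  have hδ1 : s1 - s0 ≤ 1 / m := by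
    rw [hδ]
    have := Real.log_le_sub_one_of_pos (show (0 : ℝ) < 1 + 1 / m by positivity)
    linarith
  have hδ2 : 1 / ((m : ℝ) + 1) ≤ s1 - s0 := by
    rw [hδ]
    have h1 := Real.one_sub_inv_le_log_of_pos (show (0 : ℝ) < 1 + 1 / m by positivity)
    have h2 : 1 - (1 + 1 / (m : ℝ))⁻¹ = 1 / ((m : ℝ) + 1) := by
      field_simp
      ring
    linarith
  have hδ0 : 0 ≤ s1 - s0 := le_trans (by positivity) hδ2
  have hδC : ((s1 - s0 : ℝ) : ℂ) = (s1 : ℂ) - s0 := by push_cast; ring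
  have hsplit : sumI_G c w u s0 / (m : ℂ) - ∫ y : ℝ in s0..s1, sumI_G c w u y =
      ((1 / (m : ℝ) - (s1 - s0) : ℝ) : ℂ) * sumI_G c w u s0 +
        ∫ y : ℝ in s0..s1, (sumI_G c w u s0 - sumI_G c w u y) := by
    rw [intervalIntegral.integral_sub intervalIntegrable_const ((sumI_G_cont c w u).intervalIntegrable _ _),
      intervalIntegral.integral_const, Complex.real_smul]
    push_cast
    ring
  rw [hsplit]
  refine (norm_add_le _ _).trans ?_
  have h1 : ‖((1 / (m : ℝ) - (s1 - s0) : ℝ) : ℂ) * sumI_G c w u s0‖ ≤ 1 / (m : ℝ) - 1 / ((m : ℝ) + 1) := by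
    rw [norm_mul, Complex.norm_real, Real.norm_eq_abs, abs_of_nonneg (by linarith)]
    have h2 := sumI_G_norm (c := c) (show 0 < w by linarith) u s0
    calc (1 / (m : ℝ) - (s1 - s0)) * ‖sumI_G c w u s0‖ ≤ (1 / (m : ℝ) - (s1 - s0)) * 1 :=
          mul_le_mul_of_nonneg_left h2 (by linarith)
      _ ≤ 1 / (m : ℝ) - 1 / ((m : ℝ) + 1) := by linarith
  have h2 : ‖∫ y : ℝ in s0..s1, (sumI_G c w u s0 - sumI_G c w u y)‖ ≤
      (1 + |u|) * (s1 - s0) * |s1 - s0| := by
    apply intervalIntegral.norm_integral_le_of_norm_le_const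
    intro y hy
    rw [Set.uIoc_of_le (by linarith)] at hy
    refine (sumI_G_lip hw u s0 y).trans ?_
    apply mul_le_mul_of_nonneg_left _ (by positivity)
    rw [abs_of_nonpos (by linarith [hy.1])]
    linarith [hy.2]
  have h3 : (1 + |u|) * (s1 - s0) * |s1 - s0| ≤ (1 + |u|) * (2 * (1 / (m : ℝ) - 1 / ((m : ℝ) + 1))) := by
    rw [abs_of_nonneg hδ0, mul_assoc]
    apply mul_le_mul_of_nonneg_left _ (by positivity)
    have h4 : (s1 - s0) * (s1 - s0) ≤ 1 / m * (1 / m) := mul_le_mul hδ1 hδ1 hδ0 hx.le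
    have h5 : 1 / (m : ℝ) * (1 / m) ≤ 2 * (1 / (m : ℝ) - 1 / ((m : ℝ) + 1)) := by
      rw [show 2 * (1 / (m : ℝ) - 1 / ((m : ℝ) + 1)) = 2 / ((m : ℝ) * (m + 1)) by field_simp; ring,
        show 1 / (m : ℝ) * (1 / m) = 1 / (m * m) by field_simp, div_le_div_iff₀ (by positivity) (by positivity)]
      nlinarith
    linarith
  calc ‖((1 / (m : ℝ) - (s1 - s0) : ℝ) : ℂ) * sumI_G c w u s0‖ +
        ‖∫ y : ℝ in s0..s1, (sumI_G c w u s0 - sumI_G c w u y)‖
      ≤ (1 / (m : ℝ) - 1 / ((m : ℝ) + 1)) + (1 + |u|) * (2 * (1 / (m : ℝ) - 1 / ((m : ℝ) + 1))) :=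
        add_le_add h1 (h2.trans h3)
    _ = (3 + 2 * |u|) * (1 / (m : ℝ) - 1 / ((m : ℝ) + 1)) := by ring

private theorem sumI_Icc {β : Type} [AddCommMonoid β] (f : ℕ → β) (M : ℕ) :
    ∑ m ∈ Finset.Icc 1 M, f m = ∑ i ∈ Finset.range M, f (i + 1) := by
  induction M with
  | zero => simp
  | succ n ih => rw [Finset.sum_Icc_succ_top (by omega), ih, Finset.sum_range_succ]

private theorem sumI_term {c w u : ℝ} {D : ℕ} (hD : 1 ≤ D) {m : ℕ} (hm : 1 ≤ m) :
    ((hat c w (Real.log (m * D)) / m : ℝ) : ℂ) * (m : ℂ) ^ (-(u * I)) =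
      (D : ℂ) ^ ((u : ℂ) * I) * (sumI_G c w u (Real.log ((m : ℝ) * D)) / (m : ℂ)) := by
  have hm0 : (m : ℂ) ≠ 0 := by exact_mod_cast (by omega : m ≠ 0)
  have hD0 : (D : ℂ) ≠ 0 := by exact_mod_cast (by omega : D ≠ 0)
  have hm1 : (m : ℝ) ≠ 0 := by exact_mod_cast (by omega : m ≠ 0)
  have hD1 : (D : ℝ) ≠ 0 := by exact_mod_cast (by omega : D ≠ 0)
  unfold sumI_G
  rw [Complex.cpow_def_of_ne_zero hm0, Complex.cpow_def_of_ne_zero hD0, ← Complex.natCast_log, ← Complex.natCast_log]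
  have h1 : cexp ((Real.log m : ℂ) * -(u * I)) =
      cexp ((Real.log D : ℂ) * ((u : ℂ) * I)) * cexp (-((u * Real.log ((m : ℝ) * D) : ℝ) * I)) := by
    rw [← Complex.exp_add, Real.log_mul hm1 hD1]
    congr 1
    push_cast
    ring
  rw [h1]
  push_cast
  ring

theorem sumI : ∃ C : ℝ, 1 ≤ C ∧ ∀ (c w u : ℝ) (D M : ℕ), 1 ≤ w → 1 ≤ D →
    (D : ℝ) ≤ Real.exp (c - w) → Real.exp (c + w) ≤ (M : ℝ) * D →
    ‖KD c w u D M - (D : ℂ) ^ ((u : ℂ) * I) * HI c w u‖ ≤
      C * (1 + |u|) * (D * Real.exp (-(c - w))) := by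
  refine ⟨6, by norm_num, ?_⟩
  intro c w u D M hw hD hDe hM
  have hw0 : 0 < w := by linarith
  have hD0 : (0 : ℝ) < D := by exact_mod_cast hD
  have hM0 : 0 < M := by
    rcases Nat.eq_zero_or_pos M with h | h
    · rw [h] at hM
      have := Real.exp_pos (c + w)
      simp at hM
      linarith
    · exact h
  -- the sum
  have hK : KD c w u D M = (D : ℂ) ^ ((u : ℂ) * I) *
      ∑ i ∈ Finset.range M, sumI_G c w u (Real.log (((i + 1 : ℕ) : ℝ) * D)) / ((i + 1 : ℕ) : ℂ) := by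
    unfold KD
    rw [sumI_Icc, Finset.mul_sum]
    exact Finset.sum_congr rfl (fun i _ => sumI_term hD (by omega))
  -- the integral
  have hInt : HI c w u = ∑ i ∈ Finset.range M,
      ∫ y : ℝ in (Real.log (((i + 1 : ℕ) : ℝ) * D))..(Real.log (((i + 1 + 1 : ℕ) : ℝ) * D)),
        sumI_G c w u y := by
    have h1 := intervalIntegral.sum_integral_adjacent_intervals
      (f := sumI_G c w u) (μ := MeasureTheory.volume) (a := fun i : ℕ => Real.log (((i + 1 : ℕ) : ℝ) * D)) (n := M)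
      (fun k _ => (sumI_G_cont c w u).intervalIntegrable _ _)
    rw [h1]
    have ha : Real.log (((0 + 1 : ℕ) : ℝ) * D) ≤ c - w := by
      rw [← Real.log_exp (c - w)]
      apply Real.log_le_log (by positivity)
      simpa using hDe
    have hb : c + w ≤ Real.log (((M + 1 : ℕ) : ℝ) * D) := by
      rw [Real.le_log_iff_exp_le (by positivity)]
      refine hM.trans ?_
      push_cast
      nlinarith
    have hi : ∀ a b : ℝ, IntervalIntegrable (sumI_G c w u) MeasureTheory.volume a b :=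
      fun a b => (sumI_G_cont c w u).intervalIntegrable _ _
    have h2 : (∫ y : ℝ in (Real.log (((0 + 1 : ℕ) : ℝ) * D))..(Real.log (((M + 1 : ℕ) : ℝ) * D)),
        sumI_G c w u y) = (∫ y : ℝ in (Real.log (((0 + 1 : ℕ) : ℝ) * D))..(c - w), sumI_G c w u y) +
          ((∫ y : ℝ in (c - w)..(c + w), sumI_G c w u y) +
            ∫ y : ℝ in (c + w)..(Real.log (((M + 1 : ℕ) : ℝ) * D)), sumI_G c w u y) := by
      rw [intervalIntegral.integral_add_adjacent_intervals (hi _ _) (hi _ _),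
        intervalIntegral.integral_add_adjacent_intervals (hi _ _) (hi _ _)]
    rw [h2, sumI_zero ha (fun y _ hy => sumI_hat_left hw0 hy), sumI_zero hb (fun y hy _ => sumI_hat_right hw0 hy),
      zero_add, add_zero]
    rfl
  -- the weights
  set Y : ℝ := Real.exp (c - w) / D with hY
  have hYpos : 0 < Y := by positivity
  let φ : ℕ → ℝ := fun m => min (1 / ((m : ℝ) + 1)) (2 / Y)
  have hstep : ∀ i : ℕ, ‖sumI_G c w u (Real.log (((i + 1 : ℕ) : ℝ) * D)) / ((i + 1 : ℕ) : ℂ) -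
      ∫ y : ℝ in (Real.log (((i + 1 : ℕ) : ℝ) * D))..(Real.log (((i + 1 + 1 : ℕ) : ℝ) * D)),
        sumI_G c w u y‖ ≤ (3 + 2 * |u|) * (φ i - φ (i + 1)) := by
    intro i
    have hcoef : 0 ≤ 3 + 2 * |u| := by positivity
    rcases le_or_gt (((i : ℝ) + 1) + 1) Y with hle | hgt
    · have hmD : (((i + 1 + 1 : ℕ) : ℝ)) * D ≤ Real.exp (c - w) := by
        rw [hY, le_div_iff₀ hD0] at hle
        push_cast
        linarith
      have hlog2 : Real.log (((i + 1 + 1 : ℕ) : ℝ) * D) ≤ c - w := by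
        rw [← Real.log_exp (c - w)]
        exact Real.log_le_log (by positivity) hmD
      have hlog1 : Real.log (((i + 1 : ℕ) : ℝ) * D) ≤ Real.log (((i + 1 + 1 : ℕ) : ℝ) * D) := by
        apply Real.log_le_log (by positivity)
        push_cast
        nlinarith
      have h1 : sumI_G c w u (Real.log (((i + 1 : ℕ) : ℝ) * D)) = 0 := by
        unfold sumI_G
        rw [sumI_hat_left hw0 (hlog1.trans hlog2)]
        simp
      rw [h1, sumI_zero hlog1 (fun y _ hy => sumI_hat_left hw0 (hy.trans hlog2))]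
      simp only [zero_div, sub_zero, norm_zero]
      apply mul_nonneg hcoef
      have h2 : φ (i + 1) ≤ φ i := by
        apply min_le_min _ le_rfl
        apply one_div_le_one_div_of_le (by positivity)
        push_cast
        linarith
      linarith
    · refine (sumI_step hw u hD (show 1 ≤ i + 1 by omega)).trans ?_
      apply mul_le_mul_of_nonneg_left _ hcoef
      have hi0 : (0 : ℝ) ≤ i := Nat.cast_nonneg i
      have h1 : φ i = 1 / ((i : ℝ) + 1) := by
        apply min_eq_left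
        rw [div_le_div_iff₀ (by positivity) hYpos]
        linarith
      have h2 : φ (i + 1) ≤ 1 / ((i : ℝ) + 1 + 1) := by
        refine (min_le_left _ _).trans (le_of_eq ?_)
        push_cast
        rfl
      rw [h1]
      push_cast
      linarith
  have hsum : ‖∑ i ∈ Finset.range M, (sumI_G c w u (Real.log (((i + 1 : ℕ) : ℝ) * D)) / ((i + 1 : ℕ) : ℂ) -
      ∫ y : ℝ in (Real.log (((i + 1 : ℕ) : ℝ) * D))..(Real.log (((i + 1 + 1 : ℕ) : ℝ) * D)),
        sumI_G c w u y)‖ ≤ (3 + 2 * |u|) * (2 / Y) := by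
    refine (norm_sum_le _ _).trans ((Finset.sum_le_sum (fun i _ => hstep i)).trans ?_)
    rw [← Finset.mul_sum, Finset.sum_range_sub']
    apply mul_le_mul_of_nonneg_left _ (by positivity)
    have h1 : φ 0 ≤ 2 / Y := min_le_right _ _
    have h2 : 0 ≤ φ M := le_min (by positivity) (by positivity)
    linarith
  have hnD : ‖(D : ℂ) ^ ((u : ℂ) * I)‖ = 1 := by
    rw [Complex.norm_natCast_cpow_of_pos (by omega)]
    simp
  rw [hK, hInt, ← mul_sub, ← Finset.sum_sub_distrib, norm_mul, hnD, one_mul]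
  refine hsum.trans ?_
  have h3 : 2 / Y = 2 * (D * Real.exp (-(c - w))) := by
    rw [hY, Real.exp_neg]
    field_simp
  rw [h3]
  have h4 : 0 ≤ (D : ℝ) * Real.exp (-(c - w)) := by positivity
  have h5 : 0 ≤ |u| := abs_nonneg u
  nlinarith [mul_nonneg h5 h4]

end Pool.Agent.H48.LD
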