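import Mathlib
import Pool.Agent.H48.LD.Hat
import Pool.Agent.H48.VB.Main
import Pool.Agent.H76.VK.Richert
import Pool.Agent.H52.Unc.Gram

/-!
# VKk: the kernel for large `u` (Vinogradov)

PROOF.  `vksum` (`H48/VB/Main.lean`, with `vmvt`; see the first three lines of the proof of `richert` in
`H76/VK/Richert.lean`): `‖∑_{A ≤ m ≤ B} m^(-iu)‖ ≤ C (A^(1-c τ²) + A/|u|)`, `B ≤ 2A`, `τ = min 1 (log A/log |u|)`.
Only `m` with `c0 - w ≤ log (mD) ≤ c0 + w` contribute, so `m ≥ e^q` and `log m ≤ c0 + w ≤ 2 c0`.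
Dyadic blocks `[A, 2A)` starting at `A = ⌈e^q⌉₊`, at most `2 (c0 + w) + 2` of them; on a block the weight
`hat(log mD)/m` is at most `1/A` and has total variation `≤ (1/w + 1)/A ≤ 2/A` (`hat_lip`), so Abel summation
(`block_bound`, `abel_bound` in `H52/Unc/Gram.lean`, and `dyad` there) gives `≤ (3/A) C (A^(1-cτ²) + A/|u|)` per block,
and `A^(-cτ²) = exp(-c min(log A, log³A/log²|u|)) ≤ sav c q (log |u|)` as `log A ≥ q`.  About 180 lines.
-/

set_option autoImplicit false

open Complex

namespace Pool.Agent.H48.LD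

/-- Abel summation with weights of bounded variation -/
private theorem vk_abel (a : ℕ → ℂ) (g v : ℕ → ℝ) {S : ℝ} {A B : ℕ} (hAB : A ≤ B)
    (hS : ∀ m, A ≤ m → m ≤ B → ‖∑ n ∈ Finset.Icc A m, a n‖ ≤ S)
    (hv : ∀ n, A ≤ n → n < B → |g n - g (n + 1)| ≤ v (n + 1) - v n) :
    ‖∑ n ∈ Finset.Icc A B, (g n : ℂ) * a n‖ ≤ (|g B| + (v B - v A)) * S := by
  have key : ‖∑ n ∈ Finset.Icc A B, (g n : ℂ) * a n - (g B : ℂ) * ∑ n ∈ Finset.Icc A B, a n‖ ≤
      (v B - v A) * S := by
    induction B, hAB using Nat.le_induction with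
    | base => simp
    | succ B hAB ih =>
      have ih' := ih (fun m h1 h2 => hS m h1 (by omega)) (fun n h1 h2 => hv n h1 (by omega))
      rw [← Finset.insert_Icc_right_eq_Icc_add_one (by omega : A ≤ B + 1),
        Finset.sum_insert (by simp), Finset.sum_insert (by simp)]
      have e : (g (B + 1) : ℂ) * a (B + 1) + ∑ n ∈ Finset.Icc A B, (g n : ℂ) * a n -
          (g (B + 1) : ℂ) * (a (B + 1) + ∑ n ∈ Finset.Icc A B, a n) =
          (∑ n ∈ Finset.Icc A B, (g n : ℂ) * a n - (g B : ℂ) * ∑ n ∈ Finset.Icc A B, a n) +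
          ((g B - g (B + 1) : ℝ) : ℂ) * ∑ n ∈ Finset.Icc A B, a n := by
        push_cast
        ring
      rw [e]
      have h1 : ‖((g B - g (B + 1) : ℝ) : ℂ) * ∑ n ∈ Finset.Icc A B, a n‖ ≤
          (v (B + 1) - v B) * S := by
        rw [norm_mul, Complex.norm_real, Real.norm_eq_abs]
        exact mul_le_mul (hv B hAB (by omega)) (hS B hAB (by omega)) (norm_nonneg _)
          ((abs_nonneg _).trans (hv B hAB (by omega)))
      calc _ ≤ (v B - v A) * S + (v (B + 1) - v B) * S := (norm_add_le _ _).trans (add_le_add ih' h1)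
        _ = (v (B + 1) - v A) * S := by ring
  have h1 : ‖(g B : ℂ) * ∑ n ∈ Finset.Icc A B, a n‖ ≤ |g B| * S := by
    rw [norm_mul, Complex.norm_real, Real.norm_eq_abs]
    exact mul_le_mul_of_nonneg_left (hS B hAB le_rfl) (abs_nonneg _)
  calc ‖∑ n ∈ Finset.Icc A B, (g n : ℂ) * a n‖
      = ‖(∑ n ∈ Finset.Icc A B, (g n : ℂ) * a n - (g B : ℂ) * ∑ n ∈ Finset.Icc A B, a n) +
          (g B : ℂ) * ∑ n ∈ Finset.Icc A B, a n‖ := by rw [sub_add_cancel]
    _ ≤ (v B - v A) * S + |g B| * S := (norm_add_le _ _).trans (add_le_add key h1)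
    _ = _ := by ring

/-- the saving on a block -/
private theorem vk_sav {c q L : ℝ} (hc : 0 < c) (hq : 1 ≤ q) (hL : 0 < L) {A : ℕ}
    (hA : Real.exp q ≤ A) :
    (A : ℝ) ^ (-(c * (min 1 (Real.log A / L)) ^ 2)) ≤ sav c q L := by
  have hA0 : (0 : ℝ) < A := lt_of_lt_of_le (Real.exp_pos q) hA
  have hlA : q ≤ Real.log A := by
    rw [Real.le_log_iff_exp_le hA0]
    exact hA
  rw [Real.rpow_def_of_pos hA0]
  unfold sav
  apply Real.exp_le_exp.2
  have h0 : min q (q ^ 3 / L ^ 2) ≤ Real.log A * (min 1 (Real.log A / L)) ^ 2 := by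
    rcases le_total 1 (Real.log A / L) with h | h
    · rw [min_eq_left h]
      have := min_le_left q (q ^ 3 / L ^ 2)
      linarith
    · rw [min_eq_right h]
      refine (min_le_right _ _).trans ?_
      rw [div_pow, ← mul_div_assoc]
      apply div_le_div_of_nonneg_right _ (by positivity)
      have h2 : q ^ 3 ≤ Real.log A ^ 3 := pow_le_pow_left₀ (by linarith) hlA 3
      calc q ^ 3 ≤ Real.log A ^ 3 := h2
        _ = Real.log A * Real.log A ^ 2 := by ring
  have h1 := mul_le_mul_of_nonneg_left h0 hc.le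
  have e : Real.log A * -(c * (min 1 (Real.log A / L)) ^ 2) =
      -(c * (Real.log A * (min 1 (Real.log A / L)) ^ 2)) := by ring
  rw [e]
  linarith

theorem vkk : ∃ c C : ℝ, 0 < c ∧ 1 ≤ C ∧ ∀ (c0 w u q : ℝ) (D M : ℕ), 1 ≤ w → w ≤ c0 → 1 ≤ q → 1 ≤ D →
    (D : ℝ) * Real.exp q ≤ Real.exp (c0 - w) → 2 ≤ |u| →
    ‖KD c0 w u D M‖ ≤ C * c0 * (sav c q (Real.log |u|) + 1 / |u|) := by
  obtain ⟨A₀, hA₀, hm⟩ := Pool.Agent.H76.VK.vmvt
  have hMVB : Pool.Agent.H48.VB.MVB A₀ := fun k P hk hP => hm k P hk hP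
  obtain ⟨c, C, hc, hc2, hC, hz⟩ := Pool.Agent.H48.VB.vksum (by linarith : (0 : ℝ) ≤ A₀) hMVB
  refine ⟨c, 8 * C + 1, hc, by linarith, ?_⟩
  intro c0 w u q D M hw hwc hq hD hDq hu
  have hc0 : 1 ≤ c0 := hw.trans hwc
  have hu0 : 0 < |u| := by linarith
  have hL : 0 < Real.log |u| := Real.log_pos (by linarith)
  have hD0 : (1 : ℝ) ≤ D := by exact_mod_cast hD
  set sv : ℝ := sav c q (Real.log |u|) with hsv
  have hsv0 : 0 < sv := Real.exp_pos _
  have hR0 : 0 ≤ (8 * C + 1) * c0 * (sv + 1 / |u|) := by positivity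
  set f : ℕ → ℂ := fun m => ((hat c0 w (Real.log (m * D)) / m : ℝ) : ℂ) * (m : ℂ) ^ (-(u * I))
    with hf
  set N1 : ℕ := ⌈Real.exp q⌉₊ with hN1
  set N2 : ℕ := min M ⌊Real.exp (c0 + w)⌋₊ with hN2
  have hN1q : Real.exp q ≤ N1 := Nat.le_ceil _
  have hN11 : 1 ≤ N1 := by
    rw [hN1, Nat.one_le_ceil_iff]
    exact Real.exp_pos q
  -- reduction to the terms in `[N1, N2]`
  have hred : KD c0 w u D M = ∑ m ∈ Finset.Icc N1 N2, f m := by
    unfold KD
    symm
    apply Finset.sum_subset
    · intro m hm1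
      rw [Finset.mem_Icc] at hm1 ⊢
      exact ⟨hN11.trans hm1.1, hm1.2.trans (min_le_left _ _)⟩
    · intro m hm1 hm2
      rw [Finset.mem_Icc] at hm1
      have hm0 : (0 : ℝ) < m := by
        have : 0 < m := hm1.1
        exact_mod_cast this
      have hmD : (0 : ℝ) < m * D := by positivity
      have hz0 : hat c0 w (Real.log (m * D)) = 0 := by
        unfold hat
        apply max_eq_left
        rw [sub_nonpos, le_div_iff₀ (by linarith), one_mul]
        by_cases h1 : m < N1
        · have h2 : (m : ℝ) < Real.exp q := Nat.lt_ceil.1 h1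
          have h3 : (m : ℝ) * D ≤ Real.exp (c0 - w) := by
            refine le_trans ?_ hDq
            rw [mul_comm]
            exact mul_le_mul_of_nonneg_left h2.le (by linarith)
          have h4 : Real.log (m * D) ≤ c0 - w := by
            rw [Real.log_le_iff_le_exp hmD]
            exact h3
          rw [abs_sub_comm]
          exact (by linarith : w ≤ c0 - Real.log (m * D)).trans (le_abs_self _)
        · have h2 : N2 < m := by
            by_contra h3
            exact hm2 (Finset.mem_Icc.2 ⟨not_lt.1 h1, not_lt.1 h3⟩)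
          have h3 : ⌊Real.exp (c0 + w)⌋₊ < m := by
            rw [hN2, min_lt_iff] at h2
            rcases h2 with h2 | h2
            · exact absurd hm1.2 (not_le.2 h2)
            · exact h2
          have h4 : Real.exp (c0 + w) < m := (Nat.floor_lt (Real.exp_pos _).le).1 h3
          have h5 : Real.exp (c0 + w) ≤ m * D := by nlinarith
          have h6 : c0 + w ≤ Real.log (m * D) := by
            rw [Real.le_log_iff_exp_le hmD]
            exact h5
          exact (by linarith : w ≤ Real.log (m * D) - c0).trans (le_abs_self _)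
      simp only [hf, hz0, zero_div, ofReal_zero, zero_mul]
  rw [hred]
  rcases lt_or_ge N2 N1 with hlt | hge
  · rw [Finset.Icc_eq_empty (not_le.2 hlt), Finset.sum_empty, norm_zero]
    exact hR0
  set K : ℝ := 2 * C * (sv + 1 / |u|) with hK
  have hK0 : 0 < K := by positivity
  have hl2 : 0 < Real.log 2 := Real.log_pos (by norm_num)
  have hlogN2 : Real.log N2 ≤ 2 * c0 := by
    have hN20 : (0 : ℝ) < N2 := by
      have : 0 < N2 := lt_of_lt_of_le (by omega) hge
      exact_mod_cast this
    rw [Real.log_le_iff_le_exp hN20]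
    have h1 : (N2 : ℝ) ≤ ⌊Real.exp (c0 + w)⌋₊ := by exact_mod_cast min_le_right _ _
    exact h1.trans ((Nat.floor_le (Real.exp_pos _).le).trans (Real.exp_le_exp.2 (by linarith)))
  -- the blocks
  have hblock : ∀ A B : ℕ, N1 ≤ A → A ≤ B → B ≤ 2 * A → B ≤ N2 →
      ‖∑ n ∈ Finset.Icc A B, f n‖ ≤ K := by
    intro A B hA hAB hB _
    have hA1 : 1 ≤ A := hN11.trans hA
    have hA0 : (0 : ℝ) < A := by
      have : 0 < A := hA1
      exact_mod_cast this
    have hAq : Real.exp q ≤ A := hN1q.trans (by exact_mod_cast hA)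
    set S : ℝ := C * ((A : ℝ) ^ (1 - c * (min 1 (Real.log A / Real.log |u|)) ^ 2) + A / |u|) with hS
    have hS0 : 0 ≤ S := by positivity
    have hpart : ∀ m, A ≤ m → m ≤ B →
        ‖∑ n ∈ Finset.Icc A m, ((hat c0 w (Real.log (n * D)) : ℝ) : ℂ) * (n : ℂ) ^ (-(u * I))‖ ≤ 2 * S := by
      intro m h1 h2
      have h3 := vk_abel (fun n => (n : ℂ) ^ (-(u * I))) (fun n => hat c0 w (Real.log (n * D)))
        (fun n => Real.log n / w) (S := S) h1
        (fun m' h4 h5 => hz u A m' hA1 h4 (by omega) hu) (by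
          intro n h4 h5
          have hn0 : (0 : ℝ) < n := by
            have : 0 < n := by omega
            exact_mod_cast this
          refine (hat_lip (by linarith : 0 < w) c0 _ _).trans ?_
          rw [← sub_div]
          apply div_le_div_of_nonneg_right _ (by linarith)
          rw [Real.log_mul hn0.ne' (by positivity), Real.log_mul (by positivity) (by positivity)]
          have h6 : Real.log n ≤ Real.log ((n + 1 : ℕ) : ℝ) :=
            Real.log_le_log hn0 (by push_cast; linarith)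
          rw [abs_sub_comm, abs_of_nonneg (by linarith)]
          linarith)
      refine h3.trans (mul_le_mul_of_nonneg_right ?_ hS0)
      have h4 : |hat c0 w (Real.log (m * D))| ≤ 1 := by
        rw [abs_of_nonneg (hat_nonneg _ _ _)]
        exact hat_le_one (by linarith) _
      have h5 : Real.log m / w - Real.log A / w ≤ 1 := by
        rw [← sub_div, div_le_one (by linarith)]
        have hm0 : (0 : ℝ) < m := by
          have : 0 < m := by omega
          exact_mod_cast this
        have h6 : Real.log m ≤ Real.log (2 * A) := by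
          apply Real.log_le_log hm0
          have : m ≤ 2 * A := by omega
          exact_mod_cast this
        rw [Real.log_mul (by norm_num) hA0.ne'] at h6
        have := Real.log_two_lt_d9
        linarith
      linarith
    have h1 := Pool.Agent.H52.Unc.block_bound
      (fun n => ((hat c0 w (Real.log (n * D)) : ℝ) : ℂ) * (n : ℂ) ^ (-(u * I))) hA1 hAB hpart
    have e1 : ∑ n ∈ Finset.Icc A B, f n = ∑ n ∈ Finset.Icc A B,
        (n : ℂ)⁻¹ * (((hat c0 w (Real.log (n * D)) : ℝ) : ℂ) * (n : ℂ) ^ (-(u * I))) := by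
      apply Finset.sum_congr rfl
      intro n _
      simp only [hf]
      push_cast
      ring
    rw [e1]
    refine h1.trans ?_
    have h2 : 2 * S / A = 2 * C * ((A : ℝ) ^ (-(c * (min 1 (Real.log A / Real.log |u|)) ^ 2)) +
        1 / |u|) := by
      rw [hS, show (1 - c * (min 1 (Real.log A / Real.log |u|)) ^ 2 : ℝ) =
        -(c * (min 1 (Real.log A / Real.log |u|)) ^ 2) + 1 by ring, Real.rpow_add hA0, Real.rpow_one]
      field_simp
    rw [h2, hK]
    apply mul_le_mul_of_nonneg_left _ (by positivity)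
    have h3 := vk_sav hc hq hL hAq
    linarith
  have hd := Pool.Agent.H52.Unc.dyad f (fun _ => K)
    (fun A => K * (1 + (Real.log N2 - Real.log A) / Real.log 2)) hN11 (N2 := N2)
    (by
      intro A h1 h2
      have hA0 : (0 : ℝ) < A := by
        have : 0 < A := by omega
        exact_mod_cast this
      have h3 : Real.log A ≤ Real.log N2 := Real.log_le_log hA0 (by exact_mod_cast h2)
      have h4 : 0 ≤ (Real.log N2 - Real.log A) / Real.log 2 := div_nonneg (by linarith) hl2.le
      show K ≤ K * (1 + (Real.log N2 - Real.log A) / Real.log 2)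
      nlinarith)
    (by
      intro A h1 h2
      have hA0 : (0 : ℝ) < A := by
        have : 0 < A := by omega
        exact_mod_cast this
      show K + K * (1 + (Real.log N2 - Real.log ((2 * A : ℕ) : ℝ)) / Real.log 2) ≤
        K * (1 + (Real.log N2 - Real.log A) / Real.log 2)
      apply le_of_eq
      push_cast
      rw [Real.log_mul (by norm_num) hA0.ne']
      field_simp
      ring)
    hblock (N2 - N1) N1 le_rfl le_rfl hge
  refine hd.trans ?_
  have hlN1 : 0 ≤ Real.log N1 := Real.log_natCast_nonneg _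
  have h1 : (Real.log N2 - Real.log N1) / Real.log 2 ≤ 3 * c0 := by
    rw [div_le_iff₀ hl2]
    have := Real.log_two_gt_d9
    nlinarith
  have h2 : K * (1 + (Real.log N2 - Real.log N1) / Real.log 2) ≤ K * (4 * c0) :=
    mul_le_mul_of_nonneg_left (by linarith) hK0.le
  refine h2.trans ?_
  have h3 : K * (4 * c0) = 8 * C * c0 * (sv + 1 / |u|) := by
    rw [hK]; ring
  rw [h3]
  have h4 : 0 ≤ c0 * (sv + 1 / |u|) := by positivity
  nlinarith

end Pool.Agent.H48.LD
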