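import Mathlib
import Pool.Agent.H48.LD.SumI
import Pool.Agent.H48.LD.VKk
import Pool.Agent.H48.LD.Selb
import Pool.Agent.H48.LD.Lcm


/-!
# GramS: the sieve majorant and its kernel

PROOF.  `v` large (`C` large), `z = ⌊e^(v/16)⌋₊` (so `e^(v/16)/2 ≤ z`, `log z ≥ v/17`), `lam` from `selb` (form `≤ 3/log z ≤ 51/v`),
centre `c = (1+M)v/2`, half-width `w = M v/2`: support of the hat `[v/2, M v + v/2]`, and `hat ≥ 1/M` on `[v, Mv]`
(`|y - c| ≤ (M-1)v/2`).  `F = Icc 1 ⌊e^(Mv + v/2)⌋₊`, `s n = ∑_{d ∈ Icc 1 z, d ∣ n} lam d`,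
`h n = s n ^2 * hat c w (log n)/n`.  For a prime `p ≥ e^v > z`: `s p = lam 1 = 1`, `h p ≥ 1/(M p) > 0`.
Kernel: expand the square, `n = m D`, `D = lcm(a,b) ≤ z² ≤ e^(v/8)`:
`∑_{n ∈ F} h n n^(-iu) = ∑_{a,b} lam a lam b D^(-1-iu) KD c w u D (⌊e^(..)⌋₊/D)`
(the multiples `mD ≤ N` of `D` are `m ≤ N/D`; `e^(c+w) ≤ M' D` fails by rounding: take instead
`M' = ⌊e^(c+w)⌋₊/D + 1`, the extra term vanishes since `hat = 0` beyond `c + w`).
Case `|u| ≤ e^(v/8)`: `sumI` (`D ≤ e^(v/8) ≤ e^(v/2) = e^(c-w)`): main part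
`HI c w u ∑ lam a lam b/D` (`D^(-1-iu) D^(iu) = 1/D`), `|·| ≤ (51/v) min(2w, 4/(w u²)) ≤ C/(1 + (vu)²)`
(`HI_le`, `HI_decay`), error `≤ ∑ (1/D) C (1+|u|) D e^(-v/2) ≤ z² C·2 e^(v/8) e^(-v/2) ≤ C e^(-v/4)`.
Case `|u| > e^(v/8)` (then `≥ 2`): `vkk` with `q = 3v/8`: `‖KD‖ ≤ C (1+M) v (sav c' (3v/8) (log |u|) + e^(-v/8))`,
`log |u| ≤ log T`; sum over `a, b` with `lcm_sum`: `(1 + log z)³ ≤ v³`.
`e^(-v/8), e^(-v/4) ≤ sav c (v) (log T)` if `c ≤ 1/8`, and `sav c' (3v/8) L ≤ sav c v L` for `c = c' (3/8)³`.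
So `≤ C/(1 + (vu)²) + C v^5 sav c v (log T)`.  About 250 lines.
-/

set_option autoImplicit false

open Complex

namespace Pool.Agent.H48.LD

private theorem gramS_mult (f : ℕ → ℂ) (X : ℕ) {D : ℕ} (hD : 1 ≤ D) :
    ∑ n ∈ (Finset.Icc 1 X).filter (fun n => D ∣ n), f n =
      ∑ m ∈ Finset.Icc 1 (X / D), f (m * D) := by
  symm
  refine Finset.sum_nbij (fun m => m * D) ?_ ?_ ?_ ?_
  · intro m hm
    rw [Finset.mem_Icc] at hm
    rw [Finset.mem_filter, Finset.mem_Icc]
    refine ⟨⟨Nat.mul_pos hm.1 hD, ?_⟩, Dvd.intro_left m rfl⟩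
    exact (Nat.le_div_iff_mul_le hD).1 hm.2
  · intro a _ b _ hab
    exact Nat.eq_of_mul_eq_mul_right hD hab
  · intro n hn
    rw [Finset.mem_coe, Finset.mem_filter, Finset.mem_Icc] at hn
    obtain ⟨⟨h1, h2⟩, k, hk⟩ := hn
    refine ⟨k, ?_, ?_⟩
    · rw [Finset.mem_coe, Finset.mem_Icc]
      constructor
      · rcases Nat.eq_zero_or_pos k with h0 | h0
        · rw [h0, mul_zero] at hk; omega
        · exact h0
      · rw [Nat.le_div_iff_mul_le hD, mul_comm, ← hk]; exact h2
    · show k * D = n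
      rw [hk, mul_comm]
  · intro a _
    rfl

private theorem gramS_expand (z X : ℕ) (lam : ℕ → ℝ) (g : ℕ → ℂ) :
    ∑ n ∈ Finset.Icc 1 X,
        (((∑ d ∈ (Finset.Icc 1 z).filter (fun d => d ∣ n), lam d) ^ 2 : ℝ) : ℂ) * g n =
      ∑ a ∈ Finset.Icc 1 z, ∑ b ∈ Finset.Icc 1 z,
        ((lam a * lam b : ℝ) : ℂ) * ∑ m ∈ Finset.Icc 1 (X / Nat.lcm a b), g (m * Nat.lcm a b) := by
  have h1 : ∀ n : ℕ, (((∑ d ∈ (Finset.Icc 1 z).filter (fun d => d ∣ n), lam d) ^ 2 : ℝ) : ℂ) * g n =
      ∑ a ∈ Finset.Icc 1 z, ∑ b ∈ Finset.Icc 1 z,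
        if Nat.lcm a b ∣ n then ((lam a * lam b : ℝ) : ℂ) * g n else 0 := by
    intro n
    rw [pow_two, Finset.sum_filter, Finset.sum_mul_sum]
    push_cast
    rw [Finset.sum_mul]
    refine Finset.sum_congr rfl fun a _ => ?_
    rw [Finset.sum_mul]
    refine Finset.sum_congr rfl fun b _ => ?_
    simp only [Nat.lcm_dvd_iff]
    by_cases ha : a ∣ n
    · by_cases hb : b ∣ n
      · simp [ha, hb]
      · simp [hb]
    · simp [ha]
  rw [Finset.sum_congr rfl fun n _ => h1 n, Finset.sum_comm]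
  refine Finset.sum_congr rfl fun a ha => ?_
  rw [Finset.sum_comm]
  refine Finset.sum_congr rfl fun b hb => ?_
  rw [← Finset.sum_filter, ← Finset.mul_sum]
  rw [Finset.mem_Icc] at ha hb
  have hD : 1 ≤ Nat.lcm a b := Nat.lcm_pos ha.1 hb.1
  rw [gramS_mult g X hD]

private theorem gramS_sav_mono {c c' q v L1 L2 : ℝ} (hc : 0 < c) (hq : 0 < q) (hv : q = 3 / 8 * v)
    (hcc : c ≤ 27 / 512 * c') (hL1 : 0 < L1) (hL : L1 ≤ L2) : sav c' q L1 ≤ sav c v L2 := by
  unfold sav
  apply Real.exp_le_exp.2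
  have hv0 : 0 < v := by linarith
  have hc' : 0 < c' := by linarith
  have hL2 : 0 < L2 := hL1.trans_le hL
  have h1 : q ^ 3 / L2 ^ 2 ≤ q ^ 3 / L1 ^ 2 :=
    div_le_div_of_nonneg_left (by positivity) (by positivity) (pow_le_pow_left₀ hL1.le hL 2)
  have h2 : 27 / 512 * min v (v ^ 3 / L2 ^ 2) ≤ min q (q ^ 3 / L1 ^ 2) := by
    apply le_min
    · have := min_le_left v (v ^ 3 / L2 ^ 2)
      rw [hv]
      linarith
    · refine le_trans ?_ h1
      have h3 := min_le_right v (v ^ 3 / L2 ^ 2)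
      have h4 : q ^ 3 / L2 ^ 2 = 27 / 512 * (v ^ 3 / L2 ^ 2) := by rw [hv]; ring
      rw [h4]
      linarith
  have h5 : 0 ≤ min v (v ^ 3 / L2 ^ 2) := le_min hv0.le (by positivity)
  have h6 : c * min v (v ^ 3 / L2 ^ 2) ≤ 27 / 512 * c' * min v (v ^ 3 / L2 ^ 2) :=
    mul_le_mul_of_nonneg_right hcc h5
  have h7 : c' * (27 / 512 * min v (v ^ 3 / L2 ^ 2)) ≤ c' * min q (q ^ 3 / L1 ^ 2) :=
    mul_le_mul_of_nonneg_left h2 hc'.le
  linarith

private theorem gramS_exp_sav {c v L : ℝ} (hc0 : 0 < c) (hc : c ≤ 1 / 8) (hv : 0 < v) :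
    Real.exp (-(v / 8)) ≤ sav c v L := by
  unfold sav
  apply Real.exp_le_exp.2
  have h1 := min_le_left v (v ^ 3 / L ^ 2)
  have h2 : c * min v (v ^ 3 / L ^ 2) ≤ c * v := mul_le_mul_of_nonneg_left h1 hc0.le
  nlinarith

private theorem gramS_min {x B : ℝ} (h1 : B ≤ 1) (h2 : B * x ^ 2 ≤ 8) :
    B ≤ 9 / (1 + x ^ 2) := by
  rw [le_div_iff₀ (by positivity)]
  linarith

/-- the kernel term: `hat = 0` beyond the support -/
private theorem gramS_KD (c w u : ℝ) (D X : ℕ) (hw : 0 < w) (hD : 1 ≤ D)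
    (hX : Real.exp (c + w) < (X : ℝ) + 1) :
    KD c w u D (X / D + 1) = KD c w u D (X / D) := by
  unfold KD
  rw [← Finset.insert_Icc_right_eq_Icc_add_one (Nat.le_add_left 1 (X / D)),
    Finset.sum_insert (by simp)]
  have hlt : X < (X / D + 1) * D := by
    have := Nat.lt_div_mul_add (a := X) (b := D) hD
    rw [add_mul, one_mul]
    exact this
  have h1 : Real.exp (c + w) ≤ ((X / D + 1 : ℕ) : ℝ) * D := by
    have h2 : (X : ℝ) + 1 ≤ ((X / D + 1 : ℕ) : ℝ) * D := by exact_mod_cast hlt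
    linarith
  have h3 : c + w ≤ Real.log (((X / D + 1 : ℕ) : ℝ) * D) := by
    rw [Real.le_log_iff_exp_le (lt_of_lt_of_le (Real.exp_pos _) h1)]
    exact h1
  have h4 : hat c w (Real.log (((X / D + 1 : ℕ) : ℝ) * D)) = 0 := by
    unfold hat
    apply max_eq_left
    have h5 : w ≤ |Real.log (((X / D + 1 : ℕ) : ℝ) * D) - c| := by
      refine le_trans ?_ (le_abs_self _)
      linarith
    have h6 : 1 ≤ |Real.log (((X / D + 1 : ℕ) : ℝ) * D) - c| / w := by
      rw [le_div_iff₀ hw]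
      linarith
    linarith
  rw [h4]
  simp

/-- one pair `(a, b)`: the inner sum is `D^(-1) D^(-iu)` times the kernel -/
private theorem gramS_inner (c w u : ℝ) (D X : ℕ) (hw : 0 < w) (hD : 1 ≤ D)
    (hX : Real.exp (c + w) < (X : ℝ) + 1) :
    ∑ m ∈ Finset.Icc 1 (X / D),
        ((hat c w (Real.log ((m * D : ℕ) : ℝ)) / ((m * D : ℕ) : ℝ) : ℝ) : ℂ) *
          ((m * D : ℕ) : ℂ) ^ (-((u : ℂ) * I)) =
      (((1 : ℝ) / D : ℝ) : ℂ) * (D : ℂ) ^ (-((u : ℂ) * I)) * KD c w u D (X / D + 1) := by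
  rw [gramS_KD c w u D X hw hD hX, KD, Finset.mul_sum]
  refine Finset.sum_congr rfl fun m hm => ?_
  rw [Finset.mem_Icc] at hm
  have hm0 : (m : ℝ) ≠ 0 := by
    have := hm.1
    positivity
  have hD0 : (D : ℝ) ≠ 0 := by positivity
  have e1 : ((m * D : ℕ) : ℂ) ^ (-((u : ℂ) * I)) =
      (m : ℂ) ^ (-((u : ℂ) * I)) * (D : ℂ) ^ (-((u : ℂ) * I)) := by
    rw [Nat.cast_mul]
    exact Complex.natCast_mul_natCast_cpow m D _
  rw [e1, Nat.cast_mul]
  have e2 : hat c w (Real.log ((m : ℝ) * D)) / ((m : ℝ) * D) =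
      1 / D * (hat c w (Real.log ((m : ℝ) * D)) / m) := by
    field_simp
  rw [e2]
  push_cast
  ring

theorem gramS {M : ℝ} (hM : 1 ≤ M) : ∃ c C : ℝ, 0 < c ∧ 1 ≤ C ∧ ∀ v T : ℝ, C ≤ v → C ≤ T →
    ∃ (F : Finset ℕ) (h : ℕ → ℝ), (∀ n ∈ F, 1 ≤ n) ∧ (∀ n ∈ F, 0 ≤ h n) ∧
      (∀ p ∈ PP v (M * v), p ∈ F ∧ 1 / (C * p) ≤ h p) ∧
      ∀ u : ℝ, |u| ≤ T → ‖∑ n ∈ F, (h n : ℂ) * (n : ℂ) ^ (-((u : ℂ) * I))‖ ≤
        C / (1 + (v * u) ^ 2) + C * v ^ 5 * sav c v (Real.log T) := by
  obtain ⟨C1, hC1, hsum⟩ := sumI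
  obtain ⟨c2, C2, hc2, hC2, hvk⟩ := vkk
  refine ⟨min (1 / 8) (27 / 512 * c2), 864 * M + 2 * C1 + C2 * (1 + M) + 200,
    lt_min (by norm_num) (by positivity), by nlinarith, ?_⟩
  intro v T hv hT
  set c : ℝ := min (1 / 8) (27 / 512 * c2) with hcdef
  have hc0 : 0 < c := lt_min (by norm_num) (by positivity)
  have hc8 : c ≤ 1 / 8 := min_le_left _ _
  have hcc2 : c ≤ 27 / 512 * c2 := min_le_right _ _
  set C : ℝ := 864 * M + 2 * C1 + C2 * (1 + M) + 200 with hCdef
  have hC2M : 0 < C2 * (1 + M) := by positivity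
  have hv200 : 200 ≤ v := by linarith
  have hv0 : 0 < v := by linarith
  have hT200 : 200 ≤ T := by linarith
  have hlT : 0 < Real.log T := Real.log_pos (by linarith)
  have hCpos : 0 < C := by linarith
  -- parameters
  set cc : ℝ := (1 + M) * v / 2 with hccdef
  set w : ℝ := M * v / 2 with hwdef
  have hcw1 : cc - w = v / 2 := by rw [hccdef, hwdef]; ring
  have hcw2 : cc + w = v / 2 + M * v := by rw [hccdef, hwdef]; ring
  have hw1 : 1 ≤ w := by rw [hwdef]; nlinarith
  have hw0 : 0 < w := by linarith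
  have hwcc : w ≤ cc := by rw [hccdef, hwdef]; nlinarith
  set z : ℕ := ⌊Real.exp (v / 16)⌋₊ with hzdef
  have hz_le : (z : ℝ) ≤ Real.exp (v / 16) := Nat.floor_le (Real.exp_pos _).le
  have hexp16 : 4 ≤ Real.exp (v / 32) := by
    have := Real.add_one_le_exp (v / 32)
    linarith
  have hexp_sq : Real.exp (v / 16) = Real.exp (v / 32) * Real.exp (v / 32) := by
    rw [← Real.exp_add]; congr 1; ring
  have hz_ge : Real.exp (v / 32) ≤ z := by
    have h1 : Real.exp (v / 16) < z + 1 := Nat.lt_floor_add_one _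
    nlinarith
  have hz2 : 2 ≤ z := by
    have : (4 : ℝ) ≤ z := hexp16.trans hz_ge
    have h4 : 4 ≤ z := by exact_mod_cast this
    omega
  have hz0 : (0 : ℝ) < z := by positivity
  have hlz_ge : v / 32 ≤ Real.log z := by
    rw [Real.le_log_iff_exp_le hz0]; exact hz_ge
  have hlz_le : Real.log z ≤ v / 16 := by
    rw [Real.log_le_iff_le_exp hz0]; exact hz_le
  obtain ⟨lam, hl1, hlb, hlz, hQ0, hQ1⟩ := selb z hz2
  set Q : ℝ := ∑ a ∈ Finset.Icc 1 z, ∑ b ∈ Finset.Icc 1 z, lam a * lam b / (Nat.lcm a b : ℝ) with hQdef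
  have hQ : Q ≤ 96 / v := by
    refine hQ1.trans ?_
    rw [div_le_div_iff₀ (by linarith) hv0]
    linarith
  set X : ℕ := ⌊Real.exp (cc + w)⌋₊ with hXdef
  have hX : Real.exp (cc + w) < (X : ℝ) + 1 := Nat.lt_floor_add_one _
  set s : ℕ → ℝ := fun n => ∑ d ∈ (Finset.Icc 1 z).filter (fun d => d ∣ n), lam d with hsdef
  refine ⟨Finset.Icc 1 X, fun n => s n ^ 2 * (hat cc w (Real.log n) / n), ?_, ?_, ?_, ?_⟩
  · intro n hn
    exact (Finset.mem_Icc.1 hn).1
  · intro n hn
    exact mul_nonneg (sq_nonneg _) (div_nonneg (hat_nonneg _ _ _) (Nat.cast_nonneg _))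
  · intro p hp
    unfold PP at hp
    rw [Finset.mem_filter, Finset.mem_Icc] at hp
    obtain ⟨⟨hp1, hp2⟩, hpp⟩ := hp
    have hpv : Real.exp v ≤ p := (Nat.le_ceil _).trans (by exact_mod_cast hp1)
    have hp0 : (0 : ℝ) < p := lt_of_lt_of_le (Real.exp_pos _) hpv
    have hpM : (p : ℝ) ≤ Real.exp (M * v) :=
      le_trans (by exact_mod_cast hp2) (Nat.floor_le (Real.exp_pos _).le)
    have hlp1 : v ≤ Real.log p := by
      rw [Real.le_log_iff_exp_le hp0]; exact hpv
    have hlp2 : Real.log p ≤ M * v := by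
      rw [Real.log_le_iff_le_exp hp0]; exact hpM
    refine ⟨?_, ?_⟩
    · rw [Finset.mem_Icc]
      refine ⟨hpp.one_lt.le, ?_⟩
      rw [hXdef]
      apply Nat.le_floor
      refine hpM.trans (Real.exp_le_exp.2 ?_)
      rw [hcw2]
      linarith
    · have hsp : s p = 1 := by
        rw [hsdef]
        have hfil : (Finset.Icc 1 z).filter (fun d => d ∣ p) = {1} := by
          ext d
          rw [Finset.mem_filter, Finset.mem_Icc, Finset.mem_singleton]
          constructor
          · rintro ⟨⟨_, h2⟩, h3⟩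
            rcases (Nat.dvd_prime hpp).1 h3 with h4 | h4
            · exact h4
            · exfalso
              rw [h4] at h2
              have h5 : (p : ℝ) ≤ z := by exact_mod_cast h2
              have h6 : Real.exp (v / 16) < Real.exp v := Real.exp_lt_exp.2 (by linarith)
              linarith
          · intro h
            rw [h]
            exact ⟨⟨le_rfl, by omega⟩, one_dvd _⟩
        simp only [hfil, Finset.sum_singleton, hl1]
      have hhat : 1 / M ≤ hat cc w (Real.log p) := by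
        unfold hat
        refine le_trans ?_ (le_max_right _ _)
        have h1 : |Real.log p - cc| ≤ (M - 1) * v / 2 := by
          rw [abs_le, hccdef]
          constructor
          · linarith
          · linarith
        have h2 : |Real.log p - cc| / w ≤ (M - 1) / M := by
          rw [div_le_div_iff₀ hw0 (by linarith), hwdef]
          calc |Real.log p - cc| * M ≤ ((M - 1) * v / 2) * M :=
                mul_le_mul_of_nonneg_right h1 (by linarith)
            _ = (M - 1) * (M * v / 2) := by ring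
        have h3 : 1 / M = 1 - (M - 1) / M := by
          have : M ≠ 0 := by linarith
          field_simp
          ring
        linarith
      show 1 / (C * p) ≤ s p ^ 2 * (hat cc w (Real.log p) / p)
      rw [hsp, one_pow, one_mul]
      calc 1 / (C * p) ≤ 1 / (M * p) := by
            apply one_div_le_one_div_of_le (by positivity)
            apply mul_le_mul_of_nonneg_right _ hp0.le
            linarith
        _ = 1 / M / p := by rw [div_div]
        _ ≤ hat cc w (Real.log p) / p := div_le_div_of_nonneg_right hhat hp0.le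
  · intro u hu
    have hexpand : ∑ n ∈ Finset.Icc 1 X, ((s n ^ 2 * (hat cc w (Real.log n) / n) : ℝ) : ℂ) *
        (n : ℂ) ^ (-((u : ℂ) * I)) =
        ∑ a ∈ Finset.Icc 1 z, ∑ b ∈ Finset.Icc 1 z, ((lam a * lam b : ℝ) : ℂ) *
          ((((1 : ℝ) / (Nat.lcm a b : ℕ) : ℝ) : ℂ) * ((Nat.lcm a b : ℕ) : ℂ) ^ (-((u : ℂ) * I)) *
            KD cc w u (Nat.lcm a b) (X / Nat.lcm a b + 1)) := by
      have h1 := gramS_expand z X lam (fun n => ((hat cc w (Real.log n) / n : ℝ) : ℂ) *
        (n : ℂ) ^ (-((u : ℂ) * I)))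
      calc _ = ∑ n ∈ Finset.Icc 1 X,
            (((∑ d ∈ (Finset.Icc 1 z).filter (fun d => d ∣ n), lam d) ^ 2 : ℝ) : ℂ) *
              (((hat cc w (Real.log n) / n : ℝ) : ℂ) * (n : ℂ) ^ (-((u : ℂ) * I))) := by
            refine Finset.sum_congr rfl fun n _ => ?_
            rw [Complex.ofReal_mul, mul_assoc]
        _ = _ := h1
        _ = _ := by
            refine Finset.sum_congr rfl fun a ha => Finset.sum_congr rfl fun b hb => ?_
            rw [Finset.mem_Icc] at ha hb
            have hD : 1 ≤ Nat.lcm a b := Nat.lcm_pos ha.1 hb.1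
            rw [← gramS_inner cc w u (Nat.lcm a b) X hw0 hD hX]
    show ‖∑ n ∈ Finset.Icc 1 X, ((s n ^ 2 * (hat cc w (Real.log n) / n) : ℝ) : ℂ) *
        (n : ℂ) ^ (-((u : ℂ) * I))‖ ≤ _
    rw [hexpand]
    -- bounds for D
    have hDle : ∀ a ∈ Finset.Icc 1 z, ∀ b ∈ Finset.Icc 1 z,
        1 ≤ Nat.lcm a b ∧ ((Nat.lcm a b : ℕ) : ℝ) ≤ Real.exp (v / 8) := by
      intro a ha b hb
      rw [Finset.mem_Icc] at ha hb
      refine ⟨Nat.lcm_pos ha.1 hb.1, ?_⟩
      have h1 : Nat.lcm a b ≤ a * b := Nat.le_of_dvd (Nat.mul_pos ha.1 hb.1) (Nat.lcm_dvd_mul a b)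
      have h2 : a * b ≤ z * z := Nat.mul_le_mul ha.2 hb.2
      have h3 : ((Nat.lcm a b : ℕ) : ℝ) ≤ (z : ℝ) * z := by exact_mod_cast h1.trans h2
      have h4 : Real.exp (v / 8) = Real.exp (v / 16) * Real.exp (v / 16) := by
        rw [← Real.exp_add]; congr 1; ring
      rw [h4]
      exact h3.trans (mul_le_mul hz_le hz_le hz0.le (Real.exp_pos _).le)
    have hnorm : ∀ D : ℕ, 1 ≤ D → ‖(D : ℂ) ^ (-((u : ℂ) * I))‖ = 1 := by
      intro D hD
      rw [Complex.norm_natCast_cpow_of_pos hD]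
      simp
    have hsav0 : 0 < sav c v (Real.log T) := Real.exp_pos _
    have hv5 : v ^ 4 ≤ v ^ 5 := pow_le_pow_right₀ (by linarith) (by norm_num)
    have hv51 : 1 ≤ v ^ 5 := one_le_pow₀ (by linarith)
    have hden : 0 < 1 + (v * u) ^ 2 := by positivity
    have hexs : Real.exp (-(v / 8)) ≤ sav c v (Real.log T) := gramS_exp_sav hc0 hc8 hv0
    by_cases hcase : |u| ≤ Real.exp (v / 8)
    · -- small u
      have hmain : ∑ a ∈ Finset.Icc 1 z, ∑ b ∈ Finset.Icc 1 z, ((lam a * lam b : ℝ) : ℂ) *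
          ((((1 : ℝ) / (Nat.lcm a b : ℕ) : ℝ) : ℂ) * ((Nat.lcm a b : ℕ) : ℂ) ^ (-((u : ℂ) * I)) *
            KD cc w u (Nat.lcm a b) (X / Nat.lcm a b + 1)) =
          (Q : ℂ) * HI cc w u +
          ∑ a ∈ Finset.Icc 1 z, ∑ b ∈ Finset.Icc 1 z, ((lam a * lam b : ℝ) : ℂ) *
          ((((1 : ℝ) / (Nat.lcm a b : ℕ) : ℝ) : ℂ) * ((Nat.lcm a b : ℕ) : ℂ) ^ (-((u : ℂ) * I)) *
            (KD cc w u (Nat.lcm a b) (X / Nat.lcm a b + 1) -
              ((Nat.lcm a b : ℕ) : ℂ) ^ ((u : ℂ) * I) * HI cc w u)) := by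
        rw [hQdef]
        push_cast
        rw [Finset.sum_mul, ← Finset.sum_add_distrib]
        refine Finset.sum_congr rfl fun a ha => ?_
        rw [Finset.sum_mul, ← Finset.sum_add_distrib]
        refine Finset.sum_congr rfl fun b hb => ?_
        have hD := (hDle a ha b hb).1
        have hD0 : ((Nat.lcm a b : ℕ) : ℂ) ≠ 0 := by
          have : Nat.lcm a b ≠ 0 := by omega
          exact_mod_cast this
        have e : ((Nat.lcm a b : ℕ) : ℂ) ^ (-((u : ℂ) * I)) * ((Nat.lcm a b : ℕ) : ℂ) ^ ((u : ℂ) * I) = 1 := by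
          rw [← Complex.cpow_add _ _ hD0, neg_add_cancel, Complex.cpow_zero]
        linear_combination (((lam a : ℂ) * (lam b : ℂ)) * (1 / ((Nat.lcm a b : ℕ) : ℂ)) * HI cc w u) * e
      rw [hmain]
      have herr : ‖∑ a ∈ Finset.Icc 1 z, ∑ b ∈ Finset.Icc 1 z, ((lam a * lam b : ℝ) : ℂ) *
          ((((1 : ℝ) / (Nat.lcm a b : ℕ) : ℝ) : ℂ) * ((Nat.lcm a b : ℕ) : ℂ) ^ (-((u : ℂ) * I)) *
            (KD cc w u (Nat.lcm a b) (X / Nat.lcm a b + 1) -
              ((Nat.lcm a b : ℕ) : ℂ) ^ ((u : ℂ) * I) * HI cc w u))‖ ≤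
          2 * C1 * Real.exp (-(v / 8)) := by
        have hterm : ∀ a ∈ Finset.Icc 1 z, ∀ b ∈ Finset.Icc 1 z, ‖((lam a * lam b : ℝ) : ℂ) *
          ((((1 : ℝ) / (Nat.lcm a b : ℕ) : ℝ) : ℂ) * ((Nat.lcm a b : ℕ) : ℂ) ^ (-((u : ℂ) * I)) *
            (KD cc w u (Nat.lcm a b) (X / Nat.lcm a b + 1) -
              ((Nat.lcm a b : ℕ) : ℂ) ^ ((u : ℂ) * I) * HI cc w u))‖ ≤
            C1 * (1 + |u|) * Real.exp (-(v / 2)) := by
          intro a ha b hb
          obtain ⟨hD, hDe⟩ := hDle a ha b hb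
          have hD0 : (0 : ℝ) < (Nat.lcm a b : ℕ) := by exact_mod_cast hD
          have h1 := hsum cc w u (Nat.lcm a b) (X / Nat.lcm a b + 1) hw1 hD (by
            rw [hcw1]
            exact hDe.trans (Real.exp_le_exp.2 (by linarith))) (by
            have hlt : X < (X / Nat.lcm a b + 1) * Nat.lcm a b := by
              have := Nat.lt_div_mul_add (a := X) (b := Nat.lcm a b) hD
              rw [add_mul, one_mul]
              exact this
            have h2 : (X : ℝ) + 1 ≤ ((X / Nat.lcm a b + 1 : ℕ) : ℝ) * (Nat.lcm a b : ℕ) := by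
              exact_mod_cast hlt
            linarith)
          rw [hcw1] at h1
          rw [norm_mul, norm_mul, norm_mul, hnorm _ hD, mul_one, Complex.norm_real, Complex.norm_real,
            Real.norm_eq_abs, Real.norm_eq_abs, abs_of_pos (by positivity : (0 : ℝ) < 1 / (Nat.lcm a b : ℕ)),
            abs_mul]
          have h2 : |lam a| * |lam b| ≤ 1 := by
            have := mul_le_mul (hlb a) (hlb b) (abs_nonneg _) zero_le_one
            linarith
          calc |lam a| * |lam b| * (1 / (Nat.lcm a b : ℕ) * ‖KD cc w u (Nat.lcm a b) (X / Nat.lcm a b + 1) -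
                ((Nat.lcm a b : ℕ) : ℂ) ^ ((u : ℂ) * I) * HI cc w u‖)
              ≤ 1 * (1 / (Nat.lcm a b : ℕ) *
                (C1 * (1 + |u|) * ((Nat.lcm a b : ℕ) * Real.exp (-(v / 2))))) := by
                apply mul_le_mul h2 _ (by positivity) zero_le_one
                exact mul_le_mul_of_nonneg_left h1 (by positivity)
            _ = C1 * (1 + |u|) * Real.exp (-(v / 2)) := by field_simp
        calc _ ≤ ∑ a ∈ Finset.Icc 1 z, ∑ b ∈ Finset.Icc 1 z, C1 * (1 + |u|) * Real.exp (-(v / 2)) := by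
              refine (norm_sum_le _ _).trans (Finset.sum_le_sum fun a ha => ?_)
              exact (norm_sum_le _ _).trans (Finset.sum_le_sum fun b hb => hterm a ha b hb)
          _ = (z : ℝ) * (z * (C1 * (1 + |u|) * Real.exp (-(v / 2)))) := by
              rw [Finset.sum_const, Finset.sum_const, Nat.card_Icc, Nat.add_sub_cancel]
              simp only [nsmul_eq_mul]
          _ ≤ Real.exp (v / 16) * (Real.exp (v / 16) *
                (C1 * (2 * Real.exp (v / 8)) * Real.exp (-(v / 2)))) := by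
              have h8 : 1 ≤ Real.exp (v / 8) := Real.one_le_exp (by linarith)
              gcongr
              linarith
          _ = 2 * C1 * Real.exp (-(v / 4)) := by
              have : Real.exp (-(v / 4)) = Real.exp (v / 16) * Real.exp (v / 16) * Real.exp (v / 8) *
                  Real.exp (-(v / 2)) := by
                rw [← Real.exp_add, ← Real.exp_add, ← Real.exp_add]; congr 1; ring
              rw [this]; ring
          _ ≤ 2 * C1 * Real.exp (-(v / 8)) := by
              apply mul_le_mul_of_nonneg_left _ (by linarith)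
              exact Real.exp_le_exp.2 (by linarith)
      have hHI : ‖(Q : ℂ) * HI cc w u‖ ≤ 864 * M / (1 + (v * u) ^ 2) := by
        rw [norm_mul, Complex.norm_real, Real.norm_eq_abs, abs_of_nonneg hQ0]
        have h1 : Q * ‖HI cc w u‖ ≤ 96 * M := by
          calc Q * ‖HI cc w u‖ ≤ 96 / v * (2 * w) :=
                mul_le_mul hQ (HI_le hw0 cc u) (norm_nonneg _) (by positivity)
            _ = 96 * M := by rw [hwdef]; field_simp
        have h2 : Q * ‖HI cc w u‖ * (v * u) ^ 2 ≤ 768 * M := by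
          by_cases hu0 : u = 0
          · rw [hu0]
            simp only [mul_zero, ne_eq, OfNat.ofNat_ne_zero, not_false_eq_true, zero_pow]
            linarith
          · have h3 : Q * ‖HI cc w u‖ ≤ 96 / v * (4 / (w * u ^ 2)) :=
              mul_le_mul hQ (HI_decay hw0 hu0 cc) (norm_nonneg _) (by positivity)
            calc Q * ‖HI cc w u‖ * (v * u) ^ 2 ≤ 96 / v * (4 / (w * u ^ 2)) * (v * u) ^ 2 :=
                  mul_le_mul_of_nonneg_right h3 (sq_nonneg _)
              _ = 768 / M := by rw [hwdef]; field_simp; ring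
              _ ≤ 768 * M := by
                  rw [div_le_iff₀ (by linarith)]
                  nlinarith
        rw [le_div_iff₀ hden]
        nlinarith
      calc _ ≤ 864 * M / (1 + (v * u) ^ 2) + 2 * C1 * Real.exp (-(v / 8)) :=
            (norm_add_le _ _).trans (add_le_add hHI herr)
        _ ≤ C / (1 + (v * u) ^ 2) + C * v ^ 5 * sav c v (Real.log T) := by
            apply add_le_add
            · apply div_le_div_of_nonneg_right _ hden.le
              linarith
            · calc 2 * C1 * Real.exp (-(v / 8)) ≤ C * sav c v (Real.log T) := by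
                    apply mul_le_mul (by linarith) hexs (Real.exp_pos _).le hCpos.le
                _ ≤ C * v ^ 5 * sav c v (Real.log T) := by
                    apply mul_le_mul_of_nonneg_right _ hsav0.le
                    nlinarith
    · -- large u
      rw [not_le] at hcase
      have hu2 : 2 ≤ |u| := by
        have := Real.add_one_le_exp (v / 8)
        linarith
      have hu0 : 0 < |u| := by linarith
      have hlu : 0 < Real.log |u| := Real.log_pos (by linarith)
      have hluT : Real.log |u| ≤ Real.log T := Real.log_le_log hu0 hu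
      have hsv : sav c2 (3 / 8 * v) (Real.log |u|) ≤ sav c v (Real.log T) :=
        gramS_sav_mono hc0 (by linarith) rfl hcc2 hlu hluT
      have hinv : 1 / |u| ≤ sav c v (Real.log T) := by
        refine le_trans ?_ hexs
        rw [Real.exp_neg, one_div]
        exact inv_anti₀ (Real.exp_pos _) hcase.le
      have hK : ∀ a ∈ Finset.Icc 1 z, ∀ b ∈ Finset.Icc 1 z,
          ‖KD cc w u (Nat.lcm a b) (X / Nat.lcm a b + 1)‖ ≤
            C2 * (1 + M) * v * sav c v (Real.log T) := by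
        intro a ha b hb
        obtain ⟨hD, hDe⟩ := hDle a ha b hb
        have h1 := hvk cc w u (3 / 8 * v) (Nat.lcm a b) (X / Nat.lcm a b + 1) hw1 hwcc
          (by linarith) hD (by
            rw [hcw1]
            calc ((Nat.lcm a b : ℕ) : ℝ) * Real.exp (3 / 8 * v) ≤
                  Real.exp (v / 8) * Real.exp (3 / 8 * v) :=
                  mul_le_mul_of_nonneg_right hDe (Real.exp_pos _).le
              _ = Real.exp (v / 2) := by rw [← Real.exp_add]; congr 1; ring) hu2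
        refine h1.trans ?_
        calc C2 * cc * (sav c2 (3 / 8 * v) (Real.log |u|) + 1 / |u|)
            ≤ C2 * cc * (sav c v (Real.log T) + sav c v (Real.log T)) := by
              apply mul_le_mul_of_nonneg_left (add_le_add hsv hinv)
              have : 0 < cc := by linarith
              positivity
          _ = C2 * (1 + M) * v * sav c v (Real.log T) := by rw [hccdef]; ring
      have hlog : 1 + Real.log z ≤ v := by linarith
      calc ‖∑ a ∈ Finset.Icc 1 z, ∑ b ∈ Finset.Icc 1 z, ((lam a * lam b : ℝ) : ℂ) *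
          ((((1 : ℝ) / (Nat.lcm a b : ℕ) : ℝ) : ℂ) * ((Nat.lcm a b : ℕ) : ℂ) ^ (-((u : ℂ) * I)) *
            KD cc w u (Nat.lcm a b) (X / Nat.lcm a b + 1))‖
          ≤ ∑ a ∈ Finset.Icc 1 z, ∑ b ∈ Finset.Icc 1 z,
              1 / ((Nat.lcm a b : ℕ) : ℝ) * (C2 * (1 + M) * v * sav c v (Real.log T)) := by
            refine (norm_sum_le _ _).trans (Finset.sum_le_sum fun a ha => ?_)
            refine (norm_sum_le _ _).trans (Finset.sum_le_sum fun b hb => ?_)
            obtain ⟨hD, _⟩ := hDle a ha b hb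
            have hD0 : (0 : ℝ) < (Nat.lcm a b : ℕ) := by exact_mod_cast hD
            rw [norm_mul, norm_mul, norm_mul, hnorm _ hD, mul_one, Complex.norm_real, Complex.norm_real,
              Real.norm_eq_abs, Real.norm_eq_abs, abs_of_pos (by positivity : (0 : ℝ) < 1 / (Nat.lcm a b : ℕ)),
              abs_mul]
            have h2 : |lam a| * |lam b| ≤ 1 := by
              have := mul_le_mul (hlb a) (hlb b) (abs_nonneg _) zero_le_one
              linarith
            calc |lam a| * |lam b| * (1 / (Nat.lcm a b : ℕ) *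
                  ‖KD cc w u (Nat.lcm a b) (X / Nat.lcm a b + 1)‖)
                ≤ 1 * (1 / (Nat.lcm a b : ℕ) * (C2 * (1 + M) * v * sav c v (Real.log T))) := by
                  apply mul_le_mul h2 _ (by positivity) zero_le_one
                  exact mul_le_mul_of_nonneg_left (hK a ha b hb) (by positivity)
              _ = _ := one_mul _
        _ = (∑ a ∈ Finset.Icc 1 z, ∑ b ∈ Finset.Icc 1 z, 1 / ((Nat.lcm a b : ℕ) : ℝ)) *
              (C2 * (1 + M) * v * sav c v (Real.log T)) := by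
            rw [Finset.sum_mul]
            refine Finset.sum_congr rfl fun a _ => ?_
            rw [Finset.sum_mul]
        _ ≤ v ^ 3 * (C2 * (1 + M) * v * sav c v (Real.log T)) := by
            apply mul_le_mul_of_nonneg_right _ (by positivity)
            refine (lcm_sum z (by omega)).trans ?_
            apply pow_le_pow_left₀ _ hlog
            have : 0 ≤ Real.log z := by linarith
            linarith
        _ = C2 * (1 + M) * v ^ 4 * sav c v (Real.log T) := by ring
        _ ≤ C * v ^ 5 * sav c v (Real.log T) := by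
            apply mul_le_mul_of_nonneg_right _ hsav0.le
            apply mul_le_mul (by linarith) hv5 (by positivity) hCpos.le
        _ ≤ C / (1 + (v * u) ^ 2) + C * v ^ 5 * sav c v (Real.log T) := by
            have : 0 ≤ C / (1 + (v * u) ^ 2) := by positivity
            linarith

end Pool.Agent.H48.LD
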