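import Mathlib

/-!
# PrS: a sum over primes

PROOF.  `∑_{p ≤ y} (log p)/p ≤ C (1 + log y)` from Chebyshev's bound (Mathlib: `Chebyshev` file, `θ x ≤ log 4 · x`, and
partial summation or dyadic blocks `∑_{2^j < p ≤ 2^(j+1)} log p/p ≤ 2^(-j) θ(2^(j+1)) ≤ 2 log 4`), times `log p ≤ V`.
About 60 lines.
-/

set_option autoImplicit false

namespace Pool.Agent.H48.LD

private lemma PrS_fact (N p : ℕ) (hp : p.Prime) : N / p ≤ (N.factorial).factorization p := by
  rw [Nat.Prime.pow_dvd_iff_le_factorization hp (Nat.factorial_ne_zero N) |>.symm]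
  have h1 : p ^ (N / p) ∣ (p * (N / p)).factorial := by
    generalize N / p = k
    induction k with
    | zero => simp
    | succ k ih =>
      have h2 : p * (k + 1) = (p * k + (p - 1)) + 1 := by
        have := hp.pos
        rw [Nat.mul_succ]; omega
      rw [h2, Nat.factorial_succ, ← h2, pow_succ, mul_comm (p ^ k) p]
      refine Nat.mul_dvd_mul (Dvd.intro _ rfl) (ih.trans ?_)
      exact Nat.factorial_dvd_factorial (Nat.le_add_right _ _)
  exact h1.trans (Nat.factorial_dvd_factorial (Nat.mul_div_le N p))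

private lemma PrS_log (N : ℕ) : Real.log (N.factorial : ℝ) =
    ∑ p ∈ (Finset.Icc 1 N).filter Nat.Prime, ((N.factorial).factorization p : ℝ) * Real.log p := by
  have h0 := Nat.factorization_prod_pow_eq_self (Nat.factorial_ne_zero N)
  have h1 : (N.factorial : ℝ) = ∏ p ∈ (N.factorial).factorization.support,
      ((p : ℝ)) ^ ((N.factorial).factorization p) := by
    conv_lhs => rw [← h0]
    rw [Finsupp.prod]
    push_cast
    rfl
  rw [h1, Real.log_prod]
  · have h2 : ∑ i ∈ (N.factorial).factorization.support,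
        Real.log (((i : ℝ)) ^ ((N.factorial).factorization i)) =
        ∑ i ∈ (N.factorial).factorization.support,
          ((N.factorial).factorization i : ℝ) * Real.log i :=
      Finset.sum_congr rfl fun i _ => Real.log_pow _ _
    rw [h2]
    refine Finset.sum_subset ?_ ?_
    · intro p hp
      rw [Nat.support_factorization, Nat.mem_primeFactors] at hp
      rw [Finset.mem_filter, Finset.mem_Icc]
      exact ⟨⟨hp.1.pos, (hp.1.dvd_factorial).1 hp.2.1⟩, hp.1⟩
    · intro p _ hp
      have : (N.factorial).factorization p = 0 := Finsupp.notMem_support_iff.1 hp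
      rw [this]; simp
  · intro p hp
    rw [Nat.support_factorization, Nat.mem_primeFactors] at hp
    exact pow_ne_zero _ (by exact_mod_cast hp.1.ne_zero)

private lemma PrS_mertens (N : ℕ) (hN : 1 ≤ N) :
    ∑ p ∈ (Finset.Icc 1 N).filter Nat.Prime, Real.log p / p ≤ Real.log N + Real.log 4 := by
  have hN0 : (0 : ℝ) < N := by exact_mod_cast hN
  have h1 : Real.log (N.factorial : ℝ) ≤ N * Real.log N := by
    rw [← Real.log_pow]
    refine Real.log_le_log (by exact_mod_cast Nat.factorial_pos N) ?_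
    exact_mod_cast Nat.factorial_le_pow N
  have h2 : ∑ p ∈ (Finset.Icc 1 N).filter Nat.Prime, Real.log p ≤ Real.log 4 * N := by
    have h3 := Chebyshev.theta_le_log4_mul_x (x := (N : ℝ)) hN0.le
    have h4 : ∑ p ∈ (Finset.Icc 1 N).filter Nat.Prime, Real.log p = Chebyshev.theta (N : ℝ) := by
      rw [Chebyshev.theta, Nat.floor_natCast]
      refine Finset.sum_congr ?_ (fun _ _ => rfl)
      ext p
      simp only [Finset.mem_filter, Finset.mem_Icc, Finset.mem_Ioc]
      constructor
      · rintro ⟨⟨a, b⟩, c⟩; exact ⟨⟨by omega, b⟩, c⟩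
      · rintro ⟨⟨a, b⟩, c⟩; exact ⟨⟨by omega, b⟩, c⟩
    rw [h4]; exact h3
  have h5 : ∑ p ∈ (Finset.Icc 1 N).filter Nat.Prime, ((N : ℝ) / p - 1) * Real.log p ≤
      Real.log (N.factorial : ℝ) := by
    rw [PrS_log]
    refine Finset.sum_le_sum fun p hp => ?_
    rw [Finset.mem_filter, Finset.mem_Icc] at hp
    have hp1 : (1 : ℝ) ≤ p := by exact_mod_cast hp.1.1
    refine mul_le_mul_of_nonneg_right ?_ (Real.log_nonneg hp1)
    have h6 : (N : ℝ) / p < (N / p : ℕ) + 1 := by
      rw [div_lt_iff₀ (by linarith)]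
      have := Nat.lt_mul_div_succ N (hp.2.pos)
      have h7 : ((N : ℕ) : ℝ) < ((p * (N / p + 1) : ℕ) : ℝ) := by exact_mod_cast this
      push_cast at h7
      linarith [mul_comm (p : ℝ) ((N / p : ℕ) + 1 : ℝ)]
    have h8 : ((N / p : ℕ) : ℝ) ≤ ((N.factorial).factorization p : ℝ) := by
      exact_mod_cast PrS_fact N p hp.2
    linarith
  have h9 : ∑ p ∈ (Finset.Icc 1 N).filter Nat.Prime, ((N : ℝ) / p - 1) * Real.log p =
      N * ∑ p ∈ (Finset.Icc 1 N).filter Nat.Prime, Real.log p / p -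
      ∑ p ∈ (Finset.Icc 1 N).filter Nat.Prime, Real.log p := by
    rw [Finset.mul_sum, ← Finset.sum_sub_distrib]
    refine Finset.sum_congr rfl fun p _ => ?_
    ring
  have h10 : N * ∑ p ∈ (Finset.Icc 1 N).filter Nat.Prime, Real.log p / p ≤
      N * (Real.log N + Real.log 4) := by
    rw [h9] at h5
    nlinarith
  exact le_of_mul_le_mul_left h10 hN0

theorem prS : ∃ C : ℝ, 1 ≤ C ∧ ∀ V : ℝ, 1 ≤ V →
    ∑ p ∈ (Finset.Icc 1 ⌊Real.exp V⌋₊).filter Nat.Prime, (Real.log p) ^ 2 / p ≤ C * V ^ 2 := by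
  have hl4 : 0 ≤ Real.log 4 := Real.log_nonneg (by norm_num)
  refine ⟨1 + Real.log 4, by linarith, fun V hV => ?_⟩
  set N := ⌊Real.exp V⌋₊ with hN
  have hN1 : 1 ≤ N := by
    rw [hN]
    exact Nat.le_floor (by simpa using Real.one_le_exp (by linarith : (0 : ℝ) ≤ V))
  have hNV : Real.log N ≤ V := by
    rw [Real.log_le_iff_le_exp (by exact_mod_cast hN1)]
    exact Nat.floor_le (Real.exp_pos V).le
  have h1 : ∑ p ∈ (Finset.Icc 1 N).filter Nat.Prime, (Real.log p) ^ 2 / p ≤
      V * ∑ p ∈ (Finset.Icc 1 N).filter Nat.Prime, Real.log p / p := by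
    rw [Finset.mul_sum]
    refine Finset.sum_le_sum fun p hp => ?_
    rw [Finset.mem_filter, Finset.mem_Icc] at hp
    have hp1 : (1 : ℝ) ≤ p := by exact_mod_cast hp.1.1
    have hpV : Real.log p ≤ V :=
      (Real.log_le_log (by linarith) (by exact_mod_cast hp.1.2)).trans hNV
    rw [pow_two, mul_div_assoc]
    exact mul_le_mul_of_nonneg_right hpV (div_nonneg (Real.log_nonneg hp1) (by linarith))
  have h2 := PrS_mertens N hN1
  have h3 : V * ∑ p ∈ (Finset.Icc 1 N).filter Nat.Prime, Real.log p / p ≤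
      V * (V + Real.log 4) := mul_le_mul_of_nonneg_left (by linarith) (by linarith)
  nlinarith [mul_nonneg hl4 (sub_nonneg.2 hV)]

end Pool.Agent.H48.LD
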