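import Mathlib

/-!
# Space: quadratic decay over separated points

PROOF (compare the private `half`, `both` in `H52/Unc/Halasz.lean`).  For `s > t` in `X`: `v (s - t) ≥ 1`,
`s ↦ ⌊v (s - t)⌋₊` is injective (separation `1/v`) with values `≥ 1`, so the sum over these `s` is
`≤ ∑_{m ≥ 1} 1/(1 + m²) ≤ ∑_{m ≥ 1} 1/m² ≤ 2`; the same for `s < t`; `s = t` gives `1`.  Total `≤ 5`.
About 80 lines.
-/

set_option autoImplicit false

namespace Pool.Agent.H48.LD

private theorem space_half (A : Finset ℝ) (g : ℝ → ℝ) (h1 : ∀ s ∈ A, 1 ≤ g s)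
    (h2 : ∀ s ∈ A, ∀ t ∈ A, s ≠ t → 1 ≤ |g s - g t|) :
    ∑ s ∈ A, 1 / (1 + (g s) ^ 2) ≤ 2 := by
  classical
  have hinj : Set.InjOn (fun s => ⌊g s⌋₊) (A : Set ℝ) := by
    intro s hs t ht hst
    by_contra hne
    have h3 := h2 s hs t ht hne
    have h4 : (⌊g s⌋₊ : ℝ) ≤ g s := Nat.floor_le (by linarith [h1 s hs])
    have h5 : g s < ⌊g s⌋₊ + 1 := Nat.lt_floor_add_one _
    have h6 : (⌊g t⌋₊ : ℝ) ≤ g t := Nat.floor_le (by linarith [h1 t ht])
    have h7 : g t < ⌊g t⌋₊ + 1 := Nat.lt_floor_add_one _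
    have h8 : (⌊g s⌋₊ : ℝ) = ⌊g t⌋₊ := by exact_mod_cast hst
    rw [h8] at h4 h5
    have h9 : |g s - g t| < 1 := by
      rw [abs_lt]
      constructor <;> linarith
    linarith
  have hone : ∀ s ∈ A, 1 ≤ ⌊g s⌋₊ := fun s hs => by
    rw [Nat.one_le_floor_iff]
    exact h1 s hs
  have hterm : ∀ s ∈ A, 1 / (1 + (g s) ^ 2) ≤ (((⌊g s⌋₊ : ℕ) : ℝ) ^ 2)⁻¹ := by
    intro s hs
    have h3 : (1 : ℝ) ≤ (⌊g s⌋₊ : ℝ) := by exact_mod_cast hone s hs
    have h4 : (⌊g s⌋₊ : ℝ) ≤ g s := Nat.floor_le (by linarith [h1 s hs])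
    rw [← one_div]
    apply one_div_le_one_div_of_le
    · positivity
    · nlinarith
  set N : ℕ := (A.image (fun s => ⌊g s⌋₊)).sup id + 1 with hN
  calc ∑ s ∈ A, 1 / (1 + (g s) ^ 2) ≤ ∑ s ∈ A, (((⌊g s⌋₊ : ℕ) : ℝ) ^ 2)⁻¹ :=
        Finset.sum_le_sum hterm
    _ = ∑ m ∈ A.image (fun s => ⌊g s⌋₊), (((m : ℕ) : ℝ) ^ 2)⁻¹ := by
        rw [Finset.sum_image hinj]
    _ ≤ ∑ m ∈ Finset.Ioo 0 N, (((m : ℕ) : ℝ) ^ 2)⁻¹ := by
        apply Finset.sum_le_sum_of_subset_of_nonneg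
        · intro m hm
          rw [Finset.mem_Ioo]
          constructor
          · obtain ⟨s, hs, rfl⟩ := Finset.mem_image.1 hm
            exact hone s hs
          · have := Finset.le_sup (f := id) hm
            simp only [id] at this
            omega
        · intro m _ _
          positivity
    _ ≤ 2 / ((0 : ℕ) + 1 : ℝ) := by
        have := sum_Ioo_inv_sq_le (α := ℝ) 0 N
        exact_mod_cast this
    _ = 2 := by norm_num

theorem space {v : ℝ} (hv : 0 < v) (X : Finset ℝ)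
    (hX : ∀ s ∈ X, ∀ t ∈ X, s ≠ t → 1 / v ≤ |s - t|) (t : ℝ) (ht : t ∈ X) :
    ∑ s ∈ X, 1 / (1 + (v * (t - s)) ^ 2) ≤ 5 := by
  classical
  have hsep : ∀ s ∈ X, ∀ u ∈ X, s ≠ u → 1 ≤ v * |s - u| := by
    intro s hs u hu hne
    have h1 := hX s hs u hu hne
    rw [div_le_iff₀ hv] at h1
    linarith [mul_comm v |s - u|]
  have hA : ∑ s ∈ X.filter (fun s => t < s), 1 / (1 + (v * (t - s)) ^ 2) ≤ 2 := by
    have h := space_half (X.filter (fun s => t < s)) (fun s => v * (s - t))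
      (fun s hs => by
        rw [Finset.mem_filter] at hs
        have := hsep s hs.1 t ht (ne_of_gt hs.2)
        rwa [abs_of_pos (sub_pos.2 hs.2)] at this)
      (fun s hs u hu hne => by
        rw [Finset.mem_filter] at hs hu
        have := hsep s hs.1 u hu.1 hne
        have e : v * (s - t) - v * (u - t) = v * (s - u) := by ring
        rw [e, abs_mul, abs_of_pos hv]
        exact this)
    refine le_trans (le_of_eq ?_) h
    refine Finset.sum_congr rfl fun s _ => ?_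
    have e : (v * (t - s)) ^ 2 = (v * (s - t)) ^ 2 := by ring
    rw [e]
  have hB : ∑ s ∈ X.filter (fun s => s < t), 1 / (1 + (v * (t - s)) ^ 2) ≤ 2 := by
    exact space_half (X.filter (fun s => s < t)) (fun s => v * (t - s))
      (fun s hs => by
        rw [Finset.mem_filter] at hs
        have := hsep t ht s hs.1 (ne_of_gt hs.2)
        rwa [abs_of_pos (sub_pos.2 hs.2)] at this)
      (fun s hs u hu hne => by
        rw [Finset.mem_filter] at hs hu
        have := hsep u hu.1 s hs.1 (Ne.symm hne)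
        have e : v * (t - s) - v * (t - u) = v * (u - s) := by ring
        rw [e, abs_mul, abs_of_pos hv]
        exact this)
  have hsub : X ⊆ (X.filter (fun s => t < s) ∪ X.filter (fun s => s < t)) ∪ {t} := by
    intro s hs
    rcases lt_trichotomy s t with h | h | h
    · exact Finset.mem_union_left _ (Finset.mem_union_right _ (Finset.mem_filter.2 ⟨hs, h⟩))
    · exact Finset.mem_union_right _ (Finset.mem_singleton.2 h)
    · exact Finset.mem_union_left _ (Finset.mem_union_left _ (Finset.mem_filter.2 ⟨hs, h⟩))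
  have hpos : ∀ s : ℝ, 0 ≤ 1 / (1 + (v * (t - s)) ^ 2) := fun s => by positivity
  have hun : ∀ P Q : Finset ℝ, ∑ s ∈ P ∪ Q, 1 / (1 + (v * (t - s)) ^ 2) ≤
      ∑ s ∈ P, 1 / (1 + (v * (t - s)) ^ 2) + ∑ s ∈ Q, 1 / (1 + (v * (t - s)) ^ 2) := by
    intro P Q
    rw [← Finset.sum_union_inter]
    have : 0 ≤ ∑ s ∈ P ∩ Q, 1 / (1 + (v * (t - s)) ^ 2) := Finset.sum_nonneg fun s _ => hpos s
    linarith
  have h1 := Finset.sum_le_sum_of_subset_of_nonneg hsub (fun s _ _ => hpos s)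
  have h2 := hun (X.filter (fun s => t < s) ∪ X.filter (fun s => s < t)) {t}
  have h3 := hun (X.filter (fun s => t < s)) (X.filter (fun s => s < t))
  have h4 : ∑ s ∈ ({t} : Finset ℝ), 1 / (1 + (v * (t - s)) ^ 2) = 1 := by
    rw [Finset.sum_singleton]
    simp
  linarith

end Pool.Agent.H48.LD
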