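import Mathlib
import Pool.Agent.H48.LD.GramS
import Pool.Agent.H48.LD.Dual
import Pool.Agent.H48.LD.Space
import Pool.Agent.H48.LD.PrS

/-!
# LV: few separated points where a prime polynomial is large, without logarithm

PROOF.  `gramS` gives `F, h`; `dual` with `P = PP v (M v)`, `b p = x^(k+1) dco x k p`
(`0 ≤ b p ≤ x log p/p`: `x^(k+1) dco x k p = x (log p)/p · y^k/k! e^(-y)`, `y = x log p`, `y^k/k! ≤ e^y`,
`Real.pow_div_factorial_le_exp`; `Λ p = log p`): with `N = card X`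
`(N τ)² ≤ (∑_p b p²/h p) ∑_{t,s} ‖..‖`, `∑_p b p² C p ≤ C x² ∑_{p ≤ e^(Mv)} (log p)²/p ≤ C' (x v)²` (`prS`),
`∑_{t,s} ≤ 5 C N + C N² v^5 sav` (`space`, `gramS`, `|t - s| ≤ T`).  The condition gives
`C' (xv)² C v^5 sav ≤ τ²/2`, so `N² τ² ≤ C'' (xv)² N + N² τ²/2`.  About 130 lines.
-/

set_option autoImplicit false

open Complex

namespace Pool.Agent.H48.LD

open Pool.Agent.H76.CR

private theorem lv_coef {x : ℝ} (hx : 0 < x) (k p : ℕ) (hp : p.Prime) :
    0 ≤ x ^ (k + 1) * dco x k p ∧ x ^ (k + 1) * dco x k p ≤ x * (Real.log p / p) := by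
  have hp1 : (1 : ℝ) < p := by exact_mod_cast hp.one_lt
  have hp0 : (0 : ℝ) < p := by linarith
  have hl : 0 < Real.log p := Real.log_pos hp1
  have hpw : (p : ℝ) ^ (-(1 + x)) = (p : ℝ)⁻¹ * Real.exp (-(x * Real.log p)) := by
    have e : -(1 + x) = (-1 : ℝ) + (-x) := by ring
    rw [e, Real.rpow_add hp0, Real.rpow_neg_one, Real.rpow_def_of_pos hp0]
    congr 2
    ring
  have key : x ^ (k + 1) * dco x k p =
      (x * (Real.log p / p)) *
        ((x * Real.log p) ^ k / (k.factorial : ℝ) * Real.exp (-(x * Real.log p))) := by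
    unfold dco
    rw [ArithmeticFunction.vonMangoldt_apply_prime hp, hpw]
    rw [mul_pow]
    field_simp
    ring
  have hy : 0 ≤ x * Real.log p := by positivity
  have h1 : (x * Real.log p) ^ k / (k.factorial : ℝ) * Real.exp (-(x * Real.log p)) ≤ 1 := by
    have h2 := Real.pow_div_factorial_le_exp (x * Real.log p) hy k
    have h3 : Real.exp (x * Real.log p) * Real.exp (-(x * Real.log p)) = 1 := by
      rw [← Real.exp_add]
      simp
    calc (x * Real.log p) ^ k / (k.factorial : ℝ) * Real.exp (-(x * Real.log p))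
        ≤ Real.exp (x * Real.log p) * Real.exp (-(x * Real.log p)) :=
          mul_le_mul_of_nonneg_right h2 (Real.exp_pos _).le
      _ = 1 := h3
  have h0 : 0 ≤ (x * Real.log p) ^ k / (k.factorial : ℝ) * Real.exp (-(x * Real.log p)) := by
    positivity
  have hb : 0 ≤ x * (Real.log p / p) := by positivity
  rw [key]
  exact ⟨mul_nonneg hb h0, by nlinarith⟩

private theorem lv_mem {v1 v2 : ℝ} {p : ℕ} (hp : p ∈ PP v1 v2) :
    p.Prime ∧ p ∈ Finset.Icc 1 ⌊Real.exp v2⌋₊ := by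
  unfold PP at hp
  rw [Finset.mem_filter, Finset.mem_Icc] at hp
  exact ⟨hp.2, Finset.mem_Icc.2 ⟨hp.2.one_lt.le, hp.1.2⟩⟩

private theorem lv_fin {N A C0 B S τ : ℝ} (hN : 0 ≤ N) (hτ : 0 < τ) (hB : 0 ≤ A * C0 * B)
    (h : (N * τ) ^ 2 ≤ (A * B) * (5 * C0 * N + N ^ 2 * (C0 * S)))
    (hc : 2 * (A * C0 * B * S) ≤ τ ^ 2) : N ≤ 10 * (A * C0) * B / τ ^ 2 := by
  rw [le_div_iff₀ (by positivity)]
  rcases hN.eq_or_lt with h0 | h0
  · rw [← h0]
    linarith
  · have h2 : N * (N * τ ^ 2) ≤ N * (5 * (A * C0) * B + N * (A * C0 * B * S)) := by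
      calc N * (N * τ ^ 2) = (N * τ) ^ 2 := by ring
        _ ≤ _ := h
        _ = _ := by ring
    have h3 := le_of_mul_le_mul_left h2 h0
    have h4 := mul_le_mul_of_nonneg_left hc hN
    linarith

theorem lv {M : ℝ} (hM : 1 ≤ M) : ∃ c C : ℝ, 0 < c ∧ 1 ≤ C ∧
    ∀ (v T x τ : ℝ) (k : ℕ) (X : Finset ℝ), C ≤ v → C ≤ T → 0 < x → 0 < τ →
    (∀ s ∈ X, ∀ t ∈ X, |s - t| ≤ T) → (∀ s ∈ X, ∀ t ∈ X, s ≠ t → 1 / v ≤ |s - t|) →
    (∀ t ∈ X, τ ≤ x ^ (k + 1) * ‖FP x k v (M * v) t‖) →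
    C * (x * v) ^ 2 * v ^ 5 * sav c v (Real.log T) ≤ τ ^ 2 →
    (X.card : ℝ) ≤ C * (x * v) ^ 2 / τ ^ 2 := by
  classical
  obtain ⟨c, C0, hc, hC0, hg⟩ := gramS hM
  obtain ⟨C1, hC1, hpr⟩ := prS
  have hA : 0 < C0 * C1 * M ^ 2 := by positivity
  refine ⟨c, 10 * ((C0 * C1 * M ^ 2) * C0) + C0, hc, by nlinarith [mul_pos hA (by linarith : (0:ℝ) < C0)], ?_⟩
  intro v T x τ k X hv hT hx hτ hXT hXs hbig hcond
  have hAC : 0 < (C0 * C1 * M ^ 2) * C0 := by positivity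
  have hvC : C0 ≤ v := by linarith
  have hTC : C0 ≤ T := by linarith
  have hv0 : 0 < v := by linarith
  obtain ⟨F, h, hF1, hF0, hFP, hK⟩ := hg v T hvC hTC
  have hsav : 0 ≤ sav c v (Real.log T) := (Real.exp_pos _).le
  set P := PP v (M * v) with hPdef
  set b : ℕ → ℂ := fun p => ((x ^ (k + 1) * dco x k p : ℝ) : ℂ) with hb
  have hpos : ∀ p ∈ P, 0 < h p := by
    intro p hp
    have hpp := (lv_mem hp).1
    have hp0 : (0 : ℝ) < p := by exact_mod_cast hpp.pos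
    exact lt_of_lt_of_le (by positivity) (hFP p hp).2
  have hd := dual F P (fun p hp => (hFP p hp).1) hF1 h hF0 hpos b X
  -- the left side
  have hL : (X.card : ℝ) * τ ≤ ∑ t ∈ X, ‖∑ n ∈ P, b n * (n : ℂ) ^ (-(t * I))‖ := by
    have : ∀ t ∈ X, τ ≤ ‖∑ n ∈ P, b n * (n : ℂ) ^ (-(t * I))‖ := by
      intro t ht
      refine (hbig t ht).trans (le_of_eq ?_)
      have e : ∑ n ∈ P, b n * (n : ℂ) ^ (-(t * I)) =
          ((x ^ (k + 1) : ℝ) : ℂ) * FP x k v (M * v) t := by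
        unfold FP
        rw [Finset.mul_sum]
        refine Finset.sum_congr rfl fun p _ => ?_
        rw [hb]
        push_cast
        ring
      rw [e, norm_mul, Complex.norm_real, Real.norm_of_nonneg (by positivity)]
    calc (X.card : ℝ) * τ = ∑ _t ∈ X, τ := by rw [Finset.sum_const, nsmul_eq_mul]
      _ ≤ _ := Finset.sum_le_sum this
  -- the coefficients
  have hcoef : ∑ n ∈ P, ‖b n‖ ^ 2 / h n ≤ (C0 * C1 * M ^ 2) * (x * v) ^ 2 := by
    have h1 : ∀ p ∈ P, ‖b p‖ ^ 2 / h p ≤ C0 * x ^ 2 * ((Real.log p) ^ 2 / p) := by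
      intro p hp
      have hpp := (lv_mem hp).1
      have hp0 : (0 : ℝ) < p := by exact_mod_cast hpp.pos
      have h2 := lv_coef hx k p hpp
      have h3 : ‖b p‖ = x ^ (k + 1) * dco x k p := by
        rw [hb]
        simp only
        rw [Complex.norm_real, Real.norm_of_nonneg h2.1]
      have h4 : ‖b p‖ ^ 2 ≤ (x * (Real.log p / p)) ^ 2 := by
        rw [h3]
        exact pow_le_pow_left₀ h2.1 h2.2 2
      have h5 := (hFP p hp).2
      rw [div_le_iff₀ (hpos p hp)]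
      calc ‖b p‖ ^ 2 ≤ (x * (Real.log p / p)) ^ 2 := h4
        _ = C0 * x ^ 2 * ((Real.log p) ^ 2 / p) * (1 / (C0 * p)) := by
            field_simp
        _ ≤ C0 * x ^ 2 * ((Real.log p) ^ 2 / p) * h p :=
            mul_le_mul_of_nonneg_left h5 (by positivity)
    have hV : 1 ≤ M * v := by nlinarith
    calc ∑ n ∈ P, ‖b n‖ ^ 2 / h n ≤ ∑ p ∈ P, C0 * x ^ 2 * ((Real.log p) ^ 2 / p) :=
          Finset.sum_le_sum h1
      _ ≤ ∑ p ∈ (Finset.Icc 1 ⌊Real.exp (M * v)⌋₊).filter Nat.Prime,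
            C0 * x ^ 2 * ((Real.log p) ^ 2 / p) := by
          apply Finset.sum_le_sum_of_subset_of_nonneg
          · intro p hp
            exact Finset.mem_filter.2 ⟨(lv_mem hp).2, (lv_mem hp).1⟩
          · intro p _ _
            positivity
      _ = C0 * x ^ 2 * ∑ p ∈ (Finset.Icc 1 ⌊Real.exp (M * v)⌋₊).filter Nat.Prime,
            (Real.log p) ^ 2 / p := by rw [Finset.mul_sum]
      _ ≤ C0 * x ^ 2 * (C1 * (M * v) ^ 2) :=
          mul_le_mul_of_nonneg_left (hpr _ hV) (by positivity)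
      _ = (C0 * C1 * M ^ 2) * (x * v) ^ 2 := by ring
  -- the kernel
  have hker : ∑ t ∈ X, ∑ s ∈ X, ‖∑ n ∈ F, (h n : ℂ) * (n : ℂ) ^ (-(((t - s : ℝ) : ℂ) * I))‖ ≤
      5 * C0 * X.card + (X.card : ℝ) ^ 2 * (C0 * (v ^ 5 * sav c v (Real.log T))) := by
    have h1 : ∀ t ∈ X, ∑ s ∈ X, ‖∑ n ∈ F, (h n : ℂ) * (n : ℂ) ^ (-(((t - s : ℝ) : ℂ) * I))‖ ≤
        5 * C0 + X.card * (C0 * (v ^ 5 * sav c v (Real.log T))) := by
      intro t ht
      calc ∑ s ∈ X, ‖∑ n ∈ F, (h n : ℂ) * (n : ℂ) ^ (-(((t - s : ℝ) : ℂ) * I))‖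
          ≤ ∑ s ∈ X, (C0 * (1 / (1 + (v * (t - s)) ^ 2)) +
              C0 * (v ^ 5 * sav c v (Real.log T))) := by
            refine Finset.sum_le_sum fun s hs => ?_
            refine (hK (t - s) (hXT t ht s hs)).trans (le_of_eq ?_)
            ring
        _ = C0 * ∑ s ∈ X, 1 / (1 + (v * (t - s)) ^ 2) +
              X.card * (C0 * (v ^ 5 * sav c v (Real.log T))) := by
            rw [Finset.sum_add_distrib, Finset.mul_sum, Finset.sum_const, nsmul_eq_mul]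
        _ ≤ C0 * 5 + X.card * (C0 * (v ^ 5 * sav c v (Real.log T))) := by
            have := space hv0 X hXs t ht
            have h0 : 0 ≤ C0 := by linarith
            linarith [mul_le_mul_of_nonneg_left this h0]
        _ = _ := by ring
    calc _ ≤ ∑ _t ∈ X, (5 * C0 + X.card * (C0 * (v ^ 5 * sav c v (Real.log T)))) :=
          Finset.sum_le_sum h1
      _ = _ := by
          rw [Finset.sum_const, nsmul_eq_mul]
          ring
  have hfin : ((X.card : ℝ) * τ) ^ 2 ≤ ((C0 * C1 * M ^ 2) * (x * v) ^ 2) *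
      (5 * C0 * X.card + (X.card : ℝ) ^ 2 * (C0 * (v ^ 5 * sav c v (Real.log T)))) := by
    have h1 : ((X.card : ℝ) * τ) ^ 2 ≤ (∑ t ∈ X, ‖∑ n ∈ P, b n * (n : ℂ) ^ (-(t * I))‖) ^ 2 :=
      pow_le_pow_left₀ (by positivity) hL 2
    refine h1.trans (hd.trans ?_)
    apply mul_le_mul hcoef hker
    · exact Finset.sum_nonneg fun t _ => Finset.sum_nonneg fun s _ => norm_nonneg _
    · positivity
  have hc2 : 2 * ((C0 * C1 * M ^ 2) * C0 * (x * v) ^ 2 * (v ^ 5 * sav c v (Real.log T))) ≤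
      τ ^ 2 := by
    refine le_trans ?_ hcond
    have h1 : 0 ≤ (x * v) ^ 2 * (v ^ 5 * sav c v (Real.log T)) := by positivity
    have h2 : 2 * ((C0 * C1 * M ^ 2) * C0) ≤ 10 * ((C0 * C1 * M ^ 2) * C0) + C0 := by linarith
    calc 2 * ((C0 * C1 * M ^ 2) * C0 * (x * v) ^ 2 * (v ^ 5 * sav c v (Real.log T)))
        = (2 * ((C0 * C1 * M ^ 2) * C0)) * ((x * v) ^ 2 * (v ^ 5 * sav c v (Real.log T))) := by
          ring
      _ ≤ (10 * ((C0 * C1 * M ^ 2) * C0) + C0) *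
            ((x * v) ^ 2 * (v ^ 5 * sav c v (Real.log T))) := mul_le_mul_of_nonneg_right h2 h1
      _ = _ := by ring
  have h := lv_fin (Nat.cast_nonneg X.card) hτ (by positivity) hfin hc2
  refine h.trans ?_
  apply div_le_div_of_nonneg_right _ (by positivity)
  apply mul_le_mul_of_nonneg_right _ (by positivity)
  linarith

end Pool.Agent.H48.LD
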