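import Mathlib
import Pool.Agent.H52.RK.DkLocalG
import Pool.Agent.H48.LD.Cnt

/-!
# Loc: the local formula without logarithm

PROOF.  `Dk_localG` (`H52/RK/DkLocalG.lean`) with `η = 1/2`, radius `R = r0/8`: growth on
`closedBall (pt a t) (3 r0/16)`: for `z` in it `‖z - (1+it)‖ ≤ 3 r0/16 + a ≤ r0`, so `‖ζ z‖ ≤ e^E`;
`‖z - 1‖ ≤ 2 ‖c - 1‖` (`c = pt a t`, `‖c - 1‖ ≥ |t| ≥ 1`), `‖ζ(c)‖ ≥ a/18` (private `low` in `GL/Jen.lean`, copy), so
the growth exponent is `E + log (36/a) ≤ 6 E` (`log (1/a) ≤ E`, `1 ≤ E`).  This gives the formula with the zeros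
`‖c - u‖ < R` and error `6 C E/R^(k+1)`; as `k ≥ 1`, `R ≥ r`: `E/R^(k+1) ≤ (8E/r0) r^(-k) = 8 (rE/r0)/r^(k+1)`.
The zeros with `r ≤ ‖c - u‖ < R`: in the shell `2^j r ≤ ‖c - u‖ < 2^(j+1) r` (only `j` with `2^j r < R`) they are in
`disc (2^(j+2) r) t` (`‖u - (1+it)‖ ≤ ‖c - u‖ + a`), `2^(j+2) r < 4R = r0/2`, so their number with multiplicity is at
most `C (1 + 2^(j+2) r E/r0) ≤ 4 C 2^j (1 + rE/r0)` (`cnt`), each contributes `≤ 1/(2^j r)^(k+1) ≤ 4^(-j)/r^(k+1)`: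
total `≤ 8 C (1 + rE/r0)/r^(k+1)`.  (For the sum over shells: `∑_{u} m_u ‖c-u‖^(-(k+1))`, put `u` in the
shell `j(u) = ⌊log_2 (‖c-u‖/r)⌋`; `Finset.sum_fiberwise_of_maps_to`, `zc_ge`.)  About 200 lines.
-/

set_option autoImplicit false

open Complex

namespace Pool.Agent.H48.LD

open Pool.Agent.H76.CR Pool.Agent.H76.RP Pool.Agent.H76.GL

section

open Pool.Agent.H6 Pool.Agent.H6.Win

/-- size of `∑ n^(-(1+a))` -/
private lemma loc_tsum_le {a : ℝ} (ha : 0 < a) (ha1 : a ≤ 1) :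
    ∑' n : ℕ, 1 / (n : ℝ) ^ (1 + a) ≤ 18 / a := by
  have h5 : riemannZeta ((1 + a : ℝ) : ℂ) = ((∑' n : ℕ, 1 / (n : ℝ) ^ (1 + a) : ℝ) : ℂ) := by
    rw [zeta_eq_tsum_one_div_nat_cpow (by rw [ofReal_re]; linarith), ofReal_tsum]
    congr 1
    funext n
    rw [ofReal_div, ofReal_one, ofReal_cpow (Nat.cast_nonneg n), ofReal_natCast]
  have h4 : (∑' n : ℕ, 1 / (n : ℝ) ^ (1 + a)) = ‖riemannZeta ((1 + a : ℝ) : ℂ)‖ := by
    rw [h5, norm_real, Real.norm_of_nonneg (tsum_nonneg fun n => by positivity)]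
  have h7 := norm_zetaPole_le (s := ((1 + a : ℝ) : ℂ)) (by rw [ofReal_re]; linarith)
  have h8 : zetaPole ((1 + a : ℝ) : ℂ) =
      (((1 + a : ℝ) : ℂ) - 1) * riemannZeta ((1 + a : ℝ) : ℂ) := by
    rw [zetaPole_of_ne]
    intro h
    have : (1 + a : ℝ) = 1 := by exact_mod_cast h
    linarith
  rw [h8, norm_mul] at h7
  have h9 : ‖((1 + a : ℝ) : ℂ) - 1‖ = a := by
    rw [← ofReal_one, ← ofReal_sub, norm_real, Real.norm_of_nonneg (by linarith)]
    ring
  have h10 : ‖((1 + a : ℝ) : ℂ)‖ = 1 + a := by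
    rw [norm_real, Real.norm_of_nonneg (by linarith)]
  rw [h9, h10] at h7
  rw [h4, le_div_iff₀ ha]
  nlinarith

/-- lower bound for `zetaPole` at `c = 1 + a + it` -/
private lemma loc_low {a : ℝ} (ha : 0 < a) (ha1 : a ≤ 1) (t : ℝ) :
    a ≤ ‖pt a t - 1‖ ∧ 1 ≤ 18 / a * ‖riemannZeta (pt a t)‖ ∧
      ‖zetaPole (pt a t)‖ = ‖pt a t - 1‖ * ‖riemannZeta (pt a t)‖ := by
  set K0 : ℝ := ∑' n : ℕ, 1 / (n : ℝ) ^ (1 + a) with hK0
  have hK1 : K0 ≤ 18 / a := loc_tsum_le ha ha1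
  set c : ℂ := pt a t with hc
  have hcre : c.re = 1 + a := by rw [hc, pt]; simp
  have h3 := norm_inv_riemannZeta_le (s := c) (x := 1 + a) (by linarith) (by rw [hcre])
  have hcne : c ≠ 1 := by
    intro h; rw [h] at hcre; simp at hcre; linarith
  have hζ : riemannZeta c ≠ 0 := riemannZeta_ne_zero_of_one_le_re (by rw [hcre]; linarith)
  have h4 : zetaPole c = (c - 1) * riemannZeta c := zetaPole_of_ne hcne
  have h5 : a ≤ ‖c - 1‖ := by
    have := Complex.abs_re_le_norm (c - 1)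
    rw [Complex.sub_re, hcre, Complex.one_re] at this
    have h6 : |1 + a - 1| = a := by rw [add_sub_cancel_left, abs_of_pos ha]
    rw [h6] at this
    exact this
  refine ⟨h5, ?_, by rw [h4, norm_mul]⟩
  rw [norm_inv] at h3
  have hpos : 0 < ‖riemannZeta c‖ := norm_pos_iff.2 hζ
  have h7 : 1 ≤ K0 * ‖riemannZeta c‖ := by
    rw [inv_le_iff_one_le_mul₀ hpos] at h3
    exact h3
  exact h7.trans (mul_le_mul_of_nonneg_right hK1 hpos.le)

end


private lemma loc_ne_one {u : ℂ} (hu : riemannZeta u = 0) : u ≠ 1 := by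
  rintro rfl
  exact riemannZeta_one_ne_zero hu

private lemma loc_pt {r x : ℝ} (hr : 0 < r) (hx : r ≤ x) {N : ℕ} (hN : x < 2 ^ N * r) :
    1 / x ^ 2 ≤ ∑ j ∈ Finset.range N, if x < 2 ^ (j + 1) * r then 1 / (4 ^ j * r ^ 2) else 0 := by
  classical
  have hN0 : N ≠ 0 := by
    rintro rfl
    simp at hN
    linarith
  have hex : ∃ j : ℕ, x < 2 ^ (j + 1) * r := ⟨N - 1, by
    rw [Nat.sub_add_cancel (Nat.one_le_iff_ne_zero.2 hN0)]; exact hN⟩
  have h1 := Nat.find_spec hex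
  have h2 : Nat.find hex ≤ N - 1 := Nat.find_min' hex (by
    rw [Nat.sub_add_cancel (Nat.one_le_iff_ne_zero.2 hN0)]; exact hN)
  have h3 : 2 ^ (Nat.find hex) * r ≤ x := by
    rcases Nat.eq_zero_or_pos (Nat.find hex) with h | h
    · rw [h]; simpa using hx
    · have h4 := Nat.find_min hex (Nat.sub_lt h Nat.one_pos)
      rw [Nat.sub_add_cancel h, not_lt] at h4
      exact h4
  have h5 : (Nat.find hex) ∈ Finset.range N := Finset.mem_range.2 (by omega)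
  have h6 := Finset.single_le_sum (f := fun j : ℕ =>
    if x < 2 ^ (j + 1) * r then 1 / (4 ^ j * r ^ 2) else (0 : ℝ)) (s := Finset.range N)
    (fun j _ => by
      change (0 : ℝ) ≤ if x < 2 ^ (j + 1) * r then 1 / (4 ^ j * r ^ 2) else 0
      split_ifs <;> positivity) h5
  refine le_trans ?_ h6
  change 1 / x ^ 2 ≤ if x < 2 ^ (Nat.find hex + 1) * r then 1 / (4 ^ (Nat.find hex) * r ^ 2) else 0
  rw [if_pos h1]
  have h7 : (4 : ℝ) ^ (Nat.find hex) * r ^ 2 = (2 ^ (Nat.find hex) * r) ^ 2 := by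
    rw [mul_pow, ← pow_mul, mul_comm (Nat.find hex) 2, pow_mul]
    norm_num
  rw [h7]
  apply one_div_le_one_div_of_le (by positivity)
  exact pow_le_pow_left₀ (by positivity) h3 2

private lemma loc_geom (N : ℕ) : ∑ j ∈ Finset.range N, (1 / 2 : ℝ) ^ j ≤ 2 := by
  have h := Summable.sum_le_tsum (f := fun j : ℕ => (1 / 2 : ℝ) ^ j) (Finset.range N)
    (fun j _ => by positivity) summable_geometric_two
  rwa [tsum_geometric_two] at h

open Pool.Agent.H6 Pool.Agent.H6.Win in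
theorem loc : ∃ C : ℝ, 1 ≤ C ∧ ∀ r0 E t a r : ℝ, 0 < r0 → r0 ≤ 1 → 1 + Real.log (1 / r0) ≤ E →
    1 ≤ |t| → Tame r0 E t → 0 < a → 2 * a ≤ r → r ≤ r0 / 16 → Real.log (1 / a) ≤ E →
    ∃ S : Finset ℂ, (∀ u, u ∈ S ↔ riemannZeta u = 0 ∧ ‖pt a t - u‖ < r) ∧
      ∀ k : ℕ, 1 ≤ k → ‖Dk a k t + ∑ u ∈ S, (analyticOrderNatAt riemannZeta u : ℂ) /
        (pt a t - u) ^ (k + 1)‖ ≤ C * (1 + r * E / r0) / r ^ (k + 1) := by
  classical
  obtain ⟨C1, hC1, hG⟩ := Pool.Agent.H52.RK.Dk_localG (η := 1 / 2) (by norm_num)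
  obtain ⟨C2, hC2, hcnt⟩ := cnt
  refine ⟨48 * C1 + 8 * C2, by linarith, ?_⟩
  intro r0 E t a r hr0 hr01 hE ht hT ha har hrr hla
  have hlr : 0 ≤ Real.log (1 / r0) := Real.log_nonneg (by rw [le_div_iff₀ hr0]; linarith)
  have hE1 : 1 ≤ E := by linarith
  have hr : 0 < r := by linarith
  obtain ⟨R, hR⟩ : ∃ R : ℝ, R = r0 / 8 := ⟨_, rfl⟩
  have hR0 : 0 < R := by rw [hR]; positivity
  have hrR : r ≤ R := by rw [hR]; linarith
  obtain ⟨l1, l2, l3⟩ := loc_low ha (by linarith : a ≤ 1) t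
  have hcim : (pt a t - 1).im = t := by rw [pt]; simp
  have hct : 1 ≤ ‖pt a t - 1‖ := by
    have h := Complex.abs_im_le_norm (pt a t - 1)
    rw [hcim] at h
    linarith
  have hcd : ‖pt a t - (1 + t * I)‖ = a := by
    have h : pt a t - (1 + t * I) = (a : ℂ) := by
      rw [pt]
      push_cast
      ring
    rw [h, Complex.norm_real, Real.norm_of_nonneg ha.le]
  have hgrow : ∀ z ∈ Metric.closedBall (pt a t) ((1 + 1 / 2) * R),
      ‖zetaPole z‖ ≤ Real.exp (6 * E) * ‖zetaPole (pt a t)‖ := by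
    intro z hz
    rw [Metric.mem_closedBall, dist_eq_norm] at hz
    have hz1 : ‖z - (1 + t * I)‖ ≤ 7 / 32 * r0 := by
      calc ‖z - (1 + t * I)‖ = ‖(z - pt a t) + (pt a t - (1 + t * I))‖ := by congr 1; ring
        _ ≤ ‖z - pt a t‖ + ‖pt a t - (1 + t * I)‖ := norm_add_le _ _
        _ ≤ (1 + 1 / 2) * R + r0 / 32 := by rw [hcd]; linarith
        _ = 7 / 32 * r0 := by rw [hR]; ring
    have hζ := hT z (by linarith)
    have hzne : z ≠ 1 := by
      intro h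
      rw [h] at hz1
      have h1 := Complex.abs_im_le_norm ((1 : ℂ) - (1 + t * I))
      have h2 : ((1 : ℂ) - (1 + t * I)).im = -t := by simp
      rw [h2, abs_neg] at h1
      linarith
    have hz2 : ‖z - 1‖ ≤ 2 * ‖pt a t - 1‖ := by
      calc ‖z - 1‖ = ‖(z - pt a t) + (pt a t - 1)‖ := by congr 1; ring
        _ ≤ ‖z - pt a t‖ + ‖pt a t - 1‖ := norm_add_le _ _
        _ ≤ (1 + 1 / 2) * R + ‖pt a t - 1‖ := by linarith
        _ ≤ 2 * ‖pt a t - 1‖ := by rw [hR]; linarith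
    have hexpa : Real.exp (Real.log (1 / a)) = 1 / a := Real.exp_log (by positivity)
    have hnum : (36 : ℝ) ≤ Real.exp 4 := by
      have := Real.exp_one_gt_d9
      have h8 : Real.exp 4 = Real.exp 1 ^ 4 := by rw [← Real.exp_nat_mul]; norm_num
      rw [h8]
      calc (36 : ℝ) ≤ 2.7 ^ 4 := by norm_num
        _ ≤ Real.exp 1 ^ 4 := by gcongr; linarith
    have hζ0 : 0 ≤ ‖riemannZeta (pt a t)‖ := norm_nonneg _
    have hc0 : 0 ≤ ‖pt a t - 1‖ := norm_nonneg _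
    rw [zetaPole_of_ne hzne, norm_mul, l3]
    calc ‖z - 1‖ * ‖riemannZeta z‖
        ≤ (2 * ‖pt a t - 1‖) * Real.exp E := by gcongr
      _ = (2 * ‖pt a t - 1‖) * Real.exp E * 1 := by ring
      _ ≤ (2 * ‖pt a t - 1‖) * Real.exp E * (18 / a * ‖riemannZeta (pt a t)‖) := by gcongr
      _ = 36 * Real.exp E * (1 / a) * (‖pt a t - 1‖ * ‖riemannZeta (pt a t)‖) := by
          field_simp
          ring
      _ ≤ Real.exp 4 * Real.exp E * Real.exp (Real.log (1 / a)) *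
          (‖pt a t - 1‖ * ‖riemannZeta (pt a t)‖) := by
          rw [hexpa]
          gcongr
      _ = Real.exp (4 + E + Real.log (1 / a)) * (‖pt a t - 1‖ * ‖riemannZeta (pt a t)‖) := by
          rw [← Real.exp_add, ← Real.exp_add]
      _ ≤ Real.exp (6 * E) * (‖pt a t - 1‖ * ‖riemannZeta (pt a t)‖) := by
          apply mul_le_mul_of_nonneg_right _ (by positivity)
          apply Real.exp_le_exp.2
          linarith
  obtain ⟨S', hS', -, hk'⟩ := hG a R t (6 * E) ha (by linarith) (by linarith) (by linarith) hgrow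
  -- the points of S' are zeros of zeta
  have hne : ∀ u, ‖pt a t - u‖ < R → u ≠ 1 := by
    rintro u hu rfl
    linarith
  have hzero : ∀ u ∈ S', riemannZeta u = 0 := fun u hu =>
    (zetaPole_eq_zero_iff (hne u ((hS' u).1 hu).1)).1 ((hS' u).1 hu).2
  have hord : ∀ u ∈ S', (Pool.Agent.H6.zord u : ℕ) = analyticOrderNatAt riemannZeta u :=
    fun u hu => zord_eq (loc_ne_one (hzero u hu))
  refine ⟨S'.filter (fun u => ‖pt a t - u‖ < r), ?_, ?_⟩
  · intro u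
    rw [Finset.mem_filter, hS']
    constructor
    · rintro ⟨⟨h1, h2⟩, h3⟩
      exact ⟨(zetaPole_eq_zero_iff (hne u h1)).1 h2, h3⟩
    · rintro ⟨h1, h2⟩
      exact ⟨⟨by linarith, (zetaPole_eq_zero_iff (loc_ne_one h1)).2 h1⟩, h2⟩
  intro k hk
  obtain ⟨k', rfl⟩ : ∃ k', k = k' + 1 := ⟨k - 1, by omega⟩
  have hk0 := hk' (k' + 1)
  set c : ℂ := pt a t with hc
  set m : ℂ → ℝ := fun u => (analyticOrderNatAt riemannZeta u : ℝ) with hm
  have hm0 : ∀ u, 0 ≤ m u := fun u => Nat.cast_nonneg _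
  have hsumeq : ∑ u ∈ S', (Pool.Agent.H6.zord u : ℂ) / (c - u) ^ (k' + 1 + 1) =
      ∑ u ∈ S', (analyticOrderNatAt riemannZeta u : ℂ) / (c - u) ^ (k' + 1 + 1) :=
    Finset.sum_congr rfl fun u hu => by rw [hord u hu]
  rw [hsumeq] at hk0
  have hsplit := Finset.sum_filter_add_sum_filter_not S' (fun u => ‖c - u‖ < r)
    (fun u => (analyticOrderNatAt riemannZeta u : ℂ) / (c - u) ^ (k' + 1 + 1))
  have hdec : Dk a (k' + 1) t + ∑ u ∈ S'.filter (fun u => ‖c - u‖ < r),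
      (analyticOrderNatAt riemannZeta u : ℂ) / (c - u) ^ (k' + 1 + 1) =
      (Dk a (k' + 1) t + ∑ u ∈ S', (analyticOrderNatAt riemannZeta u : ℂ) /
        (c - u) ^ (k' + 1 + 1)) - ∑ u ∈ S'.filter (fun u => ¬ ‖c - u‖ < r),
      (analyticOrderNatAt riemannZeta u : ℂ) / (c - u) ^ (k' + 1 + 1) := by
    rw [← hsplit]; ring
  rw [hdec]
  refine (norm_sub_le _ _).trans ?_
  -- the far zeros
  set T : Finset ℂ := S'.filter (fun u => ¬ ‖c - u‖ < r) with hTdef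
  have hTr : ∀ u ∈ T, r ≤ ‖c - u‖ ∧ ‖c - u‖ < R ∧ riemannZeta u = 0 := by
    intro u hu
    rw [hTdef, Finset.mem_filter] at hu
    exact ⟨not_lt.1 hu.2, ((hS' u).1 hu.1).1, hzero u hu.1⟩
  obtain ⟨N, hN1, hN2⟩ : ∃ N : ℕ, R ≤ 2 ^ N * r ∧ ∀ j < N, 2 ^ j * r < R := by
    have hex : ∃ N : ℕ, R ≤ 2 ^ N * r := by
      obtain ⟨N, hN⟩ := pow_unbounded_of_one_lt (R / r) (one_lt_two (α := ℝ))
      exact ⟨N, by rw [div_lt_iff₀ hr] at hN; exact hN.le⟩
    exact ⟨Nat.find hex, Nat.find_spec hex, fun j hj => not_le.1 (Nat.find_min hex hj)⟩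
  have hshell : ∀ j ∈ Finset.range N, ∑ u ∈ T, (if ‖c - u‖ < 2 ^ (j + 1) * r then m u else 0) ≤
      4 * 2 ^ j * C2 * (1 + r * E / r0) := by
    intro j hj
    have hj' := hN2 j (Finset.mem_range.1 hj)
    have h2j : (0 : ℝ) < 2 ^ j := by positivity
    have h2j1 : (1 : ℝ) ≤ 2 ^ j := one_le_pow₀ (by norm_num)
    have hρ : 4 * (2 ^ j * r) ≤ r0 / 2 := by rw [hR] at hj'; linarith
    have hρ1 : 4 * (2 ^ j * r) ≤ 1 := by linarith
    rw [← Finset.sum_filter]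
    have h1 := zc_ge hρ1 t (T.filter fun u => ‖c - u‖ < 2 ^ (j + 1) * r) (by
      intro u hu
      rw [Finset.mem_filter] at hu
      refine ⟨(hTr u hu.1).2.2, ?_⟩
      have h3 : ‖u - (1 + t * I)‖ ≤ ‖c - u‖ + a := by
        calc ‖u - (1 + t * I)‖ = ‖(c - (1 + t * I)) - (c - u)‖ := by congr 1; ring
          _ ≤ ‖c - (1 + t * I)‖ + ‖c - u‖ := norm_sub_le _ _
          _ = ‖c - u‖ + a := by rw [hcd]; ring
      have h4 := hu.2
      rw [pow_succ] at h4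
      nlinarith)
    have h2 : ∑ u ∈ T.filter (fun u => ‖c - u‖ < 2 ^ (j + 1) * r), m u ≤
        (zc (4 * (2 ^ j * r)) t : ℝ) := by
      have h := (Nat.cast_le (α := ℝ)).2 h1
      rw [Nat.cast_sum] at h
      exact h
    refine h2.trans ((hcnt r0 E t (4 * (2 ^ j * r)) hr0 hr01 hE ht hT (by positivity) hρ).trans ?_)
    have h5 : 0 ≤ r * E / r0 := by positivity
    have h6 : 4 * (2 ^ j * r) * E / r0 = 4 * 2 ^ j * (r * E / r0) := by ring
    rw [h6]
    have h7 : 1 + 4 * 2 ^ j * (r * E / r0) ≤ 4 * 2 ^ j * (1 + r * E / r0) := by nlinarith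
    calc C2 * (1 + 4 * 2 ^ j * (r * E / r0)) ≤ C2 * (4 * 2 ^ j * (1 + r * E / r0)) :=
          mul_le_mul_of_nonneg_left h7 (by linarith)
      _ = _ := by ring
  have hX : 0 ≤ 1 + r * E / r0 := by positivity
  have hsq : ∑ u ∈ T, m u * (1 / ‖c - u‖ ^ 2) ≤ 8 * C2 * (1 + r * E / r0) / r ^ 2 := by
    calc ∑ u ∈ T, m u * (1 / ‖c - u‖ ^ 2)
        ≤ ∑ u ∈ T, m u * ∑ j ∈ Finset.range N,
            (if ‖c - u‖ < 2 ^ (j + 1) * r then 1 / (4 ^ j * r ^ 2) else 0) := by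
          refine Finset.sum_le_sum fun u hu => ?_
          obtain ⟨g1, g2, -⟩ := hTr u hu
          exact mul_le_mul_of_nonneg_left (loc_pt hr g1 (by linarith)) (hm0 u)
      _ = ∑ j ∈ Finset.range N, 1 / (4 ^ j * r ^ 2) *
            ∑ u ∈ T, (if ‖c - u‖ < 2 ^ (j + 1) * r then m u else 0) := by
          simp_rw [Finset.mul_sum]
          rw [Finset.sum_comm]
          refine Finset.sum_congr rfl fun j _ => Finset.sum_congr rfl fun u _ => ?_
          split_ifs <;> ring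
      _ ≤ ∑ j ∈ Finset.range N, 1 / (4 ^ j * r ^ 2) * (4 * 2 ^ j * C2 * (1 + r * E / r0)) := by
          refine Finset.sum_le_sum fun j hj => ?_
          exact mul_le_mul_of_nonneg_left (hshell j hj) (by positivity)
      _ = ∑ j ∈ Finset.range N, (4 * C2 * (1 + r * E / r0) / r ^ 2) * (1 / 2) ^ j := by
          refine Finset.sum_congr rfl fun j _ => ?_
          have h1 : (4 : ℝ) ^ j = 2 ^ j * 2 ^ j := by rw [← mul_pow]; norm_num
          rw [h1, div_pow, one_pow]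
          field_simp
      _ = (4 * C2 * (1 + r * E / r0) / r ^ 2) * ∑ j ∈ Finset.range N, (1 / 2 : ℝ) ^ j := by
          rw [Finset.mul_sum]
      _ ≤ (4 * C2 * (1 + r * E / r0) / r ^ 2) * 2 :=
          mul_le_mul_of_nonneg_left (loc_geom N) (by positivity)
      _ = _ := by ring
  have hfar : ‖∑ u ∈ T, (analyticOrderNatAt riemannZeta u : ℂ) / (c - u) ^ (k' + 1 + 1)‖ ≤
      8 * C2 * (1 + r * E / r0) / r ^ (k' + 1 + 1) := by
    calc ‖∑ u ∈ T, (analyticOrderNatAt riemannZeta u : ℂ) / (c - u) ^ (k' + 1 + 1)‖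
        ≤ ∑ u ∈ T, (1 / r ^ k') * (m u * (1 / ‖c - u‖ ^ 2)) := by
          refine norm_sum_le_of_le _ fun u hu => ?_
          obtain ⟨g1, g2, -⟩ := hTr u hu
          have hx0 : 0 < ‖c - u‖ := by linarith
          rw [norm_div, norm_pow, Complex.norm_natCast]
          have h1 : r ^ k' * ‖c - u‖ ^ 2 ≤ ‖c - u‖ ^ (k' + 1 + 1) := by
            have h2 : ‖c - u‖ ^ (k' + 1 + 1) = ‖c - u‖ ^ k' * ‖c - u‖ ^ 2 := by ring
            rw [h2]
            exact mul_le_mul_of_nonneg_right (pow_le_pow_left₀ hr.le g1 k') (by positivity)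
          calc (analyticOrderNatAt riemannZeta u : ℝ) / ‖c - u‖ ^ (k' + 1 + 1)
              ≤ (analyticOrderNatAt riemannZeta u : ℝ) / (r ^ k' * ‖c - u‖ ^ 2) :=
                div_le_div_of_nonneg_left (hm0 u) (by positivity) h1
            _ = (1 / r ^ k') * (m u * (1 / ‖c - u‖ ^ 2)) := by
                rw [hm]
                field_simp
      _ = (1 / r ^ k') * ∑ u ∈ T, m u * (1 / ‖c - u‖ ^ 2) := by rw [Finset.mul_sum]
      _ ≤ (1 / r ^ k') * (8 * C2 * (1 + r * E / r0) / r ^ 2) :=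
          mul_le_mul_of_nonneg_left hsq (by positivity)
      _ = _ := by
          rw [show r ^ (k' + 1 + 1) = r ^ k' * r ^ 2 by ring]
          field_simp
  have hnear : C1 * (6 * E) / R ^ (k' + 1 + 1) ≤ 48 * C1 * (r * E / r0) / r ^ (k' + 1 + 1) := by
    have h1 : R * r ^ (k' + 1) ≤ R ^ (k' + 1 + 1) := by
      have h2 : R ^ (k' + 1 + 1) = R * R ^ (k' + 1) := by ring
      rw [h2]
      exact mul_le_mul_of_nonneg_left (pow_le_pow_left₀ hr.le hrR _) hR0.le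
    calc C1 * (6 * E) / R ^ (k' + 1 + 1) ≤ C1 * (6 * E) / (R * r ^ (k' + 1)) :=
          div_le_div_of_nonneg_left (by positivity) (by positivity) h1
      _ = 48 * C1 * (r * E / r0) / r ^ (k' + 1 + 1) := by
          rw [hR, show r ^ (k' + 1 + 1) = r * r ^ (k' + 1) by ring]
          field_simp
          ring
  have hP : 0 < r ^ (k' + 1 + 1) := by positivity
  have h5 : 0 ≤ r * E / r0 := by positivity
  calc _ ≤ 48 * C1 * (r * E / r0) / r ^ (k' + 1 + 1) +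
        8 * C2 * (1 + r * E / r0) / r ^ (k' + 1 + 1) := add_le_add (hk0.trans hnear) hfar
    _ = (48 * C1 * (r * E / r0) + 8 * C2 * (1 + r * E / r0)) / r ^ (k' + 1 + 1) := by ring
    _ ≤ (48 * C1 + 8 * C2) * (1 + r * E / r0) / r ^ (k' + 1 + 1) := by
        apply div_le_div_of_nonneg_right _ hP.le
        nlinarith

end Pool.Agent.H48.LD
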