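import Mathlib
import Pool.Agent.H76.CR.Poly
import Pool.Agent.H48.LD.Loc

/-!
# Det: detection of a zero, without logarithm (Turan's method)

PROOF (compare `H76/SV/DetectV.lean`).  `γ = ρ.im`, `c = pt x γ`, `λ = xE/r0 ≥ 1`, `R = x + 1 - ρ.re`, `x < R ≤ 2x`
(`ρ.re < 1`), `c - ρ = R`.  `loc` with `a = x`, `r = 16 x` (`≤ r0/16` from `C x ≤ r0`), set `S`, error
`C2 (1 + 16 λ)/r^(k+1) ≤ 17 C2 λ/r^(k+1)`.  `S ⊆ disc (17 x) γ`, so `n = S.card ≤ zc (17x) γ ≤ C1 (1 + 17 λ) ≤ 18 C1 λ`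
(`cnt`, `zc_ge`, `ord_pos`).  `w u = R/(c - u)`, `‖w u‖ ≤ 2` (`‖c - u‖ ≥ x` since `re u < 1`), injective on `S`,
`W = S.image w`, `w ρ = 1`.  `exists_poly` (`H76/CR/Poly.lean`) with `κ = 1/2`: `c_j`, `∑ ‖c_j‖ ≤ 320^n 2^(k0+1)`.
`∑_j c_j R^(k0+1+j) D_{k0+j} = - ∑_u m_u (∑_j c_j (w u)^(k0+1+j)) + E'`; the double sum is a real number `≥ 1` (each
inner sum is `0` or `1`, and `1` for `u = ρ`), `‖E'‖ ≤ 320^n 2^(k0+1) 17 C2 λ 8^(-(k0+1)) ≤ 1/2` for `k0 ≥ C λ`
(`320^n ≤ exp(k0/10)`, `17 C2 λ ≤ exp(k0/10)`).  So some `j < n` has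
`R^(k+1) ‖D_k‖ ≥ (1/2) exp(-k0/10) 2^(-(k0+1))`, `k = k0 + j ≤ (11/10) k0`, and `x ≥ R/2`:
`x^(k+1) ‖D_k‖ ≥ 2^(-(k+1)) (1/2) exp(-k0/10) 2^(-(k0+1)) ≥ exp(-5 k0)`.  About 200 lines.
-/

set_option autoImplicit false

open Complex

namespace Pool.Agent.H48.LD

open Pool.Agent.H76.CR Pool.Agent.H76.RP Pool.Agent.H76.GL

theorem det : ∃ C : ℝ, 1 ≤ C ∧ ∀ (r0 E x : ℝ) (ρ : ℂ) (k0 : ℕ), 0 < r0 → r0 ≤ 1 →
    1 + Real.log (1 / r0) ≤ E → 1 ≤ |ρ.im| → Tame r0 E ρ.im → 0 < x → C * x ≤ r0 →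
    Real.log (1 / x) ≤ E → riemannZeta ρ = 0 → 1 - x ≤ ρ.re → 1 ≤ x * E / r0 →
    C * (x * E / r0) ≤ k0 →
    ∃ k : ℕ, k0 ≤ k ∧ k ≤ 2 * k0 ∧ Real.exp (-(5 * k0)) ≤ x ^ (k + 1) * ‖Dk x k ρ.im‖ := by
  classical
  obtain ⟨C1, hC1, hcnt⟩ := cnt
  obtain ⟨C2, hC2, hloc⟩ := loc
  have hlog2 : Real.log 2 ≤ 0.6931471808 := Real.log_two_lt_d9.le
  have hlog2' : 0.6931471803 ≤ Real.log 2 := Real.log_two_gt_d9.le
  refine ⟨256 + 1080 * C1 + 170 * C2, by linarith, ?_⟩
  intro r0 E x ρ k0 hr0 hr01 hE hγ hTame hx hCx hEx hρ hβ hlam hk0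
  obtain ⟨β, hβd⟩ : ∃ β, β = ρ.re := ⟨_, rfl⟩
  obtain ⟨γ, hγd⟩ : ∃ γ, γ = ρ.im := ⟨_, rfl⟩
  obtain ⟨lam, hlamd⟩ : ∃ lam, lam = x * E / r0 := ⟨_, rfl⟩
  rw [← hlamd] at hlam hk0
  rw [← hβd] at hβ
  rw [← hγd] at hγ hTame ⊢
  have hβ1 : β < 1 := by rw [hβd]; exact re_lt_one hρ
  have hx256 : 256 * x ≤ r0 := by
    refine le_trans (mul_le_mul_of_nonneg_right ?_ hx.le) hCx
    linarith
  have hk00 : (256 + 1080 * C1 + 170 * C2) ≤ (k0 : ℝ) := by nlinarith
  have hk01 : 1080 * C1 * lam ≤ (k0 : ℝ) := by nlinarith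
  have hk02 : 170 * C2 * lam ≤ (k0 : ℝ) := by nlinarith
  have hk1 : (1 : ℝ) ≤ k0 := by linarith
  have hk1n : 1 ≤ k0 := by exact_mod_cast hk1
  obtain ⟨R, hR⟩ : ∃ R, R = x + 1 - β := ⟨_, rfl⟩
  have hRa : x < R := by rw [hR]; linarith
  have hR0 : 0 < R := by linarith
  have hR2a : R ≤ 2 * x := by rw [hR]; linarith
  obtain ⟨S, hS, hT⟩ := hloc r0 E γ x (16 * x) hr0 hr01 hE hγ hTame hx (by linarith)
    (by linarith) hEx
  obtain ⟨s0, hs0⟩ : ∃ s0, s0 = pt x γ := ⟨_, rfl⟩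
  rw [← hs0] at hS hT
  have hs0re : s0.re = 1 + x := by simp [hs0, pt]
  have hs0im : s0.im = γ := by simp [hs0, pt]
  have hs0ρ : s0 - ρ = (R : ℂ) := by
    apply Complex.ext
    · rw [sub_re, hs0re, ofReal_re, ← hβd, hR]
      ring
    · rw [sub_im, hs0im, ofReal_im, ← hγd, sub_self]
  have hzero : ∀ u ∈ S, riemannZeta u = 0 := fun u hu => ((hS u).1 hu).1
  have hnorm : ∀ u ∈ S, x < ‖s0 - u‖ := by
    intro u hu
    have h1 : (s0 - u).re ≤ ‖s0 - u‖ := re_le_norm _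
    have h2 := re_lt_one (hzero u hu)
    rw [sub_re, hs0re] at h1
    linarith
  have hsub0 : ∀ u ∈ S, s0 - u ≠ 0 := by
    intro u hu h
    have := hnorm u hu
    rw [h, norm_zero] at this
    linarith
  -- the number of zeros
  have hn18 : (S.card : ℝ) ≤ 18 * C1 * lam := by
    have h1 : S.card ≤ zc (17 * x) γ := by
      refine le_trans ?_ (zc_ge (by linarith) γ S fun u hu => ⟨hzero u hu, ?_⟩)
      · rw [Finset.card_eq_sum_ones]
        exact Finset.sum_le_sum fun u hu => ord_pos (hzero u hu)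
      · have h2 : u - (1 + γ * I) = -(s0 - u) + (s0 - (1 + γ * I)) := by ring
        have h3 : s0 - (1 + γ * I) = (x : ℂ) := by
          rw [hs0]
          unfold pt
          push_cast
          ring
        rw [h2, h3]
        refine lt_of_le_of_lt (norm_add_le _ _) ?_
        rw [norm_neg, norm_real, Real.norm_eq_abs, abs_of_pos hx]
        have h4 := ((hS u).1 hu).2
        linarith
    have h2 := hcnt r0 E γ (17 * x) hr0 hr01 hE hγ hTame (by linarith) (by linarith)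
    have h3 : (S.card : ℝ) ≤ (zc (17 * x) γ : ℝ) := by exact_mod_cast h1
    have h4 : 17 * x * E / r0 = 17 * lam := by
      rw [hlamd]
      ring
    rw [h4] at h2
    have h5 : C1 * (1 + 17 * lam) ≤ 18 * C1 * lam := by nlinarith
    linarith
  have hlam0 : 0 ≤ C1 * lam := by nlinarith
  have hnk : (S.card : ℝ) ≤ k0 := by linarith
  have hn6 : 6 * (S.card : ℝ) ≤ k0 / 10 := by linarith
  -- the points `w u`
  let w : ℂ → ℂ := fun u => (R : ℂ) / (s0 - u)
  have hRc : (R : ℂ) ≠ 0 := ofReal_ne_zero.2 hR0.ne'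
  have hwinj : Set.InjOn w S := by
    intro u hu v hv huv
    have h1 := hsub0 u hu
    have h2 := hsub0 v hv
    have h3 : (R : ℂ) / (s0 - u) = (R : ℂ) / (s0 - v) := huv
    rw [div_eq_div_iff h1 h2] at h3
    have h4 := mul_left_cancel₀ hRc h3
    have h5 : s0 - (s0 - v) = s0 - (s0 - u) := by rw [h4]
    rw [sub_sub_cancel, sub_sub_cancel] at h5
    exact h5.symm
  have hWcard : (S.image w).card = S.card := Finset.card_image_of_injOn hwinj
  have hρS : ρ ∈ S := by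
    refine (hS ρ).2 ⟨hρ, ?_⟩
    rw [hs0ρ, norm_real, Real.norm_eq_abs, abs_of_pos hR0]
    linarith
  have hwρ : w ρ = 1 := by
    show (R : ℂ) / (s0 - ρ) = 1
    rw [hs0ρ, div_self hRc]
  have h1W : (1 : ℂ) ∈ S.image w := Finset.mem_image.2 ⟨ρ, hρS, hwρ⟩
  have hW2 : ∀ y ∈ S.image w, ‖y‖ ≤ 2 := by
    intro y hy
    obtain ⟨u, hu, rfl⟩ := Finset.mem_image.1 hy
    show ‖(R : ℂ) / (s0 - u)‖ ≤ 2
    rw [norm_div, norm_real, Real.norm_eq_abs, abs_of_pos hR0,
      div_le_iff₀ (by linarith [hnorm u hu])]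
    linarith [hnorm u hu]
  obtain ⟨c, hcb, hc1, hcw⟩ := exists_poly (κ := 1 / 2) (by norm_num) le_rfl (S.image w) h1W hW2 k0
  rw [hWcard] at hcb hc1 hcw
  -- bound for the coefficients
  have h320 : ∀ n : ℕ, 6 * (n : ℝ) ≤ k0 / 10 → (320 : ℝ) ^ n ≤ Real.exp (k0 / 10) := by
    intro n hn
    have h1 : (320 : ℝ) ≤ Real.exp 6 := by
      have h2 : Real.exp 6 = Real.exp 1 ^ 6 := by
        rw [← Real.exp_nat_mul]
        norm_num
      rw [h2]
      have h3 := Real.exp_one_gt_d9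
      calc (320 : ℝ) ≤ 2.7182818283 ^ 6 := by norm_num
        _ ≤ Real.exp 1 ^ 6 := pow_le_pow_left₀ (by norm_num) h3.le 6
    calc (320 : ℝ) ^ n ≤ Real.exp 6 ^ n := pow_le_pow_left₀ (by norm_num) h1 n
      _ = Real.exp (6 * n) := by
          rw [← Real.exp_nat_mul, mul_comm]
      _ ≤ _ := Real.exp_le_exp.2 hn
  have h2pow : ∀ n : ℕ, (2 : ℝ) ^ n ≤ Real.exp (n * 0.6931471808) := by
    intro n
    have h1 : (2 : ℝ) ^ n = Real.exp (n * Real.log 2) := by
      rw [Real.exp_nat_mul, Real.exp_log (by norm_num)]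
    rw [h1]
    exact Real.exp_le_exp.2 (mul_le_mul_of_nonneg_left hlog2 (Nat.cast_nonneg n))
  have hcexp : ∑ j ∈ Finset.range S.card, ‖c j‖ ≤ Real.exp (k0 / 10) * 2 ^ (k0 + 1) := by
    refine hcb.trans ?_
    have e1 : (160 / (1 / 2) : ℝ) = 320 := by norm_num
    have e2 : ((1 - 1 / 2 : ℝ) ^ (k0 + 1))⁻¹ = 2 ^ (k0 + 1) := by
      rw [← inv_pow]
      norm_num
    rw [e1, e2]
    exact mul_le_mul_of_nonneg_right (h320 _ hn6) (by positivity)
  -- the identity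
  have hmain : (1 : ℝ) / 2 ≤ ∑ j ∈ Finset.range S.card,
      ‖c j‖ * (R ^ (k0 + j + 1) * ‖Dk x (k0 + j) γ‖) := by
    have hid : ∑ j ∈ Finset.range S.card, c j * (R : ℂ) ^ (k0 + j + 1) * Dk x (k0 + j) γ =
        ∑ j ∈ Finset.range S.card, c j * (R : ℂ) ^ (k0 + j + 1) *
          (Dk x (k0 + j) γ + ∑ u ∈ S, (analyticOrderNatAt riemannZeta u : ℂ) /
            (s0 - u) ^ (k0 + j + 1)) -
        ∑ u ∈ S, (analyticOrderNatAt riemannZeta u : ℂ) *
          ∑ j ∈ Finset.range S.card, c j * w u ^ (k0 + 1 + j) := by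
      have h1 : ∑ u ∈ S, (analyticOrderNatAt riemannZeta u : ℂ) *
          ∑ j ∈ Finset.range S.card, c j * w u ^ (k0 + 1 + j) =
          ∑ j ∈ Finset.range S.card, c j * (R : ℂ) ^ (k0 + j + 1) *
            ∑ u ∈ S, (analyticOrderNatAt riemannZeta u : ℂ) / (s0 - u) ^ (k0 + j + 1) := by
        simp only [Finset.mul_sum]
        rw [Finset.sum_comm]
        refine Finset.sum_congr rfl fun j _ => Finset.sum_congr rfl fun u _ => ?_
        show (analyticOrderNatAt riemannZeta u : ℂ) *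
          (c j * ((R : ℂ) / (s0 - u)) ^ (k0 + 1 + j)) = _
        rw [show k0 + 1 + j = k0 + j + 1 by omega, div_pow]
        ring
      rw [h1, ← Finset.sum_sub_distrib]
      refine Finset.sum_congr rfl fun j _ => ?_
      ring
    have hZ : 1 ≤ ‖∑ u ∈ S, (analyticOrderNatAt riemannZeta u : ℂ) *
        ∑ j ∈ Finset.range S.card, c j * w u ^ (k0 + 1 + j)‖ := by
      refine le_trans ?_ (re_le_norm _)
      rw [re_sum]
      have hterm : ∀ u ∈ S, 0 ≤ ((analyticOrderNatAt riemannZeta u : ℂ) *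
          ∑ j ∈ Finset.range S.card, c j * w u ^ (k0 + 1 + j)).re := by
        intro u hu
        rcases hcw (w u) (Finset.mem_image_of_mem w hu) with h | h
        · rw [h, mul_one, natCast_re]
          exact Nat.cast_nonneg _
        · rw [h, mul_zero, zero_re]
      refine le_trans ?_ (Finset.single_le_sum hterm hρS)
      have h2 : ∑ j ∈ Finset.range S.card, c j * w ρ ^ (k0 + 1 + j) = 1 := by
        rw [hwρ]
        simp only [one_pow, mul_one]
        exact hc1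
      rw [h2, mul_one, natCast_re]
      exact_mod_cast ord_pos hρ
    have hE : ‖∑ j ∈ Finset.range S.card, c j * (R : ℂ) ^ (k0 + j + 1) *
          (Dk x (k0 + j) γ + ∑ u ∈ S, (analyticOrderNatAt riemannZeta u : ℂ) /
            (s0 - u) ^ (k0 + j + 1))‖ ≤ 1 / 2 := by
      have h1 : ∀ j ∈ Finset.range S.card, ‖c j * (R : ℂ) ^ (k0 + j + 1) *
          (Dk x (k0 + j) γ + ∑ u ∈ S, (analyticOrderNatAt riemannZeta u : ℂ) /
            (s0 - u) ^ (k0 + j + 1))‖ ≤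
          ‖c j‖ * (17 * C2 * lam * (8 ^ (k0 + 1))⁻¹) := by
        intro j _
        rw [norm_mul, norm_mul, norm_pow, norm_real, Real.norm_eq_abs, abs_of_pos hR0, mul_assoc]
        refine mul_le_mul_of_nonneg_left ?_ (norm_nonneg _)
        have h2 := hT (k0 + j) (by omega)
        have h4 : 16 * x * E / r0 = 16 * lam := by
          rw [hlamd]
          ring
        rw [h4] at h2
        have h5 : C2 * (1 + 16 * lam) ≤ 17 * C2 * lam := by nlinarith
        have hx1 : x ^ (k0 + j + 1) ≠ 0 := by positivity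
        calc R ^ (k0 + j + 1) * ‖Dk x (k0 + j) γ + ∑ u ∈ S,
              (analyticOrderNatAt riemannZeta u : ℂ) / (s0 - u) ^ (k0 + j + 1)‖
            ≤ (2 * x) ^ (k0 + j + 1) * (C2 * (1 + 16 * lam) / (16 * x) ^ (k0 + j + 1)) :=
              mul_le_mul (pow_le_pow_left₀ hR0.le hR2a _) h2 (norm_nonneg _) (by positivity)
          _ = C2 * (1 + 16 * lam) * (8 ^ (k0 + j + 1))⁻¹ := by
              have e1 : (16 * x) ^ (k0 + j + 1) = 8 ^ (k0 + j + 1) * (2 * x) ^ (k0 + j + 1) := by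
                rw [← mul_pow]
                ring
              rw [e1]
              have h6 : (2 * x) ^ (k0 + j + 1) ≠ 0 := by positivity
              field_simp
          _ ≤ 17 * C2 * lam * (8 ^ (k0 + 1))⁻¹ := by
              refine mul_le_mul h5 ?_ (by positivity) (by nlinarith)
              refine inv_anti₀ (by positivity) ?_
              exact pow_le_pow_right₀ (by norm_num) (by omega)
      refine (norm_sum_le _ _).trans ((Finset.sum_le_sum h1).trans ?_)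
      rw [← Finset.sum_mul]
      have h5 : (∑ j ∈ Finset.range S.card, ‖c j‖) * (17 * C2 * lam * (8 ^ (k0 + 1))⁻¹) ≤
          Real.exp (k0 / 10) * 2 ^ (k0 + 1) * (17 * C2 * lam * (8 ^ (k0 + 1))⁻¹) :=
        mul_le_mul_of_nonneg_right hcexp (by
          have : 0 ≤ C2 * lam := by nlinarith
          positivity)
      refine h5.trans ?_
      have h6 : 17 * C2 * lam ≤ Real.exp (k0 / 10) := by
        have h7 := Real.add_one_le_exp ((k0 : ℝ) / 10)
        linarith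
      have h8 : (2 : ℝ) ^ (k0 + 1) * (8 ^ (k0 + 1))⁻¹ = ((2 : ℝ) ^ (k0 + 1))⁻¹ *
          ((2 : ℝ) ^ (k0 + 1))⁻¹ := by
        have e1 : (8 : ℝ) ^ (k0 + 1) = 2 ^ (k0 + 1) * 2 ^ (k0 + 1) * 2 ^ (k0 + 1) := by
          rw [← mul_pow, ← mul_pow]
          norm_num
        rw [e1]
        have h9 : (2 : ℝ) ^ (k0 + 1) ≠ 0 := by positivity
        field_simp
      have h10 : ((2 : ℝ) ^ (k0 + 1))⁻¹ = Real.exp (-((k0 + 1) * Real.log 2)) := by
        rw [Real.exp_neg]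
        congr 1
        have h11 := Real.exp_nat_mul (Real.log 2) (k0 + 1)
        rw [Real.exp_log (by norm_num)] at h11
        rw [← h11]
        push_cast
        rfl
      calc Real.exp (k0 / 10) * 2 ^ (k0 + 1) * (17 * C2 * lam * (8 ^ (k0 + 1))⁻¹)
          = Real.exp (k0 / 10) * (17 * C2 * lam) * (2 ^ (k0 + 1) * (8 ^ (k0 + 1))⁻¹) := by ring
        _ ≤ Real.exp (k0 / 10) * Real.exp (k0 / 10) * (2 ^ (k0 + 1) * (8 ^ (k0 + 1))⁻¹) := by
            refine mul_le_mul_of_nonneg_right ?_ (by positivity)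
            exact mul_le_mul_of_nonneg_left h6 (Real.exp_nonneg _)
        _ = Real.exp (k0 / 10 + k0 / 10 + (-((k0 + 1) * Real.log 2) +
              -((k0 + 1) * Real.log 2))) := by
            rw [h8, h10, Real.exp_add, Real.exp_add, Real.exp_add]
        _ ≤ Real.exp (-1) := by
            refine Real.exp_le_exp.2 ?_
            nlinarith
        _ ≤ 1 / 2 := by
            rw [Real.exp_neg, one_div]
            refine inv_anti₀ (by norm_num) ?_
            have := Real.exp_one_gt_d9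
            linarith
    have hlow : (1 : ℝ) / 2 ≤
        ‖∑ j ∈ Finset.range S.card, c j * (R : ℂ) ^ (k0 + j + 1) * Dk x (k0 + j) γ‖ := by
      rw [hid]
      have h1 := norm_sub_norm_le
        (∑ u ∈ S, (analyticOrderNatAt riemannZeta u : ℂ) *
          ∑ j ∈ Finset.range S.card, c j * w u ^ (k0 + 1 + j))
        (∑ j ∈ Finset.range S.card, c j * (R : ℂ) ^ (k0 + j + 1) *
          (Dk x (k0 + j) γ + ∑ u ∈ S, (analyticOrderNatAt riemannZeta u : ℂ) /
            (s0 - u) ^ (k0 + j + 1)))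
      rw [norm_sub_rev] at h1
      linarith
    refine hlow.trans ((norm_sum_le _ _).trans (le_of_eq ?_))
    refine Finset.sum_congr rfl fun j _ => ?_
    rw [norm_mul, norm_mul, norm_pow, norm_real, Real.norm_eq_abs, abs_of_pos hR0, mul_assoc]
  -- conclusion
  by_contra hcon
  push Not at hcon
  have hbad : ∀ j ∈ Finset.range S.card, R ^ (k0 + j + 1) * ‖Dk x (k0 + j) γ‖ ≤
      2 ^ S.card * 2 ^ (k0 + 1) * Real.exp (-(5 * k0)) := by
    intro j hj
    have hj1 : j < S.card := Finset.mem_range.1 hj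
    have hj2 : S.card ≤ k0 := by exact_mod_cast hnk
    have h1 := (hcon (k0 + j) (Nat.le_add_right _ _) (by omega)).le
    calc R ^ (k0 + j + 1) * ‖Dk x (k0 + j) γ‖
        ≤ (2 * x) ^ (k0 + j + 1) * ‖Dk x (k0 + j) γ‖ :=
          mul_le_mul_of_nonneg_right (pow_le_pow_left₀ hR0.le hR2a _) (norm_nonneg _)
      _ = 2 ^ (k0 + j + 1) * (x ^ (k0 + j + 1) * ‖Dk x (k0 + j) γ‖) := by
          rw [mul_pow, mul_assoc]
      _ ≤ 2 ^ (S.card + (k0 + 1)) * Real.exp (-(5 * k0)) := by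
          refine mul_le_mul ?_ h1 (by positivity) (by positivity)
          exact pow_le_pow_right₀ (by norm_num) (by omega)
      _ = _ := by rw [pow_add]
  have hup : ∑ j ∈ Finset.range S.card, ‖c j‖ * (R ^ (k0 + j + 1) * ‖Dk x (k0 + j) γ‖) ≤
      Real.exp (k0 / 10) * 2 ^ (k0 + 1) * (2 ^ S.card * 2 ^ (k0 + 1) * Real.exp (-(5 * k0))) := by
    refine (Finset.sum_le_sum fun j hj =>
      mul_le_mul_of_nonneg_left (hbad j hj) (norm_nonneg _)).trans ?_
    rw [← Finset.sum_mul]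
    exact mul_le_mul_of_nonneg_right hcexp (by positivity)
  have h2n : (2 : ℝ) ^ S.card ≤ Real.exp (k0 / 10) :=
    (pow_le_pow_left₀ (by norm_num) (by norm_num) _).trans (h320 _ hn6)
  have h2k := h2pow (k0 + 1)
  have hfin : Real.exp (k0 / 10) * 2 ^ (k0 + 1) *
      (2 ^ S.card * 2 ^ (k0 + 1) * Real.exp (-(5 * k0))) ≤ Real.exp (-1) := by
    calc Real.exp (k0 / 10) * 2 ^ (k0 + 1) *
          (2 ^ S.card * 2 ^ (k0 + 1) * Real.exp (-(5 * k0)))
        ≤ Real.exp (k0 / 10) * Real.exp (((k0 + 1 : ℕ) : ℝ) * 0.6931471808) *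
          (Real.exp (k0 / 10) * Real.exp (((k0 + 1 : ℕ) : ℝ) * 0.6931471808) *
            Real.exp (-(5 * k0))) := by
          gcongr
      _ = Real.exp (k0 / 10 + ((k0 + 1 : ℕ) : ℝ) * 0.6931471808 +
          (k0 / 10 + ((k0 + 1 : ℕ) : ℝ) * 0.6931471808 + -(5 * k0))) := by
          rw [Real.exp_add, Real.exp_add, Real.exp_add, Real.exp_add]
      _ ≤ Real.exp (-1) := by
          refine Real.exp_le_exp.2 ?_
          push_cast
          linarith
  have hlast : Real.exp (-1) < 1 / 2 := by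
    rw [Real.exp_neg, inv_lt_comm₀ (Real.exp_pos _) (by norm_num)]
    have := Real.exp_one_gt_d9
    norm_num
    linarith
  linarith

end Pool.Agent.H48.LD
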