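import Mathlib
import Pool.Agent.H76.CR.Defs

/-!
# Pw: prime powers are negligible

PROOF.  `Λ(n) ≠ 0`, `n` not prime: `n = p^j`, `j ≥ 2`, `Λ(n) = log p`.  For `n ≥ A`: `1/n ≤ A^(-1/4) n^(-3/4)`, and
`∑_{p, j ≥ 2} log p p^(-3j/4) ≤ ∑_{m ≥ 2} log m m^(-3/2)/(1 - 2^(-3/4)) < ∞`.  In the finite form: the map
`n ↦ (minFac n, factorization)` or: bound the sum over `n ∈ F` by `∑_{p ≤ B} ∑_{j = 2}^{J}` with `p^j` injective.
Alternative: `∑_{n} (Λ(n) - Λ(n)[n prime]) n^(-3/4)` summable; `ψ - θ` bounds of Mathlib (`Chebyshev`) also work.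
About 100 lines.
-/

set_option autoImplicit false

open Complex

namespace Pool.Agent.H48.LD


private noncomputable def pwG (x : ℕ × ℕ) : ℝ :=
  4 * ((x.1 : ℝ) ^ (-(5 / 4) : ℝ) * ((2 : ℝ) ^ (-(3 / 4) : ℝ)) ^ x.2)

private theorem pwG_nonneg (x : ℕ × ℕ) : 0 ≤ pwG x := by
  unfold pwG
  positivity

private theorem pwG_summable : Summable pwG := by
  unfold pwG
  apply Summable.mul_left
  have h1 : Summable (fun m : ℕ => (m : ℝ) ^ (-(5 / 4) : ℝ)) := by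
    rw [Real.summable_nat_rpow]
    norm_num
  have h2 : Summable (fun j : ℕ => ((2 : ℝ) ^ (-(3 / 4) : ℝ)) ^ j) := by
    apply summable_geometric_of_lt_one (by positivity)
    apply Real.rpow_lt_one_of_one_lt_of_neg (by norm_num) (by norm_num)
  exact h1.mul_of_nonneg h2 (fun m => by positivity) (fun j => by positivity)

private theorem pw_term (p j : ℕ) (hp : 2 ≤ p) :
    Real.log p * ((p ^ (j + 2) : ℕ) : ℝ) ^ (-(3 / 4) : ℝ) ≤ pwG (p, j) := by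
  have hp0 : (0 : ℝ) < p := by positivity
  have hp2 : (2 : ℝ) ≤ p := by exact_mod_cast hp
  have hlog : Real.log p ≤ 4 * (p : ℝ) ^ (1 / 4 : ℝ) := by
    have := Real.log_le_rpow_div hp0.le (show (0 : ℝ) < 1 / 4 by norm_num)
    linarith
  have hpow : ((p ^ (j + 2) : ℕ) : ℝ) ^ (-(3 / 4) : ℝ)
      = (p : ℝ) ^ (-(3 / 2) : ℝ) * ((p : ℝ) ^ (-(3 / 4) : ℝ)) ^ j := by
    rw [Nat.cast_pow, ← Real.rpow_natCast, ← Real.rpow_mul hp0.le, ← Real.rpow_natCast,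
      ← Real.rpow_mul hp0.le, ← Real.rpow_add hp0]
    congr 1
    push_cast
    ring
  have hle : (p : ℝ) ^ (-(3 / 4) : ℝ) ≤ (2 : ℝ) ^ (-(3 / 4) : ℝ) :=
    Real.rpow_le_rpow_of_nonpos (by norm_num) hp2 (by norm_num)
  have hle2 : ((p : ℝ) ^ (-(3 / 4) : ℝ)) ^ j ≤ ((2 : ℝ) ^ (-(3 / 4) : ℝ)) ^ j :=
    pow_le_pow_left₀ (by positivity) hle j
  rw [hpow]
  unfold pwG
  have hpp : (p : ℝ) ^ (1 / 4 : ℝ) * (p : ℝ) ^ (-(3 / 2) : ℝ) = (p : ℝ) ^ (-(5 / 4) : ℝ) := by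
    rw [← Real.rpow_add hp0]
    congr 1
    norm_num
  calc Real.log p * ((p : ℝ) ^ (-(3 / 2) : ℝ) * ((p : ℝ) ^ (-(3 / 4) : ℝ)) ^ j)
      ≤ (4 * (p : ℝ) ^ (1 / 4 : ℝ)) *
        ((p : ℝ) ^ (-(3 / 2) : ℝ) * ((2 : ℝ) ^ (-(3 / 4) : ℝ)) ^ j) := by
        apply mul_le_mul hlog _ (by positivity) (by positivity)
        exact mul_le_mul_of_nonneg_left hle2 (by positivity)
    _ = 4 * (((p : ℝ) ^ (1 / 4 : ℝ) * (p : ℝ) ^ (-(3 / 2) : ℝ)) *
        ((2 : ℝ) ^ (-(3 / 4) : ℝ)) ^ j) := by ring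
    _ = _ := by rw [hpp]

private theorem pw_repr {n : ℕ} (h : IsPrimePow n) (hn : ¬ n.Prime) :
    2 ≤ n.minFac ∧ n = n.minFac ^ ((n.factorization n.minFac - 2) + 2) := by
  obtain ⟨p, k, hp, hk, rfl⟩ := h
  have hp' : p.Prime := hp.nat_prime
  have hmin : (p ^ k).minFac = p := by
    rw [Nat.pow_minFac hk.ne', hp'.minFac_eq]
  have hfac : (p ^ k).factorization p = k := by
    simp [hp'.factorization]
  have hk2 : 2 ≤ k := by
    rcases Nat.lt_or_ge k 2 with h1 | h1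
    · exfalso
      have : k = 1 := by omega
      subst this
      exact hn (by simpa using hp')
    · exact h1
  rw [hmin, hfac]
  refine ⟨hp'.two_le, ?_⟩
  congr 1
  omega

theorem pw : ∃ C : ℝ, 1 ≤ C ∧ ∀ (A : ℝ) (F : Finset ℕ), 1 ≤ A → (∀ n ∈ F, A ≤ (n : ℝ) ∧ ¬ n.Prime) →
    ∑ n ∈ F, ArithmeticFunction.vonMangoldt n / n ≤ C * A ^ (-(1 / 4 : ℝ)) := by
  classical
  refine ⟨max 1 (∑' x, pwG x), le_max_left _ _, fun A F hA hF => ?_⟩
  set F' := F.filter (fun n => IsPrimePow n) with hF'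
  have hsum : ∑ n ∈ F, ArithmeticFunction.vonMangoldt n / n
      = ∑ n ∈ F', ArithmeticFunction.vonMangoldt n / (n : ℝ) := by
    rw [hF', Finset.sum_filter]
    refine Finset.sum_congr rfl fun n _ => ?_
    by_cases h : IsPrimePow n
    · simp [h]
    · simp [h, ArithmeticFunction.vonMangoldt_apply]
  rw [hsum]
  have hmem : ∀ n ∈ F', IsPrimePow n ∧ A ≤ (n : ℝ) ∧ ¬ n.Prime := by
    intro n hn
    rw [hF', Finset.mem_filter] at hn
    exact ⟨hn.2, hF n hn.1⟩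
  let φ : ℕ → ℕ × ℕ := fun n => (n.minFac, n.factorization n.minFac - 2)
  have hinj : Set.InjOn φ (F' : Set ℕ) := by
    intro a ha b hb hab
    obtain ⟨ha1, -, ha2⟩ := hmem a ha
    obtain ⟨hb1, -, hb2⟩ := hmem b hb
    have e1 := (pw_repr ha1 ha2).2
    have e2 := (pw_repr hb1 hb2).2
    have h1 : a.minFac = b.minFac := (Prod.mk.inj hab).1
    have h2 : a.factorization a.minFac - 2 = b.factorization b.minFac - 2 := (Prod.mk.inj hab).2
    rw [e1, e2, h2, h1]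
  have hterm : ∀ n ∈ F', ArithmeticFunction.vonMangoldt n / (n : ℝ)
      ≤ A ^ (-(1 / 4 : ℝ)) * pwG (φ n) := by
    intro n hn
    obtain ⟨h1, h2, h3⟩ := hmem n hn
    obtain ⟨r1, r2⟩ := pw_repr h1 h3
    have hn0 : (0 : ℝ) < n := lt_of_lt_of_le (by linarith) h2
    have hΛ : ArithmeticFunction.vonMangoldt n = Real.log n.minFac := by
      rw [ArithmeticFunction.vonMangoldt_apply, if_pos h1]
    have hinv : (1 : ℝ) / n = (n : ℝ) ^ (-(1 / 4 : ℝ)) * (n : ℝ) ^ (-(3 / 4) : ℝ) := by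
      rw [← Real.rpow_add hn0]
      norm_num
      rw [Real.rpow_neg_one]
    have hAn : (n : ℝ) ^ (-(1 / 4 : ℝ)) ≤ A ^ (-(1 / 4 : ℝ)) :=
      Real.rpow_le_rpow_of_nonpos (by linarith) h2 (by norm_num)
    have ht := pw_term n.minFac (n.factorization n.minFac - 2) r1
    rw [← r2] at ht
    have hlog0 : 0 ≤ Real.log n.minFac := Real.log_natCast_nonneg _
    calc ArithmeticFunction.vonMangoldt n / (n : ℝ)
        = Real.log n.minFac * (1 / n) := by rw [hΛ]; ring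
      _ = (n : ℝ) ^ (-(1 / 4 : ℝ)) * (Real.log n.minFac * (n : ℝ) ^ (-(3 / 4) : ℝ)) := by
          rw [hinv]; ring
      _ ≤ A ^ (-(1 / 4 : ℝ)) * pwG (φ n) := by
          apply mul_le_mul hAn ht (by positivity) (by positivity)
  calc ∑ n ∈ F', ArithmeticFunction.vonMangoldt n / (n : ℝ)
      ≤ ∑ n ∈ F', A ^ (-(1 / 4 : ℝ)) * pwG (φ n) := Finset.sum_le_sum hterm
    _ = A ^ (-(1 / 4 : ℝ)) * ∑ n ∈ F', pwG (φ n) := by rw [Finset.mul_sum]
    _ = A ^ (-(1 / 4 : ℝ)) * ∑ x ∈ F'.image φ, pwG x := by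
        rw [Finset.sum_image (fun a ha b hb h => hinj ha hb h)]
    _ ≤ A ^ (-(1 / 4 : ℝ)) * ∑' x, pwG x := by
        apply mul_le_mul_of_nonneg_left _ (by positivity)
        exact pwG_summable.sum_le_tsum _ (fun x _ => pwG_nonneg x)
    _ ≤ A ^ (-(1 / 4 : ℝ)) * max 1 (∑' x, pwG x) := by
        apply mul_le_mul_of_nonneg_left (le_max_right _ _) (by positivity)
    _ = max 1 (∑' x, pwG x) * A ^ (-(1 / 4 : ℝ)) := by ring

end Pool.Agent.H48.LD
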