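import Mathlib
import Pool.Agent.H76.CR.DerivL

/-!
# Tl: truncation

PROOF (compare `H76/SV/TailV.lean`, whose private lemmas `dco0_dyadic`, `dco0_bound` may be copied:
`b ∑ dco b 0 n ≤ C` for `0 < b ≤ 1`).  `x^(k+1) dco x k n = x Λ(n)/n · y^k/k! · e^(-y)`, `y = x log n`.
LOW: `n < e^v1` (and `n ≥ 1`): `0 ≤ y ≤ e^(-11) k0 ≤ e^(-11) k`, `y^k/k! ≤ (e^(-11) k)^k/k! ≤ e^(-10 k)`
(`k^k/k! ≤ e^k`, `Real.pow_div_factorial_le_exp`), so the terms are `≤ x Λ(n) n^(-1-x) e^(-10 k0)`, sum `≤ C e^(-10 k0)`.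
HIGH: `n > e^v2`: `y ≥ 80 k0 ≥ 40 k`; `y^k/k! e^(-y) = e^(-y/2) (y^k/k! e^(-y/2))` and, with `s = y/k ≥ 40`,
`y^k/k! e^(-y/2) ≤ (e s e^(-s/2))^k ≤ e^(-10 k)` (as `s ≤ e^(s/4)`, `1 + s/4 - s/2 ≤ -s/4 + 1 ≤ -9`... for `s ≥ 40` one
has `e s e^(-s/2) ≤ e^(1 - s/4) ≤ e^(-9)`), so the terms are `≤ x Λ(n) n^(-1-x/2) e^(-9 k)`, sum `≤ 2 C e^(-9 k0)`.
About 150 lines.
-/

set_option autoImplicit false

open Complex

namespace Pool.Agent.H48.LD

open Pool.Agent.H76.CR

private theorem Tl_pow_fact_le {x l : ℝ} (hx : 0 ≤ x) (hl : 0 < l) (k : ℕ) :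
    x ^ k / (k.factorial : ℝ) ≤ Real.exp (l * x - k * Real.log l) := by
  have h := Real.pow_div_factorial_le_exp (l * x) (by positivity) k
  have hlk : (0 : ℝ) < l ^ k := by positivity
  have e1 : Real.exp (l * x - k * Real.log l) = Real.exp (l * x) / l ^ k := by
    rw [Real.exp_sub]
    congr 1
    rw [mul_comm, Real.exp_mul, Real.exp_log hl, Real.rpow_natCast]
  rw [e1, le_div_iff₀ hlk]
  calc x ^ k / (k.factorial : ℝ) * l ^ k = (l * x) ^ k / (k.factorial : ℝ) := by
        rw [mul_pow]; ring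
    _ ≤ Real.exp (l * x) := h

private theorem Tl_dco_le {E a : ℝ} (ha : 0 < a) (k n : ℕ) (hn : 1 ≤ n) {l : ℝ} (hl : 0 < l)
    (h : l * (a * Real.log n) - k * Real.log l - a * Real.log n ≤
      -E - 1 / 2 * (a * Real.log n)) :
    dco a k n ≤ Real.exp (-E) / a ^ k * dco (a / 2) 0 n := by
  have hn0 : (0 : ℝ) < n := by exact_mod_cast hn
  have hL : 0 ≤ Real.log n := Real.log_nonneg (by exact_mod_cast hn)
  have hΛ : 0 ≤ ArithmeticFunction.vonMangoldt n := ArithmeticFunction.vonMangoldt_nonneg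
  have hak : (0 : ℝ) < a ^ k := by positivity
  unfold dco
  rw [Real.rpow_def_of_pos hn0, Real.rpow_def_of_pos hn0]
  simp only [pow_zero, Nat.factorial_zero, Nat.cast_one, div_one, mul_one]
  have key : Real.log n ^ k / (k.factorial : ℝ) * Real.exp (Real.log n * -(1 + a)) ≤
      Real.exp (-E) / a ^ k * Real.exp (Real.log n * -(1 + a / 2)) := by
    have h1 := Tl_pow_fact_le (x := a * Real.log n) (by positivity) hl k
    have h2 : Real.log n ^ k / (k.factorial : ℝ) =
        (a * Real.log n) ^ k / (k.factorial : ℝ) / a ^ k := by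
      rw [mul_pow]; field_simp
    rw [h2]
    have h3 : (a * Real.log n) ^ k / (k.factorial : ℝ) / a ^ k *
        Real.exp (Real.log n * -(1 + a)) ≤
        Real.exp (l * (a * Real.log n) - k * Real.log l) / a ^ k *
          Real.exp (Real.log n * -(1 + a)) := by
      gcongr
    refine h3.trans ?_
    have h4 : Real.exp (l * (a * Real.log n) - k * Real.log l) / a ^ k *
        Real.exp (Real.log n * -(1 + a)) =
        Real.exp (l * (a * Real.log n) - k * Real.log l + Real.log n * -(1 + a)) / a ^ k := by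
      rw [Real.exp_add]; ring
    have h5 : Real.exp (-E) / a ^ k * Real.exp (Real.log n * -(1 + a / 2)) =
        Real.exp (-E + Real.log n * -(1 + a / 2)) / a ^ k := by
      rw [Real.exp_add]; ring
    rw [h4, h5]
    refine div_le_div_of_nonneg_right (Real.exp_le_exp.mpr ?_) hak.le
    have e1 : Real.log n * -(1 + a) = -Real.log n - a * Real.log n := by ring
    have e2 : Real.log n * -(1 + a / 2) = -Real.log n - 1 / 2 * (a * Real.log n) := by
      ring
    rw [e1, e2]
    linarith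
  calc ArithmeticFunction.vonMangoldt n * (Real.log n ^ k / (k.factorial : ℝ)) *
        Real.exp (Real.log n * -(1 + a))
      = ArithmeticFunction.vonMangoldt n * (Real.log n ^ k / (k.factorial : ℝ) *
        Real.exp (Real.log n * -(1 + a))) := by ring
    _ ≤ ArithmeticFunction.vonMangoldt n * (Real.exp (-E) / a ^ k *
        Real.exp (Real.log n * -(1 + a / 2))) := by gcongr
    _ = _ := by ring

/-- `∑ Λ(n) n^(-1-b)` over `n < 2^J` by dyadic blocks (Chebyshev). -/
private theorem Tl_dco0_dyadic {b : ℝ} (hb : 0 < b) (J : ℕ) :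
    ∑ n ∈ Finset.range (2 ^ J), dco b 0 n ≤
      ∑ j ∈ Finset.range J, 2 * (Real.log 4 + 4) * ((2 : ℝ) ^ (-b)) ^ j := by
  induction J with
  | zero => simp [dco]
  | succ J ih =>
    rw [Finset.sum_range_succ, Finset.range_eq_Ico, ← Finset.sum_Ico_consecutive (fun n => dco b 0 n)
      (Nat.zero_le (2 ^ J)) (Nat.pow_le_pow_right (by norm_num) (Nat.le_succ J)),
      ← Finset.range_eq_Ico]
    refine add_le_add ih ?_
    have hpos : (0 : ℝ) < (2 : ℝ) ^ J := by positivity
    have h1 : ∀ n ∈ Finset.Ico (2 ^ J) (2 ^ (J + 1)), dco b 0 n ≤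
        ((2 : ℝ) ^ J) ^ (-(1 + b)) * ArithmeticFunction.vonMangoldt n := by
      intro n hn
      rw [Finset.mem_Ico] at hn
      have hn1 : ((2 : ℝ) ^ J) ≤ n := by exact_mod_cast hn.1
      unfold dco
      simp only [pow_zero, Nat.factorial_zero, Nat.cast_one, div_one, mul_one]
      rw [mul_comm]
      refine mul_le_mul_of_nonneg_right ?_ ArithmeticFunction.vonMangoldt_nonneg
      exact Real.rpow_le_rpow_of_nonpos hpos hn1 (by linarith)
    refine (Finset.sum_le_sum h1).trans ?_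
    rw [← Finset.mul_sum]
    have h2 : ∑ n ∈ Finset.Ico (2 ^ J) (2 ^ (J + 1)), ArithmeticFunction.vonMangoldt n ≤
        Chebyshev.psi ((2 : ℝ) ^ (J + 1)) := by
      rw [Chebyshev.psi_eq_sum_Icc]
      refine Finset.sum_le_sum_of_subset_of_nonneg ?_ fun _ _ _ =>
        ArithmeticFunction.vonMangoldt_nonneg
      intro n hn
      rw [Finset.mem_Ico] at hn
      rw [Finset.mem_Icc]
      refine ⟨Nat.zero_le _, ?_⟩
      rw [Nat.le_floor_iff (by positivity)]
      have : n ≤ 2 ^ (J + 1) := hn.2.le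
      exact_mod_cast this
    have h3 : Chebyshev.psi ((2 : ℝ) ^ (J + 1)) ≤ (Real.log 4 + 4) * (2 : ℝ) ^ (J + 1) :=
      Chebyshev.psi_le_const_mul_self (by positivity)
    calc ((2 : ℝ) ^ J) ^ (-(1 + b)) * ∑ n ∈ Finset.Ico (2 ^ J) (2 ^ (J + 1)),
          ArithmeticFunction.vonMangoldt n
        ≤ ((2 : ℝ) ^ J) ^ (-(1 + b)) * ((Real.log 4 + 4) * (2 : ℝ) ^ (J + 1)) := by
          refine mul_le_mul_of_nonneg_left (h2.trans h3) ?_
          positivity
      _ = 2 * (Real.log 4 + 4) * (((2 : ℝ) ^ J) ^ (-(1 + b)) * (2 : ℝ) ^ J) := by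
          rw [pow_succ]; ring
      _ = 2 * (Real.log 4 + 4) * ((2 : ℝ) ^ (-b)) ^ J := by
          congr 1
          have e1 : ((2 : ℝ) ^ J) ^ (-(1 + b)) * (2 : ℝ) ^ J = ((2 : ℝ) ^ J) ^ (-b) := by
            have e2 : -(1 + b) = -b - 1 := by ring
            rw [e2, Real.rpow_sub_one hpos.ne']
            field_simp
          rw [e1, ← Real.rpow_natCast, ← Real.rpow_natCast, ← Real.rpow_mul (by norm_num),
            ← Real.rpow_mul (by norm_num)]
          congr 1
          ring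

private theorem Tl_dco0_bound {b : ℝ} (hb : 0 < b) :
    b * ∑' n : ℕ, dco b 0 n ≤ 2 * (Real.log 4 + 4) * (1 / Real.log 2 + b) := by
  have hl2 : 0 < Real.log 2 := Real.log_pos (by norm_num)
  have hl4 : 0 < Real.log 4 := Real.log_pos (by norm_num)
  set r : ℝ := (2 : ℝ) ^ (-b) with hr
  have hr0 : 0 < r := by positivity
  have h2b : 1 + b * Real.log 2 ≤ (2 : ℝ) ^ b := by
    rw [Real.rpow_def_of_pos (by norm_num)]
    have := Real.add_one_le_exp (Real.log 2 * b)
    linarith
  have hrinv : r * (2 : ℝ) ^ b = 1 := by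
    rw [hr, ← Real.rpow_add (by norm_num)]
    simp
  have hbl : 0 < b * Real.log 2 := by positivity
  have hr1 : r < 1 := by
    by_contra hcon
    have h1 : 1 ≤ r := not_lt.mp hcon
    nlinarith
  have hgeo : ∀ J : ℕ, ∑ j ∈ Finset.range J, r ^ j ≤ 1 / (1 - r) := by
    intro J
    have h1 : 0 < 1 - r := by linarith
    rw [le_div_iff₀ h1, mul_comm]
    have h2 := mul_neg_geom_sum r J
    rw [h2]
    have : 0 ≤ r ^ J := by positivity
    linarith
  have hsum : ∑' n : ℕ, dco b 0 n ≤ 2 * (Real.log 4 + 4) * (1 / (1 - r)) := by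
    refine Real.tsum_le_of_sum_range_le (fun n => dco_nonneg b 0 n) fun N => ?_
    have h1 : ∑ n ∈ Finset.range N, dco b 0 n ≤ ∑ n ∈ Finset.range (2 ^ N), dco b 0 n := by
      refine Finset.sum_le_sum_of_subset_of_nonneg ?_ fun _ _ _ => dco_nonneg _ _ _
      refine Finset.range_subset_range.mpr ?_
      exact Nat.lt_two_pow_self.le
    refine h1.trans ((Tl_dco0_dyadic hb N).trans ?_)
    rw [← Finset.mul_sum]
    exact mul_le_mul_of_nonneg_left (hgeo N) (by positivity)
  have hb1 : b * (1 / (1 - r)) ≤ 1 / Real.log 2 + b := by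
    have h1 : 0 < 1 - r := by linarith
    rw [mul_one_div, div_le_iff₀ h1]
    have h3 : r ≤ 1 / (1 + b * Real.log 2) := by
      rw [le_div_iff₀ (by positivity)]
      nlinarith
    have h4 : b * Real.log 2 / (1 + b * Real.log 2) ≤ 1 - r := by
      have e : b * Real.log 2 / (1 + b * Real.log 2) = 1 - 1 / (1 + b * Real.log 2) := by
        field_simp
        ring
      rw [e]; linarith
    calc b = (1 / Real.log 2 + b) * (b * Real.log 2 / (1 + b * Real.log 2)) := by
          field_simp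
      _ ≤ (1 / Real.log 2 + b) * (1 - r) := by gcongr
  calc b * ∑' n : ℕ, dco b 0 n ≤ b * (2 * (Real.log 4 + 4) * (1 / (1 - r))) := by gcongr
    _ = 2 * (Real.log 4 + 4) * (b * (1 / (1 - r))) := by ring
    _ ≤ _ := by gcongr

theorem tl : ∃ C : ℝ, 1 ≤ C ∧ ∀ (x : ℝ) (k0 k : ℕ) (v1 v2 : ℝ), 0 < x → x ≤ 1 → 1 ≤ k0 →
    k0 ≤ k → k ≤ 2 * k0 → x * v1 ≤ Real.exp (-11) * k0 → 80 * k0 ≤ x * v2 →
    ∀ F : Finset ℕ, (∀ n : ℕ, Real.exp v1 ≤ n → (n : ℝ) ≤ Real.exp v2 → n ∈ F) →
      x ^ (k + 1) * ∑' n : ℕ, (if n ∈ F then 0 else dco x k n) ≤ C * Real.exp (-(9 * k0)) := by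
  have hl2 : 0 < Real.log 2 := Real.log_pos (by norm_num)
  have hl2' : Real.log 2 ≤ 1 := by
    have := Real.log_two_lt_d9
    linarith
  have hl4 : 0 < Real.log 4 := Real.log_pos (by norm_num)
  have hl42 : Real.log 4 = 2 * Real.log 2 := by
    rw [show (4 : ℝ) = 2 ^ 2 by norm_num, Real.log_pow]
    norm_num
  have hinv : 1 ≤ 1 / Real.log 2 := by
    rw [le_div_iff₀ hl2]
    linarith
  refine ⟨2 * (2 * (Real.log 4 + 4) * (1 / Real.log 2 + 1 / 2)), by nlinarith, ?_⟩
  intro x k0 k v1 v2 hx hx1 hk0 hk hk2 hv1 hv2 F hF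
  have hk0r : (1 : ℝ) ≤ k0 := by exact_mod_cast hk0
  have hkr : (k0 : ℝ) ≤ k := by exact_mod_cast hk
  have hk2r : (k : ℝ) ≤ 2 * k0 := by exact_mod_cast hk2
  have hx2 : 0 < x / 2 := by linarith
  have hS := summable_dco hx2 0
  have hxk : (0 : ℝ) < x ^ k := by positivity
  have hpt : ∀ n : ℕ, (if n ∈ F then 0 else dco x k n) ≤
      Real.exp (-(9 * k0)) / x ^ k * dco (x / 2) 0 n := by
    intro n
    have hnn : 0 ≤ Real.exp (-(9 * k0)) / x ^ k * dco (x / 2) 0 n :=
      mul_nonneg (by positivity) (dco_nonneg _ _ _)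
    by_cases hnF : n ∈ F
    · rw [if_pos hnF]; exact hnn
    rw [if_neg hnF]
    rcases Nat.eq_zero_or_pos n with hn | hn
    · subst hn
      have : dco x k 0 = 0 := by simp [dco]
      rw [this]; exact hnn
    have hn0 : (0 : ℝ) < n := by exact_mod_cast hn
    have hL : 0 ≤ Real.log n := Real.log_nonneg (by exact_mod_cast hn)
    by_cases hc : (n : ℝ) < Real.exp v1
    · -- lower part
      have h1 : Real.log n ≤ v1 := by
        have := Real.log_le_log hn0 hc.le
        rwa [Real.log_exp] at this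
      have h2 : x * Real.log n ≤ Real.exp (-11) * k0 :=
        (mul_le_mul_of_nonneg_left h1 hx.le).trans hv1
      have h0 : 0 ≤ x * Real.log n := by positivity
      refine Tl_dco_le hx k n hn (l := Real.exp 11) (Real.exp_pos _) ?_
      rw [Real.log_exp]
      have h3 : Real.exp 11 * (x * Real.log n) ≤ k0 := by
        have h4 := mul_le_mul_of_nonneg_left h2 (Real.exp_pos 11).le
        have h5 : Real.exp 11 * (Real.exp (-11) * k0) = k0 := by
          rw [← mul_assoc, ← Real.exp_add]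
          norm_num
        linarith
      linarith
    · -- upper part
      have hc2 : Real.exp v2 < n := by
        by_contra hcon
        exact hnF (hF n (not_lt.mp hc) (not_lt.mp hcon))
      have h1 : v2 ≤ Real.log n := by
        have := Real.log_le_log (Real.exp_pos v2) hc2.le
        rwa [Real.log_exp] at this
      have h2 : 80 * k0 ≤ x * Real.log n :=
        hv2.trans (mul_le_mul_of_nonneg_left h1 hx.le)
      refine Tl_dco_le hx k n hn (l := 1 / 4) (by norm_num) ?_
      have h3 : Real.log (1 / 4) = -(2 * Real.log 2) := by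
        rw [one_div, Real.log_inv, hl42]
      rw [h3]
      have h4 : (k : ℝ) * (2 * Real.log 2) ≤ 2 * k0 * 2 := by
        have h5 : (k : ℝ) * (2 * Real.log 2) ≤ k * 2 :=
          mul_le_mul_of_nonneg_left (by linarith) (Nat.cast_nonneg k)
        linarith
      linarith
  have hsumR : Summable (fun n : ℕ => Real.exp (-(9 * k0)) / x ^ k * dco (x / 2) 0 n) :=
    hS.mul_left _
  have hsumL : Summable (fun n : ℕ => if n ∈ F then 0 else dco x k n) := by
    refine Summable.of_nonneg_of_le (fun n => ?_) hpt hsumR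
    split_ifs
    · exact le_rfl
    · exact dco_nonneg _ _ _
  have h1 : ∑' n : ℕ, (if n ∈ F then 0 else dco x k n) ≤
      Real.exp (-(9 * k0)) / x ^ k * ∑' n : ℕ, dco (x / 2) 0 n := by
    rw [← tsum_mul_left]
    exact hsumL.tsum_le_tsum hpt hsumR
  have h2 := Tl_dco0_bound hx2
  calc x ^ (k + 1) * ∑' n : ℕ, (if n ∈ F then 0 else dco x k n)
      ≤ x ^ (k + 1) * (Real.exp (-(9 * k0)) / x ^ k * ∑' n : ℕ, dco (x / 2) 0 n) :=
        mul_le_mul_of_nonneg_left h1 (by positivity)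
    _ = 2 * (x / 2 * ∑' n : ℕ, dco (x / 2) 0 n) * Real.exp (-(9 * k0)) := by
        rw [pow_succ]
        field_simp
    _ ≤ 2 * (2 * (Real.log 4 + 4) * (1 / Real.log 2 + 1 / 2)) * Real.exp (-(9 * k0)) := by
        refine mul_le_mul_of_nonneg_right ?_ (Real.exp_nonneg _)
        refine mul_le_mul_of_nonneg_left (h2.trans ?_) (by norm_num)
        refine mul_le_mul_of_nonneg_left ?_ (by positivity)
        linarith

end Pool.Agent.H48.LD
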