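import Mathlib
import Pool.Agent.H48.LD.Defs
import Pool.Agent.H48.LD.Det
import Pool.Agent.H48.LD.Tl
import Pool.Agent.H48.LD.Pw

/-!
# Seen: a zero is seen by the primes

PROOF.  `det` gives `k`.  `Dk x k γ = ∑' dco x k n n^(-iγ)` (`Dk`, `H76/CR/Defs.lean`; `summable_dco` in
`CR/DerivL.lean`), `F = Icc ⌈e^v1⌉₊ ⌊e^v2⌋₊`; the part outside `F` is `≤ C e^(-9 k0)/x^(k+1)` (`tl`; copy the private
`tsum_sub_sum_le`, `norm_cpow_unit_le` of `H76/SV/SeenV.lean`); the non-primes of `F`: `x^(k+1) dco x k n ≤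
x Λ(n)/n` (`y^k/k! e^(-y) ≤ 1`), so by `pw` they contribute `≤ C x e^(-v1/4) ≤ C e^(-7 k0)`, since
`v1/4 = e^(-11) k0/(4x) ≥ 7 k0` by `C x ≤ r0 ≤ 1` (`C ≥ 28 e^11`).  So
`x^(k+1) ‖FP‖ ≥ e^(-5 k0) - 2C e^(-7 k0) ≥ e^(-6 k0)` for `k0 ≥ C` (`C λ ≤ k0`, `λ ≥ 1`).  About 150 lines.
-/

set_option autoImplicit false

open Complex

namespace Pool.Agent.H48.LD

open Pool.Agent.H76.CR Pool.Agent.H76.RP Pool.Agent.H76.GL

/-- A series with nonnegative coefficients and unimodular factors, minus a finite part. -/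
private theorem tsum_sub_sum_le {g : ℕ → ℝ} (hg : ∀ n, 0 ≤ g n) (hs : Summable g) {z : ℕ → ℂ}
    (hz : ∀ n, ‖z n‖ ≤ 1) (F : Finset ℕ) :
    ‖(∑' n : ℕ, (g n : ℂ) * z n) - ∑ n ∈ F, (g n : ℂ) * z n‖ ≤
      ∑' n : ℕ, (if n ∈ F then 0 else g n) := by
  have hb : ∀ n, ‖(g n : ℂ) * z n‖ ≤ g n := by
    intro n
    rw [norm_mul, Complex.norm_real, Real.norm_of_nonneg (hg n)]
    exact mul_le_of_le_one_right (hg n) (hz n)
  have hsz : Summable fun n => (g n : ℂ) * z n := Summable.of_norm_bounded hs hb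
  have h1 : Summable fun n : ℕ => (if n ∈ F then (0 : ℂ) else (g n : ℂ) * z n) := by
    refine Summable.of_norm_bounded hs fun n => ?_
    split_ifs with h
    · simpa using hg n
    · exact hb n
  have h2 : Summable fun n : ℕ => (if n ∈ F then (g n : ℂ) * z n else 0) := by
    refine Summable.of_norm_bounded hs fun n => ?_
    split_ifs with h
    · exact hb n
    · simpa using hg n
  have h3 : (∑' n : ℕ, (g n : ℂ) * z n) =
      (∑' n : ℕ, (if n ∈ F then (g n : ℂ) * z n else 0)) +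
        ∑' n : ℕ, (if n ∈ F then (0 : ℂ) else (g n : ℂ) * z n) := by
    rw [← h2.tsum_add h1]
    refine tsum_congr fun n => ?_
    split_ifs <;> simp
  have h4 : (∑' n : ℕ, (if n ∈ F then (g n : ℂ) * z n else 0)) = ∑ n ∈ F, (g n : ℂ) * z n := by
    rw [tsum_eq_sum (s := F) (fun n hn => if_neg hn)]
    exact Finset.sum_congr rfl fun n hn => if_pos hn
  rw [h3, h4, add_sub_cancel_left]
  have h5 : Summable fun n : ℕ => (if n ∈ F then (0 : ℝ) else g n) := by
    refine Summable.of_nonneg_of_le (fun n => ?_) (fun n => ?_) hs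
    · split_ifs
      · exact le_rfl
      · exact hg n
    · split_ifs
      · exact hg n
      · exact le_rfl
  refine tsum_of_norm_bounded h5.hasSum fun n => ?_
  split_ifs with h
  · simp
  · exact hb n

private theorem norm_cpow_unit_le (n : ℕ) (t : ℝ) : ‖(n : ℂ) ^ (-(t * I))‖ ≤ 1 := by
  rcases Nat.eq_zero_or_pos n with rfl | hn
  · rw [Nat.cast_zero]
    by_cases h : (-(t * I) : ℂ) = 0
    · rw [h]; simp
    · rw [Complex.zero_cpow h]; simp
  · rw [Complex.norm_natCast_cpow_of_pos hn]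
    simp

private theorem dco_le {x : ℝ} (hx : 0 < x) (k n : ℕ) :
    x ^ (k + 1) * dco x k n ≤ x * (ArithmeticFunction.vonMangoldt n / n) := by
  rcases Nat.eq_zero_or_pos n with rfl | hn
  · unfold dco
    simp
  have hn0 : (0 : ℝ) < n := by exact_mod_cast hn
  have hlog : 0 ≤ Real.log n := Real.log_nonneg (by exact_mod_cast hn)
  have hy : 0 ≤ x * Real.log n := by positivity
  have h1 : (x * Real.log n) ^ k / (k.factorial : ℝ) ≤ Real.exp (x * Real.log n) :=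
    Real.pow_div_factorial_le_exp _ hy k
  have h2 : (n : ℝ) ^ (-(1 + x)) = Real.exp (-(x * Real.log n)) / n := by
    rw [Real.rpow_def_of_pos hn0, show Real.log n * (-(1 + x)) =
      -(x * Real.log n) - Real.log n by ring, Real.exp_sub, Real.exp_log hn0]
  have h3 : 0 ≤ ArithmeticFunction.vonMangoldt n := ArithmeticFunction.vonMangoldt_nonneg
  unfold dco
  rw [h2]
  calc x ^ (k + 1) * (ArithmeticFunction.vonMangoldt n * (Real.log n ^ k / (k.factorial : ℝ)) *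
        (Real.exp (-(x * Real.log n)) / n))
      = x * (ArithmeticFunction.vonMangoldt n / n) *
        ((x * Real.log n) ^ k / (k.factorial : ℝ) * Real.exp (-(x * Real.log n))) := by
        rw [mul_pow]; ring
    _ ≤ x * (ArithmeticFunction.vonMangoldt n / n) * 1 := by
        apply mul_le_mul_of_nonneg_left _ (by positivity)
        rw [Real.exp_neg, ← div_eq_mul_inv, div_le_one (Real.exp_pos _)]
        exact h1
    _ = _ := mul_one _

theorem seen : ∃ C : ℝ, 1 ≤ C ∧ ∀ (r0 E x v1 v2 : ℝ) (ρ : ℂ) (k0 : ℕ), 0 < r0 → r0 ≤ 1 →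
    1 + Real.log (1 / r0) ≤ E → 1 ≤ |ρ.im| → Tame r0 E ρ.im → 0 < x → C * x ≤ r0 →
    Real.log (1 / x) ≤ E → riemannZeta ρ = 0 → 1 - x ≤ ρ.re → 1 ≤ x * E / r0 →
    C * (x * E / r0) ≤ k0 → x * v1 = Real.exp (-11) * k0 → x * v2 = 80 * k0 →
    ∃ k : ℕ, k0 ≤ k ∧ k ≤ 2 * k0 ∧
      Real.exp (-(6 * k0)) ≤ x ^ (k + 1) * ‖FP x k v1 v2 ρ.im‖ := by
  obtain ⟨C1, hC1, hdet⟩ := det
  obtain ⟨C2, hC2, htail⟩ := tl
  obtain ⟨C3, hC3, hpw⟩ := pw
  have he11 : 0 < Real.exp 11 := Real.exp_pos _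
  obtain ⟨C, hC⟩ : ∃ C : ℝ, C = C1 + C2 + C3 + 28 * Real.exp 11 := ⟨_, rfl⟩
  refine ⟨C, by linarith, ?_⟩
  intro r0 E x v1 v2 ρ k0 hr0 hr1 hE hIm hTame hx hCx hlx hζ hre hlam hk0 hv1 hv2
  have hx1 : x ≤ 1 := by nlinarith
  have hk0C : C ≤ k0 := by
    refine le_trans ?_ hk0
    exact le_mul_of_one_le_right (by linarith) hlam
  have hk01 : 1 ≤ k0 := by
    have : (1 : ℝ) ≤ k0 := by linarith
    exact_mod_cast this
  obtain ⟨k, hk1, hk2, hk3⟩ := hdet r0 E x ρ k0 hr0 hr1 hE hIm hTame hx (by nlinarith) hlx hζ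
    hre hlam (le_trans (mul_le_mul_of_nonneg_right (by linarith) (by linarith)) hk0)
  refine ⟨k, hk1, hk2, ?_⟩
  have hxk : 0 < x ^ (k + 1) := pow_pos hx _
  have hk0pos : (0 : ℝ) < k0 := by linarith
  have hv1pos : 0 < v1 := by
    have h : 0 < x * v1 := by rw [hv1]; positivity
    exact pos_of_mul_pos_right h hx.le
  -- the finite set
  obtain ⟨F, hF⟩ : ∃ F : Finset ℕ, F = Finset.Icc ⌈Real.exp v1⌉₊ ⌊Real.exp v2⌋₊ := ⟨_, rfl⟩
  have hmem : ∀ n : ℕ, Real.exp v1 ≤ n → (n : ℝ) ≤ Real.exp v2 → n ∈ F := by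
    intro n h1 h2
    rw [hF, Finset.mem_Icc]
    exact ⟨Nat.ceil_le.2 h1, Nat.le_floor h2⟩
  have ht := htail x k0 k v1 v2 hx hx1 hk01 hk1 hk2 hv1.le hv2.ge F hmem
  have happ := tsum_sub_sum_le (fun n => dco_nonneg x k n) (summable_dco hx k)
    (fun n => norm_cpow_unit_le n ρ.im) F
  -- split into primes and the rest
  have hsplit : ∑ n ∈ F, (dco x k n : ℂ) * (n : ℂ) ^ (-(ρ.im * I)) =
      FP x k v1 v2 ρ.im +
        ∑ n ∈ F.filter (fun n => ¬ n.Prime), (dco x k n : ℂ) * (n : ℂ) ^ (-(ρ.im * I)) := by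
    unfold FP PP
    rw [← hF]
    exact (Finset.sum_filter_add_sum_filter_not F Nat.Prime _).symm
  have hnp : x ^ (k + 1) *
      ‖∑ n ∈ F.filter (fun n => ¬ n.Prime), (dco x k n : ℂ) * (n : ℂ) ^ (-(ρ.im * I))‖ ≤
      C3 * Real.exp (-(7 * k0)) := by
    have h1 : ‖∑ n ∈ F.filter (fun n => ¬ n.Prime),
        (dco x k n : ℂ) * (n : ℂ) ^ (-(ρ.im * I))‖ ≤
        ∑ n ∈ F.filter (fun n => ¬ n.Prime), dco x k n := by
      refine norm_sum_le_of_le _ fun n _ => ?_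
      rw [norm_mul, Complex.norm_real, Real.norm_of_nonneg (dco_nonneg x k n)]
      exact mul_le_of_le_one_right (dco_nonneg x k n) (norm_cpow_unit_le n ρ.im)
    have h2 : x ^ (k + 1) * ∑ n ∈ F.filter (fun n => ¬ n.Prime), dco x k n ≤
        x * ∑ n ∈ F.filter (fun n => ¬ n.Prime), ArithmeticFunction.vonMangoldt n / n := by
      rw [Finset.mul_sum, Finset.mul_sum]
      exact Finset.sum_le_sum fun n _ => dco_le hx k n
    have h3 := hpw (Real.exp v1) (F.filter (fun n => ¬ n.Prime)) (Real.one_le_exp hv1pos.le)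
      (fun n hn => by
        rw [Finset.mem_filter, hF, Finset.mem_Icc] at hn
        exact ⟨Nat.ceil_le.1 hn.1.1, hn.2⟩)
    have h4 : Real.exp v1 ^ (-(1 / 4 : ℝ)) ≤ Real.exp (-(7 * k0)) := by
      rw [← Real.exp_mul]
      apply Real.exp_le_exp.2
      have h5 : 28 * k0 ≤ v1 := by
        have h6 : 28 * Real.exp 11 * x ≤ 1 := by nlinarith
        have h7 : Real.exp (-11) * Real.exp 11 = 1 := by
          rw [← Real.exp_add]; norm_num
        have h8 : x * (28 * k0) ≤ x * v1 := by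
          rw [hv1]
          have h9 : x * 28 ≤ Real.exp (-11) := by
            have h10 : Real.exp (-11) * (28 * Real.exp 11 * x) ≤ Real.exp (-11) * 1 :=
              mul_le_mul_of_nonneg_left h6 (Real.exp_pos _).le
            have h11 : Real.exp (-11) * (28 * Real.exp 11 * x) =
                (Real.exp (-11) * Real.exp 11) * (x * 28) := by ring
            rw [h11, h7] at h10
            linarith
          have := mul_le_mul_of_nonneg_right h9 hk0pos.le
          linarith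
        exact le_of_mul_le_mul_left h8 hx
      linarith
    have h5 : 0 ≤ ∑ n ∈ F.filter (fun n => ¬ n.Prime), ArithmeticFunction.vonMangoldt n / n :=
      Finset.sum_nonneg fun n _ =>
        div_nonneg ArithmeticFunction.vonMangoldt_nonneg (Nat.cast_nonneg n)
    calc x ^ (k + 1) * ‖∑ n ∈ F.filter (fun n => ¬ n.Prime),
          (dco x k n : ℂ) * (n : ℂ) ^ (-(ρ.im * I))‖
        ≤ x ^ (k + 1) * ∑ n ∈ F.filter (fun n => ¬ n.Prime), dco x k n :=
          mul_le_mul_of_nonneg_left h1 hxk.le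
      _ ≤ x * ∑ n ∈ F.filter (fun n => ¬ n.Prime), ArithmeticFunction.vonMangoldt n / n := h2
      _ ≤ 1 * ∑ n ∈ F.filter (fun n => ¬ n.Prime), ArithmeticFunction.vonMangoldt n / n :=
          mul_le_mul_of_nonneg_right hx1 h5
      _ ≤ C3 * Real.exp v1 ^ (-(1 / 4 : ℝ)) := by rw [one_mul]; exact h3
      _ ≤ C3 * Real.exp (-(7 * k0)) := mul_le_mul_of_nonneg_left h4 (by linarith)
  -- triangle inequality
  have hD : x ^ (k + 1) * ‖Dk x k ρ.im‖ ≤ x ^ (k + 1) * ‖FP x k v1 v2 ρ.im‖ +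
      C3 * Real.exp (-(7 * k0)) + C2 * Real.exp (-(9 * k0)) := by
    have g1 : ‖Dk x k ρ.im‖ ≤ ‖FP x k v1 v2 ρ.im‖ +
        ‖∑ n ∈ F.filter (fun n => ¬ n.Prime), (dco x k n : ℂ) * (n : ℂ) ^ (-(ρ.im * I))‖ +
        ∑' n : ℕ, (if n ∈ F then 0 else dco x k n) := by
      have h' : ‖Dk x k ρ.im - ∑ n ∈ F, (dco x k n : ℂ) * (n : ℂ) ^ (-(ρ.im * I))‖ ≤
          ∑' n : ℕ, (if n ∈ F then 0 else dco x k n) := happ
      have h2 := norm_le_norm_add_norm_sub' (Dk x k ρ.im)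
        (∑ n ∈ F, (dco x k n : ℂ) * (n : ℂ) ^ (-(ρ.im * I)))
      have h3 : ‖∑ n ∈ F, (dco x k n : ℂ) * (n : ℂ) ^ (-(ρ.im * I))‖ ≤
          ‖FP x k v1 v2 ρ.im‖ +
          ‖∑ n ∈ F.filter (fun n => ¬ n.Prime),
            (dco x k n : ℂ) * (n : ℂ) ^ (-(ρ.im * I))‖ := by
        rw [hsplit]
        exact norm_add_le _ _
      linarith
    have g2 := mul_le_mul_of_nonneg_left g1 hxk.le
    rw [mul_add, mul_add] at g2
    linarith
  -- numerical part
  have e5 : Real.exp (-(5 * k0)) = Real.exp (-(7 * k0)) * (Real.exp k0 * Real.exp k0) := by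
    rw [← Real.exp_add, ← Real.exp_add]
    congr 1
    ring
  have e6 : Real.exp (-(6 * k0)) = Real.exp (-(7 * k0)) * Real.exp k0 := by
    rw [← Real.exp_add]
    congr 1
    ring
  have e9 : Real.exp (-(9 * k0)) ≤ Real.exp (-(7 * k0)) := by
    apply Real.exp_le_exp.2
    linarith
  have hE1 : (k0 : ℝ) + 1 ≤ Real.exp k0 := Real.add_one_le_exp _
  have hbig : Real.exp k0 + (C2 + C3) ≤ Real.exp k0 * Real.exp k0 := by
    have h1 : Real.exp k0 * (k0 + 1) ≤ Real.exp k0 * Real.exp k0 :=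
      mul_le_mul_of_nonneg_left hE1 (Real.exp_pos _).le
    have h2 : (k0 : ℝ) ≤ Real.exp k0 * k0 := le_mul_of_one_le_left hk0pos.le (by linarith)
    nlinarith
  have hfin : Real.exp (-(6 * k0)) + (C3 * Real.exp (-(7 * k0)) + C2 * Real.exp (-(9 * k0))) ≤
      Real.exp (-(5 * k0)) := by
    have h1 : C2 * Real.exp (-(9 * k0)) ≤ C2 * Real.exp (-(7 * k0)) :=
      mul_le_mul_of_nonneg_left e9 (by linarith)
    have h2 := mul_le_mul_of_nonneg_left hbig (Real.exp_pos (-(7 * (k0 : ℝ)))).le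
    rw [mul_add] at h2
    rw [e5, e6]
    linarith
  linarith

end Pool.Agent.H48.LD
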