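import Mathlib
import Pool.Agent.H76.RP.ZcF

/-!
# Sprd: from separated ordinates to all zeros

PROOF.  Let `Y` be the set of ordinates of `S` and `X ⊆ Y` a subset of maximal cardinality with pairwise distances
`≥ δ` (`Finset.exists_max_image` on the powerset, or induction).  Every `ρ ∈ S` has `|ρ.im - t| < δ` for some `t ∈ X`,
so `‖ρ - (1 + it)‖ < x + δ ≤ r` (`1 - x ≤ ρ.re < 1`), `ρ ∈ disc r t`.  Hence
`∑_S m ≤ ∑_{t ∈ X} ∑_{ρ ∈ S ∩ disc r t} m ≤ ∑_{t ∈ X} zc r t ≤ B K` (`zc_ge`).  About 80 lines.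
-/

set_option autoImplicit false

open Complex

namespace Pool.Agent.H48.LD

open Pool.Agent.H76.CR Pool.Agent.H76.RP

theorem sprd {x δ r B K : ℝ} (hx : 0 < x) (hδ : 0 < δ) (hr : x + δ ≤ r) (hr1 : r ≤ 1)
    (S : Finset ℂ) (hS : ∀ ρ ∈ S, riemannZeta ρ = 0 ∧ 1 - x ≤ ρ.re) (hK0 : 0 ≤ K)
    (hB : ∀ X : Finset ℝ, (∀ t ∈ X, ∃ ρ ∈ S, ρ.im = t) →
      (∀ s ∈ X, ∀ t ∈ X, s ≠ t → δ ≤ |s - t|) → (X.card : ℝ) ≤ B)
    (hK : ∀ ρ ∈ S, (zc r ρ.im : ℝ) ≤ K) :
    ∑ ρ ∈ S, (analyticOrderNatAt riemannZeta ρ : ℝ) ≤ B * K := by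
  classical
  set Y : Finset ℝ := S.image fun ρ => ρ.im with hY
  set Q : Finset (Finset ℝ) :=
    Y.powerset.filter fun X => ∀ s ∈ X, ∀ t ∈ X, s ≠ t → δ ≤ |s - t| with hQ
  have hQne : Q.Nonempty := ⟨∅, by
    rw [hQ, Finset.mem_filter, Finset.mem_powerset]
    exact ⟨Finset.empty_subset _, fun s hs => absurd hs (Finset.notMem_empty s)⟩⟩
  obtain ⟨X, hXQ, hmax⟩ := Q.exists_max_image (fun X => X.card) hQne
  rw [hQ, Finset.mem_filter, Finset.mem_powerset] at hXQ
  obtain ⟨hXY, hXs⟩ := hXQ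
  have hXS : ∀ t ∈ X, ∃ ρ ∈ S, ρ.im = t := fun t ht => by
    have h1 := hXY ht
    rw [hY, Finset.mem_image] at h1
    exact h1
  -- every ordinate is close to one of `X`
  have hcl : ∀ ρ ∈ S, ∃ t ∈ X, |ρ.im - t| < δ := by
    intro ρ hρ
    by_contra hno
    push Not at hno
    have hn : ρ.im ∉ X := fun h => by
      have h1 := hno ρ.im h
      rw [sub_self, abs_zero] at h1
      linarith
    have h2 : insert ρ.im X ∈ Q := by
      rw [hQ, Finset.mem_filter, Finset.mem_powerset]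
      refine ⟨?_, ?_⟩
      · intro t ht
        rcases Finset.mem_insert.1 ht with rfl | ht
        · exact Finset.mem_image_of_mem _ hρ
        · exact hXY ht
      · intro s hs t ht hst
        rcases Finset.mem_insert.1 hs with rfl | hs
        · rcases Finset.mem_insert.1 ht with rfl | ht
          · exact absurd rfl hst
          · exact hno t ht
        · rcases Finset.mem_insert.1 ht with rfl | ht
          · rw [abs_sub_comm]
            exact hno s hs
          · exact hXs s hs t ht hst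
    have h3 := hmax _ h2
    rw [Finset.card_insert_of_notMem hn] at h3
    omega
  have hdisc : ∀ ρ ∈ S, ∃ t ∈ X, ρ ∈ disc r t := by
    intro ρ hρ
    obtain ⟨t, ht, h1⟩ := hcl ρ hρ
    obtain ⟨h2, h3⟩ := hS ρ hρ
    refine ⟨t, ht, h2, ?_⟩
    have h4 : ρ.re < 1 := by
      by_contra h
      exact riemannZeta_ne_zero_of_one_le_re (not_lt.1 h) h2
    have h5 := Complex.norm_le_abs_re_add_abs_im (ρ - (1 + (t : ℂ) * I))
    have e1 : (ρ - (1 + (t : ℂ) * I)).re = ρ.re - 1 := by simp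
    have e2 : (ρ - (1 + (t : ℂ) * I)).im = ρ.im - t := by simp
    rw [e1, e2] at h5
    have h6 : |ρ.re - 1| ≤ x := by
      rw [abs_le]
      constructor <;> linarith
    linarith
  have hnat : ∑ ρ ∈ S, analyticOrderNatAt riemannZeta ρ ≤ ∑ t ∈ X, zc r t := by
    calc ∑ ρ ∈ S, analyticOrderNatAt riemannZeta ρ
        ≤ ∑ ρ ∈ S, ∑ t ∈ X, if ρ ∈ disc r t then analyticOrderNatAt riemannZeta ρ else 0 := by
          refine Finset.sum_le_sum fun ρ hρ => ?_
          obtain ⟨t, ht, h1⟩ := hdisc ρ hρ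
          have h2 := Finset.single_le_sum (s := X)
            (f := fun t => if ρ ∈ disc r t then analyticOrderNatAt riemannZeta ρ else 0)
            (fun _ _ => Nat.zero_le _) ht
          rw [if_pos h1] at h2
          exact h2
      _ = ∑ t ∈ X, ∑ ρ ∈ S, if ρ ∈ disc r t then analyticOrderNatAt riemannZeta ρ else 0 :=
          Finset.sum_comm
      _ ≤ ∑ t ∈ X, zc r t := by
          refine Finset.sum_le_sum fun t _ => ?_
          rw [← Finset.sum_filter]
          exact zc_ge hr1 t _ fun u hu => (Finset.mem_filter.1 hu).2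
  have hreal : ∑ ρ ∈ S, (analyticOrderNatAt riemannZeta ρ : ℝ) ≤ ∑ t ∈ X, (zc r t : ℝ) := by
    exact_mod_cast hnat
  refine hreal.trans ?_
  have h1 : ∑ t ∈ X, (zc r t : ℝ) ≤ ∑ _t ∈ X, K := by
    refine Finset.sum_le_sum fun t ht => ?_
    obtain ⟨ρ, hρ, rfl⟩ := hXS t ht
    exact hK ρ hρ
  rw [Finset.sum_const, nsmul_eq_mul] at h1
  exact h1.trans (mul_le_mul_of_nonneg_right (hB X hXS hXs) hK0)

end Pool.Agent.H48.LD
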