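import Mathlib
import Pool.Agent.H48.LD.Seen
import Pool.Agent.H48.LD.LV
import Pool.Agent.H48.LD.Sprd

/-!
# Core: the log-free bound for zeros with tame ordinates

PROOF.  `λ = xE/r0 ≥ 1`.  Constants: `Cs` (`seen`), `M = 80 e^11`, `c1, C1` (`lv`), `C2` (`cnt`).  `C3` large in terms of
`Cs`, `C1` (so that `v ≥ C1`; note `E/r0 ≥ 1/x ≥ 1`), `k0 = ⌈C3 λ⌉₊`, `C3 λ ≤ k0 ≤ 2 C3 λ`, `v = e^(-11) k0/x`, so
`M v = 80 k0/x`, `e^(-11) C3 E/r0 ≤ v ≤ 2 e^(-11) C3 E/r0`, and `1/v ≤ x` if `C3 ≥ e^11`.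
Let `X` be a `1/v`-separated set of ordinates of `S`.  `seen` gives for every `t ∈ X` some `k ∈ [k0, 2k0]` with
`τ = e^(-6 k0) ≤ x^(k+1) ‖FP x k v (M v) t‖`; for fixed `k` the set `X_k` has `≤ C1 (xv)²/τ² ≤ C1 k0² e^(12 k0)` elements
by `lv`, whose condition is `C1 (xv)² v^5 exp(-c1 min(v, v³/L²)) ≤ e^(-12 k0)`, `L = log T`: as `xv ≤ k0 ≤ e^(k0)`
it suffices that `c1 v ≥ 14 k0 + 5 log v + log C1` and `c1 v³/L² ≥ 14 k0 + 5 log v + log C1`.  First: `v = e^(-11) k0/x` with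
`x ≤ 1/C` small, and `5 log v ≤ c1 v/4 + C`.  Second: `v³ ≥ (e^(-11) C3)³ (E/r0)³ ≥ (e^(-11) C3)³ C L² (λ + log (E/r0))`
by the last hypothesis, with `C` as large as we please in terms of `C3`, and `k0 ≤ 2 C3 λ`, `log v ≤ log (E/r0) + log (2C3)`,
`log (E/r0) ≥ log (1/x) ≥ 1`.
So `card X ≤ (k0 + 1) C1 k0² e^(12 k0)`.  `sprd` with `δ = 1/v ≤ x`, `r = 2x`, `K = C2 (1 + 2λ)` (`cnt`, `2x ≤ r0/2`):
`∑_S m ≤ C2 (1+2λ)(k0+1) C1 k0² e^(12 k0) ≤ exp(C λ)`.  About 250 lines.
-/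

set_option autoImplicit false

open Complex

namespace Pool.Agent.H48.LD

open Pool.Agent.H76.CR Pool.Agent.H76.RP Pool.Agent.H76.GL

private theorem core_cond {c1 C1 k v y L : ℝ} (hC1 : 1 ≤ C1)
    (hy0 : 0 ≤ y) (hy : y ≤ k) (hv : 0 < v)
    (h1 : 14 * k + 5 * Real.log v + Real.log C1 ≤ c1 * v)
    (h2 : 14 * k + 5 * Real.log v + Real.log C1 ≤ c1 * (v ^ 3 / L ^ 2)) :
    C1 * y ^ 2 * v ^ 5 * sav c1 v L ≤ Real.exp (-(6 * k)) ^ 2 := by
  have e1 : C1 = Real.exp (Real.log C1) := (Real.exp_log (by linarith)).symm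
  have e2 : v ^ 5 = Real.exp (5 * Real.log v) := by
    rw [show (5 : ℝ) * Real.log v = ((5 : ℕ) : ℝ) * Real.log v by norm_num, Real.exp_nat_mul,
      Real.exp_log hv]
  have e3 : y ^ 2 ≤ Real.exp (2 * k) := by
    have h3 : k ≤ Real.exp k := by linarith [Real.add_one_le_exp k]
    have h4 : y ^ 2 ≤ Real.exp k ^ 2 := pow_le_pow_left₀ hy0 (hy.trans h3) 2
    have h5 : Real.exp k ^ 2 = Real.exp (2 * k) := by
      rw [show (2 : ℝ) * k = ((2 : ℕ) : ℝ) * k by norm_num, Real.exp_nat_mul]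
    rwa [h5] at h4
  have e4 : sav c1 v L ≤ Real.exp (-(14 * k + 5 * Real.log v + Real.log C1)) := by
    unfold sav
    apply Real.exp_le_exp.2
    have h3 : 14 * k + 5 * Real.log v + Real.log C1 ≤ c1 * min v (v ^ 3 / L ^ 2) := by
      rcases min_choice v (v ^ 3 / L ^ 2) with h | h
      · rw [h]
        exact h1
      · rw [h]
        exact h2
    linarith
  have hs : 0 ≤ sav c1 v L := (Real.exp_pos _).le
  calc C1 * y ^ 2 * v ^ 5 * sav c1 v L
      ≤ C1 * Real.exp (2 * k) * v ^ 5 * Real.exp (-(14 * k + 5 * Real.log v + Real.log C1)) := by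
        gcongr
    _ = Real.exp (Real.log C1) * Real.exp (2 * k) * Real.exp (5 * Real.log v) *
          Real.exp (-(14 * k + 5 * Real.log v + Real.log C1)) := by rw [← e1, ← e2]
    _ = Real.exp (-(6 * k)) ^ 2 := by
        rw [← Real.exp_add, ← Real.exp_add, ← Real.exp_add, ← Real.exp_nat_mul]
        congr 1
        push_cast
        ring

private theorem core_log {a v : ℝ} (ha : 0 < a) (hv : 0 < v) :
    Real.log v ≤ a * v + Real.log (1 / a) := by
  have h1 := Real.log_le_sub_one_of_pos (mul_pos ha hv)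
  rw [Real.log_mul ha.ne' hv.ne'] at h1
  rw [one_div, Real.log_inv]
  linarith

theorem core : ∃ C : ℝ, 1 ≤ C ∧ ∀ (r0 E x T : ℝ) (S : Finset ℂ), 0 < r0 → r0 ≤ 1 →
    1 + Real.log (1 / r0) ≤ E → C ≤ T → 0 < x → C * x ≤ r0 → Real.log (1 / x) ≤ E →
    1 ≤ x * E / r0 →
    C * (Real.log T ^ 2 * (x * E / r0 + Real.log (E / r0))) ≤ (E / r0) ^ 3 →
    (∀ ρ ∈ S, riemannZeta ρ = 0 ∧ 1 - x ≤ ρ.re ∧ 1 ≤ |ρ.im| ∧ Tame r0 E ρ.im) →
    (∀ ρ ∈ S, ∀ ρ' ∈ S, |ρ.im - ρ'.im| ≤ T) →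
    ∑ ρ ∈ S, (analyticOrderNatAt riemannZeta ρ : ℝ) ≤ Real.exp (C * (x * E / r0)) := by
  classical
  obtain ⟨Cs, hCs, hseen⟩ := seen
  have he11 : 1 ≤ Real.exp 11 := Real.one_le_exp (by norm_num)
  have hM : 1 ≤ 80 * Real.exp 11 := by linarith
  obtain ⟨c1, C1, hc1, hC1, hlv⟩ := lv hM
  obtain ⟨C2, hC2, hcnt⟩ := cnt
  set M : ℝ := 80 * Real.exp 11 with hMdef
  set C3 : ℝ := Real.exp 11 * (C1 + Cs + 1) with hC3def
  have he0 : 0 < Real.exp 11 := Real.exp_pos _
  have hC3a : Real.exp 11 ≤ C3 := by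
    rw [hC3def]
    exact le_mul_of_one_le_right he0.le (by linarith)
  have hC3b : Cs ≤ C3 := by
    rw [hC3def]
    have h1 : Cs ≤ C1 + Cs + 1 := by linarith
    exact h1.trans (le_mul_of_one_le_left (by linarith) he11)
  have hC3c : Real.exp 11 * C1 ≤ C3 := by
    rw [hC3def]
    exact mul_le_mul_of_nonneg_left (by linarith) he0.le
  have hC3d : 1 ≤ C3 := he11.trans hC3a
  set A : ℝ := 5 * |Real.log (1 / (c1 / 20))| + Real.log C1 with hAdef
  have hlC1 : 0 ≤ Real.log C1 := Real.log_nonneg hC1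
  have hlC2 : 0 ≤ Real.log C2 := Real.log_nonneg hC2
  have hA : 0 ≤ A := by rw [hAdef]; positivity
  set B : ℝ := 28 * C3 + 5 * Real.log (2 * C3) + Real.log C1 + 5 with hBdef
  have hlC3 : 0 ≤ Real.log (2 * C3) := Real.log_nonneg (by linarith)
  have hB : 0 ≤ B := by rw [hBdef]; linarith
  set D : ℝ := 30 * C3 + Real.log C1 + Real.log C2 + 2 with hDdef
  have hD : 0 ≤ D := by rw [hDdef]; linarith
  have hG1 : 0 ≤ 4 / 3 * Real.exp 11 * (14 + A) / c1 := by positivity
  have hG2 : 0 ≤ B / c1 := by positivity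
  refine ⟨Cs + 4 + C1 + 4 / 3 * Real.exp 11 * (14 + A) / c1 + B / c1 + D, by linarith, ?_⟩
  intro r0 E x T S hr0 hr01 hE hT hx hCx hlx hlam hbig hS hST
  set C : ℝ := Cs + 4 + C1 + 4 / 3 * Real.exp 11 * (14 + A) / c1 + B / c1 + D with hCdef
  have hCa : Cs ≤ C := by rw [hCdef]; linarith
  have hCb : 4 ≤ C := by rw [hCdef]; linarith
  have hCc : C1 ≤ C := by rw [hCdef]; linarith
  have hCd : 4 / 3 * Real.exp 11 * (14 + A) / c1 ≤ C := by rw [hCdef]; linarith
  have hCe : B / c1 ≤ C := by rw [hCdef]; linarith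
  have hCf : D ≤ C := by rw [hCdef]; linarith
  set lam : ℝ := x * E / r0 with hlamdef
  have hE1 : 1 ≤ E := by
    have : 0 ≤ Real.log (1 / r0) := Real.log_nonneg (by rw [le_div_iff₀ hr0]; linarith)
    linarith
  have hEr : 1 ≤ E / r0 := by rw [le_div_iff₀ hr0]; linarith
  have hEr0 : 0 < E / r0 := by linarith
  have hlamx : lam = x * (E / r0) := by rw [hlamdef]; ring
  have hlam0 : 0 < lam := by linarith
  set k0 : ℕ := ⌈C3 * lam⌉₊ with hk0def
  have hCl0 : 0 ≤ C3 * lam := by positivity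
  have hCl1 : 1 ≤ C3 * lam := one_le_mul_of_one_le_of_one_le hC3d hlam
  have hk0a : C3 * lam ≤ (k0 : ℝ) := Nat.le_ceil _
  have hk0b : (k0 : ℝ) ≤ 2 * C3 * lam := by
    have h1 := (Nat.ceil_lt_add_one hCl0).le
    have h2 : (k0 : ℝ) ≤ C3 * lam + 1 := h1
    linarith
  have hk0c : (1 : ℝ) ≤ k0 := by linarith
  have hk00 : (0 : ℝ) ≤ k0 := by linarith
  set v : ℝ := Real.exp (-11) * k0 / x with hvdef
  have hem : 0 < Real.exp (-11) := Real.exp_pos _
  have hem1 : Real.exp (-11) ≤ 1 := Real.exp_le_one_iff.2 (by norm_num)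
  have hee : Real.exp (-11) * Real.exp 11 = 1 := by
    rw [← Real.exp_add]
    norm_num
  have hv0 : 0 < v := by rw [hvdef]; positivity
  have hxv : x * v = Real.exp (-11) * k0 := by
    rw [hvdef]
    field_simp
  have hxMv : x * (M * v) = 80 * k0 := by
    calc x * (M * v) = M * (x * v) := by ring
      _ = 80 * (Real.exp (-11) * Real.exp 11) * k0 := by rw [hxv, hMdef]; ring
      _ = 80 * k0 := by rw [hee]; ring
  -- lower bounds for `v`
  have hvlow : E / r0 ≤ v ∧ C1 ≤ v := by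
    have h1 : Real.exp (-11) * C3 * (E / r0) ≤ v := by
      rw [hvdef, le_div_iff₀ hx]
      calc Real.exp (-11) * C3 * (E / r0) * x = Real.exp (-11) * (C3 * lam) := by rw [hlamx]; ring
        _ ≤ Real.exp (-11) * k0 := mul_le_mul_of_nonneg_left hk0a hem.le
    have h2 : 1 ≤ Real.exp (-11) * C3 := by
      calc (1 : ℝ) = Real.exp (-11) * Real.exp 11 := hee.symm
        _ ≤ _ := mul_le_mul_of_nonneg_left hC3a hem.le
    have h3 : C1 ≤ Real.exp (-11) * C3 := by
      calc C1 = (Real.exp (-11) * Real.exp 11) * C1 := by rw [hee, one_mul]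
        _ = Real.exp (-11) * (Real.exp 11 * C1) := by ring
        _ ≤ _ := mul_le_mul_of_nonneg_left hC3c hem.le
    have h4 : 0 ≤ Real.exp (-11) * C3 := by positivity
    constructor
    · exact (le_mul_of_one_le_left hEr0.le h2).trans h1
    · exact (h3.trans (le_mul_of_one_le_right h4 hEr)).trans h1
  have hxv1 : 1 ≤ x * v := by
    rw [hxv]
    calc (1 : ℝ) = Real.exp (-11) * Real.exp 11 := hee.symm
      _ ≤ Real.exp (-11) * k0 := by
        apply mul_le_mul_of_nonneg_left _ hem.le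
        calc Real.exp 11 ≤ C3 := hC3a
          _ ≤ C3 * lam := le_mul_of_one_le_right (by linarith) hlam
          _ ≤ k0 := hk0a
  have hxvk : x * v ≤ k0 := by
    rw [hxv]
    have h1 := mul_le_mul_of_nonneg_right hem1 hk00
    rwa [one_mul] at h1
  -- upper bound for `v`
  have hvup : v ≤ 2 * C3 * (E / r0) := by
    rw [hvdef, div_le_iff₀ hx]
    calc Real.exp (-11) * k0 ≤ 1 * (2 * C3 * lam) :=
          mul_le_mul hem1 hk0b hk00 zero_le_one
      _ = 2 * C3 * (E / r0) * x := by rw [hlamx]; ring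
  have hT0 : 1 < T := by linarith
  have hL0 : 0 < Real.log T := Real.log_pos hT0
  have hl0 : 0 ≤ Real.log (E / r0) := Real.log_nonneg hEr
  -- the two conditions
  have hco1 : 14 * (k0 : ℝ) + 5 * Real.log v + Real.log C1 ≤ c1 * v := by
    have h1 := core_log (a := c1 / 20) (by positivity) hv0
    have h2 : Real.log (1 / (c1 / 20)) ≤ |Real.log (1 / (c1 / 20))| := le_abs_self _
    have h3 : 14 * (k0 : ℝ) + A ≤ 3 / 4 * (c1 * v) := by
      have h4 : 4 / 3 * Real.exp 11 * (14 + A) ≤ C * c1 := by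
        rwa [div_le_iff₀ hc1] at hCd
      have h5 : C * x ≤ 1 := hCx.trans hr01
      have h6 : (14 + A) * (4 / 3 * Real.exp 11) * x ≤ c1 := by
        calc (14 + A) * (4 / 3 * Real.exp 11) * x = 4 / 3 * Real.exp 11 * (14 + A) * x := by ring
          _ ≤ C * c1 * x := mul_le_mul_of_nonneg_right h4 hx.le
          _ = c1 * (C * x) := by ring
          _ ≤ c1 * 1 := mul_le_mul_of_nonneg_left h5 hc1.le
          _ = c1 := mul_one _
      have h7 : (14 + A) * (4 / 3) * x ≤ c1 * Real.exp (-11) := by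
        calc (14 + A) * (4 / 3) * x = Real.exp (-11) * ((14 + A) * (4 / 3 * Real.exp 11) * x) := by
              calc (14 + A) * (4 / 3) * x = (Real.exp (-11) * Real.exp 11) *
                    ((14 + A) * (4 / 3) * x) := by rw [hee, one_mul]
                _ = _ := by ring
          _ ≤ Real.exp (-11) * c1 := mul_le_mul_of_nonneg_left h6 hem.le
          _ = c1 * Real.exp (-11) := by ring
      have h8 : (14 + A) * (4 / 3) * k0 ≤ c1 * v := by
        have e1 : c1 * v = c1 * Real.exp (-11) * k0 / x := by rw [hvdef]; ring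
        rw [e1, le_div_iff₀ hx]
        calc (14 + A) * (4 / 3) * k0 * x = (14 + A) * (4 / 3) * x * k0 := by ring
          _ ≤ c1 * Real.exp (-11) * k0 := mul_le_mul_of_nonneg_right h7 hk00
      have h9 : A ≤ A * k0 := le_mul_of_one_le_right hA hk0c
      linarith
    have h10 : 5 * Real.log v ≤ 5 * (c1 / 20 * v) + 5 * |Real.log (1 / (c1 / 20))| := by linarith
    have h11 : A = 5 * |Real.log (1 / (c1 / 20))| + Real.log C1 := hAdef
    linarith
  have hco2 : 14 * (k0 : ℝ) + 5 * Real.log v + Real.log C1 ≤ c1 * (v ^ 3 / Real.log T ^ 2) := by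
    have h1 : C * (lam + Real.log (E / r0)) ≤ v ^ 3 / Real.log T ^ 2 := by
      rw [le_div_iff₀ (by positivity)]
      calc C * (lam + Real.log (E / r0)) * Real.log T ^ 2 =
            C * (Real.log T ^ 2 * (lam + Real.log (E / r0))) := by ring
        _ ≤ (E / r0) ^ 3 := hbig
        _ ≤ v ^ 3 := pow_le_pow_left₀ hEr0.le hvlow.1 3
    have h2 : B ≤ c1 * C := by
      rw [div_le_iff₀ hc1] at hCe
      linarith
    have h3 : B * (lam + Real.log (E / r0)) ≤ c1 * (v ^ 3 / Real.log T ^ 2) := by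
      calc B * (lam + Real.log (E / r0)) ≤ c1 * C * (lam + Real.log (E / r0)) :=
            mul_le_mul_of_nonneg_right h2 (by linarith)
        _ = c1 * (C * (lam + Real.log (E / r0))) := by ring
        _ ≤ _ := mul_le_mul_of_nonneg_left h1 hc1.le
    refine le_trans ?_ h3
    have h4 : Real.log v ≤ Real.log (2 * C3) + Real.log (E / r0) := by
      rw [← Real.log_mul (by positivity) (by positivity)]
      exact Real.log_le_log hv0 hvup
    have h5 : 14 * (k0 : ℝ) ≤ 28 * C3 * lam := by linarith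
    have h6 : 5 * Real.log (2 * C3) + Real.log C1 ≤
        (5 * Real.log (2 * C3) + Real.log C1) * lam :=
      le_mul_of_one_le_right (by linarith) hlam
    have h7 : 5 * Real.log (E / r0) ≤ B * Real.log (E / r0) := by
      apply mul_le_mul_of_nonneg_right _ hl0
      rw [hBdef]
      linarith
    have h8 : (28 * C3 + (5 * Real.log (2 * C3) + Real.log C1)) * lam ≤ B * lam := by
      apply mul_le_mul_of_nonneg_right _ hlam0.le
      rw [hBdef]
      linarith
    have h9 : B * (lam + Real.log (E / r0)) = B * lam + B * Real.log (E / r0) := by ring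
    have h10 : (28 * C3 + (5 * Real.log (2 * C3) + Real.log C1)) * lam =
        28 * C3 * lam + (5 * Real.log (2 * C3) + Real.log C1) * lam := by ring
    linarith
  have hcond : C1 * (x * v) ^ 2 * v ^ 5 * sav c1 v (Real.log T) ≤
      Real.exp (-(6 * (k0 : ℝ))) ^ 2 :=
    core_cond hC1 (by positivity) hxvk hv0 hco1 hco2
  -- the count of separated points
  have hcard : ∀ X : Finset ℝ, (∀ t ∈ X, ∃ ρ ∈ S, ρ.im = t) →
      (∀ s ∈ X, ∀ t ∈ X, s ≠ t → 1 / v ≤ |s - t|) →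
      (X.card : ℝ) ≤ (k0 + 1) * (C1 * (k0 : ℝ) ^ 2 * Real.exp (12 * k0)) := by
    intro X hXS hXs
    set Xk : ℕ → Finset ℝ := fun k => X.filter fun t =>
      Real.exp (-(6 * (k0 : ℝ))) ≤ x ^ (k + 1) * ‖FP x k v (M * v) t‖ with hXk
    have hsub : X ⊆ (Finset.Icc k0 (2 * k0)).biUnion Xk := by
      intro t ht
      obtain ⟨ρ, hρ, rfl⟩ := hXS t ht
      obtain ⟨h1, h2, h3, h4⟩ := hS ρ hρ
      obtain ⟨k, hk1, hk2, hk3⟩ := hseen r0 E x v (M * v) ρ k0 hr0 hr01 hE h3 h4 hx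
        ((mul_le_mul_of_nonneg_right hCa hx.le).trans hCx) hlx h1 h2 hlam
        ((mul_le_mul_of_nonneg_right hC3b hlam0.le).trans hk0a) hxv hxMv
      rw [Finset.mem_biUnion]
      exact ⟨k, Finset.mem_Icc.2 ⟨hk1, hk2⟩, Finset.mem_filter.2 ⟨ht, hk3⟩⟩
    have hXk1 : ∀ k, ((Xk k).card : ℝ) ≤ C1 * (k0 : ℝ) ^ 2 * Real.exp (12 * k0) := by
      intro k
      have hXX : ∀ t ∈ Xk k, t ∈ X := fun t ht => (Finset.mem_filter.1 ht).1
      have h1 := hlv v T x (Real.exp (-(6 * (k0 : ℝ)))) k (Xk k) hvlow.2 (hCc.trans hT) hx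
        (Real.exp_pos _)
        (fun s hs t ht => by
          obtain ⟨ρ, hρ, rfl⟩ := hXS s (hXX s hs)
          obtain ⟨ρ', hρ', rfl⟩ := hXS t (hXX t ht)
          exact hST ρ hρ ρ' hρ')
        (fun s hs t ht hst => hXs s (hXX s hs) t (hXX t ht) hst)
        (fun t ht => (Finset.mem_filter.1 ht).2) hcond
      refine h1.trans ?_
      have h2 : (x * v) ^ 2 ≤ (k0 : ℝ) ^ 2 := pow_le_pow_left₀ (by positivity) hxvk 2
      have h3 : Real.exp (-(6 * (k0 : ℝ))) ^ 2 = Real.exp (-(12 * (k0 : ℝ))) := by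
        rw [← Real.exp_nat_mul]
        congr 1
        push_cast
        ring
      rw [h3, Real.exp_neg, div_inv_eq_mul]
      gcongr
    have h1 : X.card ≤ ∑ k ∈ Finset.Icc k0 (2 * k0), (Xk k).card :=
      (Finset.card_le_card hsub).trans Finset.card_biUnion_le
    have h2 : (X.card : ℝ) ≤ ∑ k ∈ Finset.Icc k0 (2 * k0), ((Xk k).card : ℝ) := by
      exact_mod_cast h1
    refine h2.trans ?_
    calc ∑ k ∈ Finset.Icc k0 (2 * k0), ((Xk k).card : ℝ)
        ≤ ∑ _k ∈ Finset.Icc k0 (2 * k0), C1 * (k0 : ℝ) ^ 2 * Real.exp (12 * k0) :=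
          Finset.sum_le_sum fun k _ => hXk1 k
      _ = (k0 + 1) * (C1 * (k0 : ℝ) ^ 2 * Real.exp (12 * k0)) := by
          rw [Finset.sum_const, nsmul_eq_mul, Nat.card_Icc]
          congr 1
          have : 2 * k0 + 1 - k0 = k0 + 1 := by omega
          rw [this]
          push_cast
          ring
  -- the discs
  have hK : ∀ ρ ∈ S, (zc (2 * x) ρ.im : ℝ) ≤ C2 * (1 + 2 * lam) := by
    intro ρ hρ
    obtain ⟨h1, h2, h3, h4⟩ := hS ρ hρ
    have h5 : 2 * x ≤ r0 / 2 := by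
      have := (mul_le_mul_of_nonneg_right hCb hx.le).trans hCx
      linarith
    have h6 := hcnt r0 E ρ.im (2 * x) hr0 hr01 hE h3 h4 (by linarith) h5
    refine h6.trans (le_of_eq ?_)
    rw [hlamdef]
    ring
  have hx1 : 2 * x ≤ 1 := by
    have := (mul_le_mul_of_nonneg_right hCb hx.le).trans hCx
    linarith
  have hδ : x + 1 / v ≤ 2 * x := by
    have : 1 / v ≤ x := by
      rw [div_le_iff₀ hv0]
      exact hxv1
    linarith
  have hmain := sprd hx (by positivity : 0 < 1 / v) hδ hx1 S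
    (fun ρ hρ => ⟨(hS ρ hρ).1, (hS ρ hρ).2.1⟩) (by positivity : 0 ≤ C2 * (1 + 2 * lam)) hcard hK
  refine hmain.trans ?_
  have g1 : (k0 : ℝ) + 1 ≤ Real.exp k0 := Real.add_one_le_exp _
  have g2 : (k0 : ℝ) ^ 2 ≤ Real.exp (2 * k0) := by
    have h5 : Real.exp (k0 : ℝ) ^ 2 = Real.exp (2 * k0) := by
      rw [← Real.exp_nat_mul]
      norm_num
    rw [← h5]
    exact pow_le_pow_left₀ hk00 (by linarith) 2
  have g3 : 1 + 2 * lam ≤ Real.exp (2 * lam) := by linarith [Real.add_one_le_exp (2 * lam)]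
  have g4 : C1 = Real.exp (Real.log C1) := (Real.exp_log (by linarith)).symm
  have g5 : C2 = Real.exp (Real.log C2) := (Real.exp_log (by linarith)).symm
  calc (k0 + 1) * (C1 * (k0 : ℝ) ^ 2 * Real.exp (12 * k0)) * (C2 * (1 + 2 * lam))
      ≤ Real.exp k0 * (C1 * Real.exp (2 * k0) * Real.exp (12 * k0)) *
          (C2 * Real.exp (2 * lam)) := by gcongr
    _ = Real.exp k0 * (Real.exp (Real.log C1) * Real.exp (2 * k0) * Real.exp (12 * k0)) *
          (Real.exp (Real.log C2) * Real.exp (2 * lam)) := by rw [← g4, ← g5]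
    _ = Real.exp (15 * k0 + Real.log C1 + Real.log C2 + 2 * lam) := by
        rw [← Real.exp_add, ← Real.exp_add, ← Real.exp_add, ← Real.exp_add, ← Real.exp_add]
        congr 1
        ring
    _ ≤ Real.exp (C * lam) := by
        apply Real.exp_le_exp.2
        have h1 : 15 * (k0 : ℝ) ≤ 30 * C3 * lam := by linarith
        have h2 : Real.log C1 + Real.log C2 ≤ (Real.log C1 + Real.log C2) * lam :=
          le_mul_of_one_le_right (by linarith) hlam
        have h3 : D * lam ≤ C * lam := mul_le_mul_of_nonneg_right hCf hlam0.le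
        have h4 : D * lam = 30 * C3 * lam + (Real.log C1 + Real.log C2) * lam + 2 * lam := by
          rw [hDdef]
          ring
        linarith

end Pool.Agent.H48.LD
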