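import Mathlib
import Pool.Agent.H76.CR.ZFacts
import Pool.Agent.H6.Win.ZetaLoc

/-!
# Small: zeros of bounded height stay away from `Re s = 1`

PROOF.  As `cmpct` in `H76/PS/Cmpct.lean`: the zeros with `re ≥ 1/2`, `|im| ≤ H` are finitely many (`zeros_finite`), all
with `re < 1`.  About 50 lines.
-/

set_option autoImplicit false

open Complex

namespace Pool.Agent.H48.LD

open Pool.Agent.H6 Pool.Agent.H6.Win

theorem small (H : ℝ) : ∃ c : ℝ, 0 < c ∧ c ≤ 1 / 2 ∧ ∀ s : ℂ, riemannZeta s = 0 → |s.im| ≤ H →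
    s.re < 1 - c := by
  have hfin : (insert (1 / 2 : ℝ) (Complex.re '' {u : ℂ | riemannZeta u = 0 ∧
      1 / 2 ≤ u.re ∧ |u.im| ≤ H})).Finite := by
    refine Set.Finite.insert _ (Set.Finite.image _ ?_)
    refine (zeros_finite (3 / 2 + H)).subset ?_
    rintro u ⟨hu, hr, hH⟩
    have hre := Pool.Agent.H76.CR.re_lt_one hu
    have hu1 : u ≠ 1 := by
      rintro rfl
      rw [Complex.one_re] at hre
      exact lt_irrefl _ hre
    refine ⟨?_, (Pool.Agent.H76.CR.zetaPole_eq_zero_iff hu1).2 hu⟩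
    rw [Metric.mem_closedBall, dist_eq_norm]
    refine (Complex.norm_le_abs_re_add_abs_im _).trans ?_
    have h1 : |(u - 2).re| ≤ 3 / 2 := by
      have h2 : (u - 2).re = u.re - 2 := by simp
      rw [h2, abs_of_nonpos (by linarith)]
      linarith
    have h3 : |(u - 2).im| ≤ H := by
      have h4 : (u - 2).im = u.im := by simp
      rw [h4]
      exact hH
    linarith
  obtain ⟨m, hm, hmax⟩ := Set.exists_max_image _ id hfin ⟨_, Set.mem_insert _ _⟩
  have hm1 : m < 1 := by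
    rcases hm with rfl | ⟨u, ⟨hu, -⟩, rfl⟩
    · norm_num
    · exact Pool.Agent.H76.CR.re_lt_one hu
  have hm2 : (1 / 2 : ℝ) ≤ m := hmax _ (Set.mem_insert _ _)
  refine ⟨(1 - m) / 2, by linarith, by linarith, fun s hs hH => ?_⟩
  rcases lt_or_ge s.re (1 / 2) with h | h
  · linarith
  · have h5 : s.re ≤ m := hmax _ (Set.mem_insert_of_mem _ ⟨s, ⟨hs, h, hH⟩, rfl⟩)
    linarith

end Pool.Agent.H48.LD
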