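import Mathlib
import Pool.Agent.H48.LD.Defs
import Pool.Agent.H6.Win.ZetaLoc
import Pool.Agent.H76.CR.ZFacts
import Pool.Agent.H20.SW.Approx

/-!
# Triv: finiteness and the trivial bound

PROOF.  `nz_finite`: `Pool.Agent.H6.zeros_finite` (see `win_finite` in `H76/LF/Box.lean`).  `triv`: the argument of
`local_count`/`zset_count` (`H6/Win/LocLog.lean`, `ZetaLoc.lean`, `Hfun.lean`) needs a bound of `ζ` to the left of
`Re s = 1/2`: `zeta₁_approx` (`H20/SW/Approx.lean`, valid for `Re s > 0`) with `N = 1` gives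
`‖(s-1) ζ(s)‖ ≤ C ‖s‖²` for `Re s ≥ 1/8`.  Jensen (`loc_log` or `loc_log_an` of the library) on discs with centre
`2 + it`, radius `2 - 1/8`: at most `C log (|t| + 2)` zeros, with multiplicity, with `Re u ≥ 1/2`, `|Im u - t| ≤ 1/2`.
Sum over `t = 0, 1, ..., ⌈T⌉`.  Any power of `T` is enough.  About 150 lines.
-/

set_option autoImplicit false

open Complex

namespace Pool.Agent.H48.LD

open Pool.Agent.H6 Pool.Agent.H76.CR

theorem nz_finite (σ T : ℝ) (hσ : 1 / 2 ≤ σ) :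
    {u : ℂ | riemannZeta u = 0 ∧ σ ≤ u.re ∧ 0 < u.im ∧ u.im ≤ T}.Finite := by
  refine (zeros_finite (2 + |T|)).subset ?_
  rintro u ⟨h0, h1, h2, h3⟩
  have hu1 : u ≠ 1 := by
    rintro rfl
    simp at h2
  have hlt := re_lt_one h0
  refine ⟨?_, (zetaPole_eq_zero_iff hu1).2 h0⟩
  rw [Metric.mem_closedBall, dist_eq_norm]
  have h4 := Complex.norm_le_abs_re_add_abs_im (u - 2)
  simp only [Complex.sub_re, Complex.sub_im, Complex.re_ofNat, Complex.im_ofNat, sub_zero] at h4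
  have h5 : |u.re - 2| ≤ 2 := by
    rw [abs_le]
    constructor <;> linarith
  have h6 : |u.im| ≤ |T| := by
    rw [abs_of_pos h2]
    exact h3.trans (le_abs_self T)
  linarith

private lemma triv_zetaPole_eq (s : ℂ) (hs : s ≠ 1) : zetaPole s = riemannZeta₁ s := by
  unfold zetaPole
  rw [Function.update_of_ne hs, riemannZeta_eq_inv_sub_mul hs, ← mul_assoc,
    mul_inv_cancel₀ (sub_ne_zero.2 hs), one_mul]

private lemma triv_growth {s : ℂ} (hs : 1 / 8 ≤ s.re) :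
    ‖zetaPole s‖ ≤ 9 * (1 + ‖s‖) ^ 2 := by
  have hn := norm_nonneg s
  by_cases h1 : s = 1
  · subst h1
    unfold zetaPole
    simp
    norm_num
  · rw [triv_zetaPole_eq s h1]
    have hre : 0 < s.re := by linarith
    have h2 := Pool.Agent.SW.zeta₁_approx (s := s) hre (N := 1) le_rfl
    simp only [Finset.Ico_self, Finset.sum_empty, mul_zero, zero_add, Nat.cast_one, one_cpow,
      Real.one_rpow, mul_one] at h2
    have h3 : ‖riemannZeta₁ s‖ ≤ 1 + ‖s - 1‖ * (‖s‖ / s.re) := by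
      calc ‖riemannZeta₁ s‖ = ‖(riemannZeta₁ s - 1) + 1‖ := by ring_nf
        _ ≤ ‖riemannZeta₁ s - 1‖ + ‖(1 : ℂ)‖ := norm_add_le _ _
        _ ≤ _ := by rw [norm_one]; linarith
    have h4 : ‖s - 1‖ ≤ 1 + ‖s‖ := by
      calc ‖s - 1‖ ≤ ‖s‖ + ‖(1 : ℂ)‖ := norm_sub_le _ _
        _ = _ := by rw [norm_one]; ring
    have h5 : ‖s‖ / s.re ≤ 8 * ‖s‖ := by
      rw [div_le_iff₀ hre]
      nlinarith
    have h6 : ‖s - 1‖ * (‖s‖ / s.re) ≤ (1 + ‖s‖) * (8 * ‖s‖) :=
      mul_le_mul h4 h5 (by positivity) (by linarith)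
    nlinarith

private lemma triv_ratio : ∃ K : ℝ, 1 ≤ K ∧ ∀ t : ℝ, ∀ z ∈ Metric.closedBall ((2:ℂ) + t * I) (15 / 8),
    ‖zetaPole z‖ ≤ K * (|t| + 5) ^ 2 * ‖zetaPole (2 + t * I)‖ := by
  set K0 : ℝ := ∑' n : ℕ, 1 / (n : ℝ) ^ (2:ℝ) with hK0
  refine ⟨max 1 (9 * K0), le_max_left _ _, fun t z hz => ?_⟩
  rw [Metric.mem_closedBall, dist_eq_norm] at hz
  have hre : 1 / 8 ≤ z.re := by
    have h1 := (Complex.abs_re_le_norm (z - (2 + t * I))).trans hz
    simp at h1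
    rw [abs_le] at h1
    linarith [h1.1]
  have h1 := triv_growth hre
  have hz2 : ‖z‖ ≤ |t| + 4 := by
    calc ‖z‖ = ‖(z - (2 + t * I)) + (2 + t * I)‖ := by ring_nf
      _ ≤ ‖z - (2 + t * I)‖ + (‖(2:ℂ)‖ + ‖(t:ℂ) * I‖) := (norm_add_le _ _).trans (by
          gcongr; exact norm_add_le _ _)
      _ ≤ |t| + 4 := by
          simp
          linarith
  have h2 : ‖zetaPole z‖ ≤ 9 * (|t| + 5) ^ 2 := by
    refine h1.trans ?_
    have := norm_nonneg z
    have h8 : 1 + ‖z‖ ≤ |t| + 5 := by linarith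
    gcongr
  set c : ℂ := 2 + t * I with hc
  have hcre : c.re = 2 := by simp [hc]
  have h3 := norm_inv_riemannZeta_le (s := c) (x := 2) (by norm_num) (by rw [hcre])
  have hcne : c ≠ 1 := by
    intro h; rw [h] at hcre; simp at hcre
  have hζ : riemannZeta c ≠ 0 := riemannZeta_ne_zero_of_one_le_re (by rw [hcre]; norm_num)
  have h4 : zetaPole c = (c - 1) * riemannZeta c := by
    unfold zetaPole
    rw [Function.update_of_ne hcne]
  have h5 : 1 ≤ ‖c - 1‖ := by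
    have := Complex.abs_re_le_norm (c - 1)
    rw [Complex.sub_re, hcre, Complex.one_re] at this
    norm_num at this
    exact this
  have h6 : 1 ≤ K0 * ‖zetaPole c‖ := by
    rw [h4, norm_mul]
    rw [norm_inv] at h3
    have hpos : 0 < ‖riemannZeta c‖ := norm_pos_iff.2 hζ
    have h7 : 1 ≤ K0 * ‖riemannZeta c‖ := by
      rw [inv_le_iff_one_le_mul₀ hpos] at h3
      exact h3
    calc (1:ℝ) ≤ K0 * ‖riemannZeta c‖ := h7
      _ = 1 * (K0 * ‖riemannZeta c‖) := by ring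
      _ ≤ ‖c - 1‖ * (K0 * ‖riemannZeta c‖) := by gcongr
      _ = _ := by ring
  calc ‖zetaPole z‖ ≤ 9 * (|t| + 5) ^ 2 := h2
    _ = 9 * (|t| + 5) ^ 2 * 1 := by ring
    _ ≤ 9 * (|t| + 5) ^ 2 * (K0 * ‖zetaPole c‖) := by gcongr
    _ = 9 * K0 * (|t| + 5) ^ 2 * ‖zetaPole c‖ := by ring
    _ ≤ max 1 (9 * K0) * (|t| + 5) ^ 2 * ‖zetaPole c‖ := by
        gcongr
        exact le_max_right _ _

/-- zeros near `2 + it` -/
private lemma triv_loc : ∃ C : ℝ, 0 < C ∧ ∀ (t : ℝ) (F : Finset ℂ),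
      (∀ u ∈ F, 1 / 2 ≤ u.re ∧ |u.im - t| ≤ 1 / 4 ∧ zetaPole u = 0) →
      (∑ u ∈ F, (zord u : ℝ)) ≤ C * (|t| + 2) := by
  obtain ⟨C, hC, hmain⟩ := loc_log (R0 := 1) (R1 := 7 / 4) (R2 := 15 / 8)
    (by norm_num) (by norm_num) (by norm_num)
  obtain ⟨K, hK1, hK⟩ := triv_ratio
  have hKl : 0 ≤ Real.log K := Real.log_nonneg hK1
  refine ⟨C * (Real.log K + 6), by positivity, fun t F hF => ?_⟩
  have ht := abs_nonneg t
  have hbound : K * (|t| + 5) ^ 2 ≤ Real.exp ((Real.log K + 6) * (|t| + 2)) := by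
    have e1 : (Real.log K + 6) * (|t| + 2) = Real.log K * (|t| + 2) + 6 * (|t| + 2) := by ring
    rw [e1, Real.exp_add]
    have e2 : K ≤ Real.exp (Real.log K * (|t| + 2)) := by
      calc K = Real.exp (Real.log K) := (Real.exp_log (by linarith)).symm
        _ ≤ _ := Real.exp_le_exp.2 (by nlinarith)
    have e3 : (|t| + 5) ^ 2 ≤ Real.exp (6 * (|t| + 2)) := by
      have h1 : |t| + 5 ≤ Real.exp (3 * (|t| + 2)) := by
        have := Real.add_one_le_exp (3 * (|t| + 2))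
        linarith
      calc (|t| + 5) ^ 2 ≤ (Real.exp (3 * (|t| + 2))) ^ 2 := by gcongr
        _ = Real.exp (6 * (|t| + 2)) := by
            rw [← Real.exp_nat_mul]
            congr 1
            push_cast
            ring
    gcongr
  obtain ⟨S, hS1, -, hS3, -⟩ := hmain zetaPole (2 + t * I) ((Real.log K + 6) * (|t| + 2))
    (by positivity) (fun z _ => zetaPole_analyticAt z)
    (zetaPole_ne_zero_of_one_le (by simp)) (fun z hz => (hK t z hz).trans (by gcongr))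
  have h9 : (∑ u ∈ F, (zord u : ℝ)) ≤ ∑ u ∈ S, (zord u : ℝ) := by
    apply Finset.sum_le_sum_of_subset_of_nonneg
    · intro u hu
      obtain ⟨a1, a2, a3⟩ := hF u hu
      rw [hS1]
      refine ⟨?_, a3⟩
      rw [Metric.mem_closedBall, dist_eq_norm]
      have hlt : u.re < 1 := by
        by_contra h
        exact zetaPole_ne_zero_of_one_le (not_lt.1 h) a3
      have h4 := Complex.norm_le_abs_re_add_abs_im (u - (2 + t * I))
      have e1 : (u - (2 + t * I)).re = u.re - 2 := by simp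
      have e2 : (u - (2 + t * I)).im = u.im - t := by simp
      rw [e1, e2] at h4
      have h5 : |u.re - 2| = 2 - u.re := by
        rw [abs_of_neg (by linarith)]; ring
      rw [h5] at h4
      linarith
    · intro u _ _
      positivity
  refine h9.trans (hS3.trans (le_of_eq (by ring)))

theorem triv : ∃ C : ℝ, 1 ≤ C ∧ ∀ (T : ℝ) (S : Finset ℂ), 2 ≤ T →
    (∀ u ∈ S, riemannZeta u = 0 ∧ 1 / 2 ≤ u.re ∧ 0 < u.im ∧ u.im ≤ T) →
    ∑ u ∈ S, (analyticOrderNatAt riemannZeta u : ℝ) ≤ C * T ^ 2 := by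
  classical
  obtain ⟨C, hC, hloc⟩ := triv_loc
  refine ⟨10 * C + 1, by linarith, fun T S hT hS => ?_⟩
  have hne : ∀ u ∈ S, u ≠ 1 := by
    rintro u hu rfl
    have := (hS 1 hu).2.2.1
    simp at this
  have h1 : ∑ u ∈ S, (analyticOrderNatAt riemannZeta u : ℝ) = ∑ u ∈ S, (zord u : ℝ) :=
    Finset.sum_congr rfl fun u hu => by rw [zord_eq (hne u hu)]
  rw [h1]
  set N : ℕ := ⌊4 * T⌋₊ + 1 with hN
  have hmap : ∀ u ∈ S, ⌊4 * u.im⌋₊ ∈ Finset.range N := by
    intro u hu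
    rw [Finset.mem_range, hN, Nat.lt_succ_iff]
    exact Nat.floor_le_floor (by linarith [(hS u hu).2.2.2])
  rw [← Finset.sum_fiberwise_of_maps_to hmap]
  have hfib : ∀ j ∈ Finset.range N,
      ∑ u ∈ S with ⌊4 * u.im⌋₊ = j, (zord u : ℝ) ≤ C * (T + 2) := by
    intro j hj
    have hjT : (j : ℝ) / 4 ≤ T := by
      have h2 : j ≤ ⌊4 * T⌋₊ := by
        rw [Finset.mem_range, hN] at hj
        omega
      have h3 : (j : ℝ) ≤ 4 * T := (Nat.cast_le.2 h2).trans (Nat.floor_le (by linarith))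
      linarith
    have hj0 : (0 : ℝ) ≤ (j : ℝ) / 4 := by positivity
    refine (hloc ((j : ℝ) / 4) _ ?_).trans ?_
    · intro u hu
      rw [Finset.mem_filter] at hu
      obtain ⟨huS, huj⟩ := hu
      obtain ⟨a1, a2, a3, a4⟩ := hS u huS
      refine ⟨a2, ?_, (zetaPole_eq_zero_iff (hne u huS)).2 a1⟩
      have h5 : (j : ℝ) ≤ 4 * u.im := by
        rw [← huj]
        exact Nat.floor_le (by linarith)
      have h6 : 4 * u.im < j + 1 := by
        rw [← huj]
        exact Nat.lt_floor_add_one _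
      rw [abs_le]
      constructor <;> linarith
    · rw [abs_of_nonneg hj0]
      have : (j : ℝ) / 4 + 2 ≤ T + 2 := by linarith
      gcongr
  refine (Finset.sum_le_sum hfib).trans ?_
  rw [Finset.sum_const, Finset.card_range, nsmul_eq_mul]
  have hNT : (N : ℝ) ≤ 4 * T + 1 := by
    rw [hN]
    push_cast
    linarith [Nat.floor_le (show (0 : ℝ) ≤ 4 * T by linarith)]
  calc (N : ℝ) * (C * (T + 2)) ≤ (4 * T + 1) * (C * (T + 2)) := by gcongr
    _ ≤ (10 * C + 1) * T ^ 2 := by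
        have h7 : (4 * T + 1) * (T + 2) ≤ 10 * T ^ 2 := by nlinarith
        have h8 : 0 ≤ T ^ 2 := by positivity
        nlinarith [mul_le_mul_of_nonneg_left h7 hC.le]

end Pool.Agent.H48.LD
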