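import Mathlib
import Pool.Agent.H76.GL.TameR
import Pool.Agent.H48.LD.Defs
import Pool.Agent.H48.LD.Core
import Pool.Agent.H48.LD.Triv
import Pool.Agent.H48.LD.Small

/-!
# Main: the log-free density theorem

PROOF.  `x = 1 - σ`, `L = log T`, `ℓ = log L`.  Let `C0` be the constant of `core`, `CR` that of `tameR`, `c2` from
`small 1`, `C1` from `triv`.  `C5 = 3 CR + 3`, `K ≥ 1` large (in terms of `C0`, `C5`), `c ≤ c2` small (in terms of `K`,
`C0`), `T0` large.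
(a) `x ≥ c` or `T < T0`: `triv`: `≤ C1 T² = C1 e^(2L)`; for `x ≥ c` it is `≤ C1 exp(2 c^(-3/2) x^(3/2) L)`; for `T < T0` it is
`≤ C1 T0²`.
(b) `x < c`, `T ≥ T0`.  `r* = (ℓ/L)^(2/3)`, `x1 = max x (1/(C5 √(K r*) L))`, `r0 = K max(x1, r*)`,
`E = C5 r0^(3/2) L`; then `E/r0 = C5 √r0 L`.  Facts: `r*^(3/2) L = ℓ`, `r0^(3/2) L ≥ K^(3/2) ℓ ≥ ℓ`, `log(1/r0) ≤ log (1/r*) ≤ ℓ`,
`r0 ≤ 1/4`; `1/(C5 √(K r*) L) ≤ r*` (as `r*^(3/2) L = ℓ ≥ 1`), so `r0 = K max(x, r*)`.  Every zero `ρ` in question has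
`ρ.im > 1` (`small 1`, `x < c2`; `0 < ρ.im`), `2 r0 ≤ 1 ≤ ρ.im ≤ T`, so `tameR` and `Tame.mono`: `Tame r0 E ρ.im`.
`log (1/x1) ≤ log (C5 √K L) ≤ ℓ + C ≤ E`.  `λ = x1 E/r0 = C5 x1 √r0 L ≥ 1`.  Condition of `core`:
`(E/r0)³ = C5³ r0^(3/2) L³`; `λ ≤ C5 (r0/K) √r0 L = (C5/K) r0^(3/2) L`, `log (E/r0) ≤ ℓ + log C5 ≤ 2ℓ ≤ 2 K^(-3/2) r0^(3/2) L`;
so it suffices that `C0 (C5/K + 2 K^(-3/2)) ≤ C5³`.  `C0 x1 ≤ r0` if `K ≥ C0`.
Result: `∑_S m ≤ exp(C0 λ)`, `λ ≤ C5 √K (x1^(3/2) L + x1 √r* L)`, `√r* L = L^(2/3) ℓ^(1/3)`; if `x1 = x` this is the claim; if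
`x1 > x`, `λ = 1`... (`x1 √r0 L C5 = 1` since then `r0 = K r*`).  So `≤ exp(C0 (1 + C5 √K (x^(3/2) L + x L^(2/3) ℓ^(1/3))))`.
About 250 lines.
-/

set_option autoImplicit false

open Complex

namespace Pool.Agent.H48.LD

open Pool.Agent.H76.CR Pool.Agent.H76.RP Pool.Agent.H76.GL

private theorem ma_rpow {x : ℝ} (hx : 0 ≤ x) : x ^ (3 / 2 : ℝ) = x * √x := by
  rw [show (3 / 2 : ℝ) = 1 + 1 / 2 by norm_num,
    Real.rpow_add_of_nonneg hx (by norm_num) (by norm_num), Real.rpow_one, Real.sqrt_eq_rpow]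

private theorem ma_T0 (C0 CR C5 k : ℝ) (hk : 0 < k) : ∃ T0 : ℝ, 0 < T0 ∧ ∀ T : ℝ, T0 ≤ T →
    C0 ≤ T ∧ CR ≤ T ∧ 1 ≤ Real.log (Real.log T) ∧ Real.log C5 ≤ Real.log (Real.log T) ∧
      Real.log (Real.log T) / Real.log T ≤ (1 / (2 * k)) ^ 3 := by
  have h1 : Filter.Tendsto (fun T : ℝ => Real.log (Real.log T)) Filter.atTop Filter.atTop :=
    Real.tendsto_log_atTop.comp Real.tendsto_log_atTop
  have h2 : Filter.Tendsto (fun y : ℝ => Real.log y / y) Filter.atTop (nhds 0) :=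
    Real.isLittleO_log_id_atTop.tendsto_div_nhds_zero
  have h3 : Filter.Tendsto (fun T : ℝ => Real.log (Real.log T) / Real.log T) Filter.atTop
      (nhds 0) := h2.comp Real.tendsto_log_atTop
  have hp : 0 < (1 / (2 * k)) ^ 3 := by positivity
  have h4 := (Filter.eventually_ge_atTop C0).and ((Filter.eventually_ge_atTop CR).and
    ((h1.eventually (Filter.eventually_ge_atTop 1)).and
      ((h1.eventually (Filter.eventually_ge_atTop (Real.log C5))).and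
        (h3.eventually (ge_mem_nhds hp)))))
  obtain ⟨T0, hT0⟩ := Filter.eventually_atTop.1 h4
  refine ⟨max T0 1, lt_of_lt_of_le one_pos (le_max_right _ _), fun T hT => ?_⟩
  exact hT0 T (le_trans (le_max_left _ _) hT)

private theorem ma_c5 {C : ℝ} (h : 6 ≤ C) : C + 2 ≤ C ^ 3 := by
  have h1 := pow_le_pow_left₀ (by norm_num) h 2
  have h2 := mul_le_mul_of_nonneg_left h1 (by linarith : (0:ℝ) ≤ C)
  have h3 : C ^ 3 = C * C ^ 2 := by ring
  linarith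

/-- the choice of the parameters -/
private theorem ma_par {C0 CR C5 k x L l s : ℝ} (hC0 : 1 ≤ C0) (hk1 : 1 ≤ k) (hkk : k * k = C0)
    (hCR : 1 ≤ CR) (hC5 : C5 = 3 * CR + 3) (hx : 0 ≤ x) (hx4 : x ≤ 1 / (4 * C0)) (hL : 1 < L)
    (hl : l = Real.log L) (hl1 : 1 ≤ l) (hlC : Real.log C5 ≤ l) (hs : 0 < s)
    (hs3 : s ^ 3 * L = l) (hsk : s ≤ 1 / (2 * k)) :
    ∃ r0 E x1 : ℝ, 0 < r0 ∧ r0 ≤ 1 / 4 ∧ CR * (r0 ^ (3 / 2 : ℝ) * L + l + Real.log (1 / r0)) ≤ E ∧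
      1 + Real.log (1 / r0) ≤ E ∧ 0 < x1 ∧ x ≤ x1 ∧ C0 * x1 ≤ r0 ∧ Real.log (1 / x1) ≤ E ∧
      1 ≤ x1 * E / r0 ∧ C0 * (L ^ 2 * (x1 * E / r0 + Real.log (E / r0))) ≤ (E / r0) ^ 3 ∧
      x1 * E / r0 ≤ 1 + C5 * k * (x * √x * L + x * (s * L)) := by
  have hk0 : 0 < k := by linarith
  have hC56 : 6 ≤ C5 := by linarith
  have hC50 : 0 < C5 := by linarith
  have hL0 : 0 < L := by linarith
  have hl0 : 0 < l := by linarith
  obtain ⟨W, hW⟩ : ∃ W : ℝ, W = max x (s ^ 2) := ⟨_, rfl⟩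
  have hWx : x ≤ W := hW ▸ le_max_left _ _
  have hWs : s ^ 2 ≤ W := hW ▸ le_max_right _ _
  have hW0 : 0 < W := lt_of_lt_of_le (by positivity) hWs
  obtain ⟨w, hw⟩ : ∃ w : ℝ, w = √W := ⟨_, rfl⟩
  have hw0 : 0 < w := hw ▸ Real.sqrt_pos.2 hW0
  have hww : w ^ 2 = W := by rw [hw, Real.sq_sqrt hW0.le]
  have hsw : s ≤ w := by
    rw [hw]
    exact Real.le_sqrt_of_sq_le hWs
  obtain ⟨g, hg⟩ : ∃ g : ℝ, g = k * w := ⟨_, rfl⟩
  have hg0 : 0 < g := hg ▸ mul_pos hk0 hw0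
  have hgg : g ^ 2 = C0 * W := by rw [hg, mul_pow, hww, ← hkk]; ring
  have hksg : k * s ≤ g := by rw [hg]; exact mul_le_mul_of_nonneg_left hsw hk0.le
  have hs1 : s ≤ 1 := by
    refine hsk.trans ?_
    rw [div_le_one (by positivity)]
    linarith
  have hks : k * s ≤ 1 / 2 := by
    have h1 := mul_le_mul_of_nonneg_left hsk hk0.le
    have h2 : k * (1 / (2 * k)) = 1 / 2 := by field_simp
    linarith
  have hr4 : g ^ 2 ≤ 1 / 4 := by
    rw [hgg]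
    rcases max_cases x (s ^ 2) with h | h
    · rw [hW, h.1]
      have h1 := mul_le_mul_of_nonneg_left hx4 (by linarith : (0:ℝ) ≤ C0)
      have h2 : C0 * (1 / (4 * C0)) = 1 / 4 := by field_simp
      linarith
    · rw [hW, h.1, ← hkk]
      have h1 : k * k * s ^ 2 = (k * s) ^ 2 := by ring
      rw [h1]
      have h2 : 0 ≤ k * s := by positivity
      have h3 := pow_le_pow_left₀ h2 hks 2
      linarith
  have hg1 : g ≤ 1 := (pow_le_one_iff_of_nonneg hg0.le two_ne_zero).1 (by linarith)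
  -- `g^3 L >= k^3 l`
  have hg3 : k ^ 3 * l ≤ g ^ 3 * L := by
    have h1 : (k * s) ^ 3 ≤ g ^ 3 := pow_le_pow_left₀ (by positivity) hksg 3
    have h2 := mul_le_mul_of_nonneg_right h1 hL0.le
    have h3 : (k * s) ^ 3 * L = k ^ 3 * l := by rw [← hs3]; ring
    linarith
  have hk3 : 1 ≤ k ^ 3 := one_le_pow₀ hk1
  have hg3l : l ≤ g ^ 3 * L := (le_mul_of_one_le_left hl0.le hk3).trans hg3
  have hgL0 : 0 < g ^ 3 * L := by positivity
  -- `log (1 / r0) <= l`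
  have hr0 : 0 < g ^ 2 := by positivity
  have hlog : Real.log (1 / g ^ 2) ≤ l := by
    rw [hl]
    refine Real.log_le_log (by positivity) ?_
    rw [div_le_iff₀ hr0]
    have h1 : s ^ 2 ≤ g ^ 2 := by
      exact pow_le_pow_left₀ hs.le ((le_mul_of_one_le_left hs.le hk1).trans hksg) 2
    have h2 : 1 ≤ s ^ 3 * L := by linarith
    have h3 : s ^ 3 ≤ s ^ 2 := pow_le_pow_of_le_one hs.le hs1 (by norm_num)
    have h4 : s ^ 3 * L ≤ s ^ 2 * L := mul_le_mul_of_nonneg_right h3 hL0.le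
    have h5 : s ^ 2 * L ≤ g ^ 2 * L := mul_le_mul_of_nonneg_right h1 hL0.le
    linarith
  have hEr : C5 * g ^ 3 * L / g ^ 2 = C5 * g * L := by
    field_simp
  obtain ⟨z, hz⟩ : ∃ z : ℝ, z = 1 / (C5 * (k * s) * L) := ⟨_, rfl⟩
  have hzden : 0 < C5 * (k * s) * L := by positivity
  have hz0 : 0 < z := by rw [hz]; positivity
  have hzden1 : 1 ≤ C5 * (k * s) * L * s ^ 2 := by
    have h1 : C5 * (k * s) * L * s ^ 2 = C5 * k * (s ^ 3 * L) := by ring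
    rw [h1, hs3]
    exact one_le_mul_of_one_le_of_one_le
      (one_le_mul_of_one_le_of_one_le (by linarith) hk1) hl1
  have hzs : z ≤ s ^ 2 := by
    rw [hz, div_le_iff₀ hzden]
    linarith
  obtain ⟨x1, hx1⟩ : ∃ x1 : ℝ, x1 = max x z := ⟨_, rfl⟩
  have hx1x : x ≤ x1 := hx1 ▸ le_max_left _ _
  have hx1z : z ≤ x1 := hx1 ▸ le_max_right _ _
  have hx10 : 0 < x1 := lt_of_lt_of_le hz0 hx1z
  have hx1W : x1 ≤ W := by
    rw [hx1]
    exact max_le hWx (hzs.trans hWs)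
  have hlam : x1 * (C5 * g ^ 3 * L) / g ^ 2 = x1 * (C5 * g * L) := by
    rw [mul_div_assoc, hEr]
  have hr32 : (g ^ 2) ^ (3 / 2 : ℝ) = g ^ 3 := by
    rw [ma_rpow hr0.le, Real.sqrt_sq hg0.le]
    ring
  have hCl : C5 * l ≤ C5 * (g ^ 3 * L) := mul_le_mul_of_nonneg_left hg3l hC50.le
  refine ⟨g ^ 2, C5 * g ^ 3 * L, x1, hr0, hr4, ?_, ?_, hx10, hx1x, ?_, ?_, ?_, ?_, ?_⟩
  · rw [hr32]
    have h1 : g ^ 3 * L + l + Real.log (1 / g ^ 2) ≤ 3 * (g ^ 3 * L) := by linarith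
    have h2 := mul_le_mul_of_nonneg_left h1 (by linarith : (0:ℝ) ≤ CR)
    have h3 : C5 * g ^ 3 * L = CR * (3 * (g ^ 3 * L)) + 3 * (g ^ 3 * L) := by
      rw [hC5]
      ring
    linarith
  · have h1 := mul_le_mul_of_nonneg_right (by linarith : 2 ≤ C5) hl0.le
    linarith
  · rw [hgg]
    exact mul_le_mul_of_nonneg_left hx1W (by linarith)
  · have h1 : 1 / x1 ≤ C5 * k * L := by
      rw [div_le_iff₀ hx10]
      have h2 : 1 = C5 * (k * s) * L * z := by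
        rw [hz]
        field_simp
      have h3 : C5 * (k * s) * L * z ≤ C5 * k * L * x1 := by
        have h4 : C5 * (k * s) * L ≤ C5 * k * L := by
          have h5 : C5 * k * L * s ≤ C5 * k * L * 1 :=
            mul_le_mul_of_nonneg_left hs1 (by positivity)
          linarith
        exact mul_le_mul h4 hx1z hz0.le (by positivity)
      linarith
    have h2 : Real.log (1 / x1) ≤ Real.log (C5 * k * L) :=
      Real.log_le_log (by positivity) h1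
    have h3 : Real.log (C5 * k * L) = Real.log (C5 * k) + l := by
      rw [Real.log_mul (by positivity) (by positivity), hl]
    have h4 : Real.log (C5 * k) ≤ C5 * k - 1 := Real.log_le_sub_one_of_pos (by positivity)
    have h5 : C5 * (k ^ 3 * l) ≤ C5 * (g ^ 3 * L) := mul_le_mul_of_nonneg_left hg3 hC50.le
    have h6 : k ≤ k ^ 3 := by
      calc k = k ^ 1 := (pow_one k).symm
        _ ≤ k ^ 3 := pow_le_pow_right₀ hk1 (by norm_num)
    have h7 : C5 * k * l ≤ C5 * (k ^ 3 * l) := by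
      have h8 := mul_le_mul_of_nonneg_left (mul_le_mul_of_nonneg_right h6 hl0.le) hC50.le
      linarith
    have h9 : 1 ≤ C5 * k := one_le_mul_of_one_le_of_one_le (by linarith) hk1
    have h10 : 0 ≤ (C5 * k - 1) * (l - 1) := mul_nonneg (by linarith) (by linarith)
    linarith
  · rw [hlam]
    have h2 : 1 = C5 * (k * s) * L * z := by
      rw [hz]
      field_simp
    have h3 : C5 * (k * s) * L * z ≤ C5 * g * L * x1 := by
      have h4 : C5 * (k * s) * L ≤ C5 * g * L := by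
        have h5 := mul_le_mul_of_nonneg_left hksg hC50.le
        exact mul_le_mul_of_nonneg_right h5 hL0.le
      exact mul_le_mul h4 hx1z hz0.le (by positivity)
    linarith
  · rw [hlam, hEr]
    have h1 : C0 * (x1 * (C5 * g * L)) ≤ C5 * (g ^ 3 * L) := by
      have h2 : C0 * x1 ≤ g ^ 2 := by
        rw [hgg]
        exact mul_le_mul_of_nonneg_left hx1W (by linarith)
      have h3 := mul_le_mul_of_nonneg_right h2 (by positivity : 0 ≤ C5 * g * L)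
      linarith
    have h4 : Real.log (C5 * g * L) ≤ 2 * l := by
      have h5 : Real.log (C5 * g * L) ≤ Real.log (C5 * L) := by
        refine Real.log_le_log (by positivity) ?_
        have h6 : C5 * g ≤ C5 * 1 := mul_le_mul_of_nonneg_left hg1 hC50.le
        have h7 := mul_le_mul_of_nonneg_right h6 hL0.le
        linarith
      rw [Real.log_mul hC50.ne' hL0.ne'] at h5
      linarith
    have h5 : C0 * Real.log (C5 * g * L) ≤ 2 * (g ^ 3 * L) := by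
      have h6 := mul_le_mul_of_nonneg_left h4 (by linarith : (0:ℝ) ≤ C0)
      have h7 : C0 * (2 * l) ≤ 2 * (k ^ 3 * l) := by
        rw [← hkk]
        have h8 : k * k ≤ k ^ 3 := by
          calc k * k = k ^ 2 := by ring
            _ ≤ k ^ 3 := pow_le_pow_right₀ hk1 (by norm_num)
        have h9 := mul_le_mul_of_nonneg_right h8 hl0.le
        linarith
      linarith
    have h6 : C0 * (x1 * (C5 * g * L) + Real.log (C5 * g * L)) ≤ (C5 + 2) * (g ^ 3 * L) := by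
      rw [mul_add]
      linarith
    have h7 : C0 * (L ^ 2 * (x1 * (C5 * g * L) + Real.log (C5 * g * L))) ≤
        L ^ 2 * ((C5 + 2) * (g ^ 3 * L)) := by
      have h8 := mul_le_mul_of_nonneg_left h6 (by positivity : 0 ≤ L ^ 2)
      linarith
    refine h7.trans ?_
    have h8 : (C5 * g * L) ^ 3 = C5 ^ 3 * (L ^ 2 * (g ^ 3 * L)) := by ring
    rw [h8]
    have h9 : C5 + 2 ≤ C5 ^ 3 := ma_c5 hC56
    have h10 := mul_le_mul_of_nonneg_right h9 (by positivity : 0 ≤ L ^ 2 * (g ^ 3 * L))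
    linarith
  · rw [hlam]
    have hq0 : 0 ≤ C5 * k * (x * √x * L + x * (s * L)) := by positivity
    rcases le_total z x with h | h
    · have h1 : x1 = x := by rw [hx1, max_eq_left h]
      rw [h1]
      have h2 : w ≤ √x + s := by
        rw [hw]
        refine Real.sqrt_le_iff.2 ⟨by positivity, ?_⟩
        rw [hW]
        have h3 : (√x + s) ^ 2 = x + s ^ 2 + 2 * √x * s := by
          have h4 := Real.sq_sqrt hx
          rw [add_sq, h4]
          ring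
        rw [h3]
        have h5 : 0 ≤ 2 * √x * s := by positivity
        have h6 : 0 ≤ s ^ 2 := by positivity
        exact max_le (by linarith) (by linarith)
      have h3 : x * (C5 * g * L) ≤ C5 * k * (x * √x * L + x * (s * L)) := by
        rw [hg]
        have h4 := mul_le_mul_of_nonneg_left h2 (by positivity : 0 ≤ x * C5 * k * L)
        linarith
      linarith
    · have h1 : x1 = z := by rw [hx1, max_eq_right h]
      have h2 : W = s ^ 2 := by rw [hW, max_eq_right (h.trans hzs)]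
      have h3 : w = s := by rw [hw, h2, Real.sqrt_sq hs.le]
      have h4 : z * (C5 * (k * s) * L) = 1 := by
        rw [hz]
        field_simp
      rw [h1, hg, h3]
      linarith

theorem mainS : ∃ A B : ℝ, 0 < A ∧ 0 < B ∧ ∀ (σ T : ℝ) (S : Finset ℂ), 1 / 2 ≤ σ → σ ≤ 1 → 3 ≤ T →
    (∀ ρ ∈ S, riemannZeta ρ = 0 ∧ σ ≤ ρ.re ∧ 0 < ρ.im ∧ ρ.im ≤ T) →
    ∑ ρ ∈ S, (analyticOrderNatAt riemannZeta ρ : ℝ) ≤
      A * Real.exp (B * ((1 - σ) ^ (3 / 2 : ℝ) * Real.log T +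
        (1 - σ) * (Real.log T ^ (2 / 3 : ℝ) * Real.log (Real.log T) ^ (1 / 3 : ℝ)))) := by
  obtain ⟨C0, hC0, hcore⟩ := core
  obtain ⟨CR, hCR, htame⟩ := tameR
  obtain ⟨c2, hc2, hc2', hsmall⟩ := small 1
  obtain ⟨C1, hC1, htriv⟩ := triv
  obtain ⟨k, hk⟩ : ∃ k : ℝ, k = √C0 := ⟨_, rfl⟩
  have hk1 : 1 ≤ k := by
    rw [hk]
    exact Real.one_le_sqrt.2 hC0
  have hkk : k * k = C0 := by rw [hk]; exact Real.mul_self_sqrt (by linarith)
  have hk0 : 0 < k := by linarith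
  obtain ⟨C5, hC5⟩ : ∃ C5 : ℝ, C5 = 3 * CR + 3 := ⟨_, rfl⟩
  have hC50 : 0 < C5 := by linarith
  obtain ⟨T0, hT0p, hT0⟩ := ma_T0 C0 CR C5 k hk0
  obtain ⟨c, hc⟩ : ∃ c : ℝ, c = min c2 (1 / (4 * C0)) := ⟨_, rfl⟩
  have hc0 : 0 < c := by
    rw [hc]
    exact lt_min hc2 (by positivity)
  have hcc2 : c ≤ c2 := hc ▸ min_le_left _ _
  have hc4 : c ≤ 1 / (4 * C0) := hc ▸ min_le_right _ _
  have hc32 : 0 < c ^ (3 / 2 : ℝ) := Real.rpow_pos_of_pos hc0 _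
  refine ⟨C1 + C1 * T0 ^ 2 + Real.exp C0, 2 / c ^ (3 / 2 : ℝ) + C0 * (C5 * k), ?_, ?_, ?_⟩
  · have := Real.exp_pos C0
    positivity
  · positivity
  intro σ T S hσ hσ1 hT hS
  have hT0' : 0 < T := by linarith
  have hL : 1 < Real.log T := by
    rw [Real.lt_log_iff_exp_lt hT0']
    linarith [Real.exp_one_lt_d9]
  have hl0 : 0 < Real.log (Real.log T) := Real.log_pos hL
  obtain ⟨x, hx⟩ : ∃ x : ℝ, x = 1 - σ := ⟨_, rfl⟩
  have hx0 : 0 ≤ x := by linarith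
  rw [← hx]
  obtain ⟨L, hLd⟩ : ∃ L : ℝ, L = Real.log T := ⟨_, rfl⟩
  obtain ⟨l, hld⟩ : ∃ l : ℝ, l = Real.log (Real.log T) := ⟨_, rfl⟩
  rw [← hld, ← hLd]
  rw [← hLd] at hL
  rw [← hld] at hl0
  have hL0 : 0 < L := by linarith
  have hP1 : 0 ≤ x ^ (3 / 2 : ℝ) * L := by positivity
  have hP2 : 0 ≤ x * (L ^ (2 / 3 : ℝ) * l ^ (1 / 3 : ℝ)) := by positivity
  have hB1 : 0 ≤ C0 * (C5 * k) := by positivity
  have hB2 : 0 ≤ 2 / c ^ (3 / 2 : ℝ) := by positivity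
  have hE0 := Real.exp_pos C0
  have hexp1 : 1 ≤ Real.exp ((2 / c ^ (3 / 2 : ℝ) + C0 * (C5 * k)) *
      (x ^ (3 / 2 : ℝ) * L + x * (L ^ (2 / 3 : ℝ) * l ^ (1 / 3 : ℝ)))) := by
    refine Real.one_le_exp ?_
    positivity
  have hC1T : 0 ≤ C1 * T0 ^ 2 := by positivity
  have htr : ∑ ρ ∈ S, (analyticOrderNatAt riemannZeta ρ : ℝ) ≤ C1 * T ^ 2 := by
    refine htriv T S (by linarith) fun u hu => ?_
    obtain ⟨h1, h2, h3, h4⟩ := hS u hu
    exact ⟨h1, by linarith, h3, h4⟩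
  by_cases h1 : c ≤ x
  · refine htr.trans ?_
    have h2 : T ^ 2 = Real.exp (2 * L) := by
      rw [two_mul, Real.exp_add, hLd, Real.exp_log hT0']
      ring
    have h3 : 2 * L ≤ (2 / c ^ (3 / 2 : ℝ) + C0 * (C5 * k)) *
        (x ^ (3 / 2 : ℝ) * L + x * (L ^ (2 / 3 : ℝ) * l ^ (1 / 3 : ℝ))) := by
      have h4 : c ^ (3 / 2 : ℝ) ≤ x ^ (3 / 2 : ℝ) := Real.rpow_le_rpow hc0.le h1 (by norm_num)
      have h5 : 2 * L = 2 / c ^ (3 / 2 : ℝ) * (c ^ (3 / 2 : ℝ) * L) := by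
        field_simp
      have h6 : 2 / c ^ (3 / 2 : ℝ) * (c ^ (3 / 2 : ℝ) * L) ≤
          2 / c ^ (3 / 2 : ℝ) * (x ^ (3 / 2 : ℝ) * L + x * (L ^ (2 / 3 : ℝ) * l ^ (1 / 3 : ℝ))) := by
        refine mul_le_mul_of_nonneg_left ?_ hB2
        have h7 := mul_le_mul_of_nonneg_right h4 hL0.le
        linarith
      have h8 : 0 ≤ C0 * (C5 * k) *
          (x ^ (3 / 2 : ℝ) * L + x * (L ^ (2 / 3 : ℝ) * l ^ (1 / 3 : ℝ))) :=
        mul_nonneg hB1 (by linarith)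
      rw [h5, add_mul]
      linarith
    rw [h2]
    have h4 := Real.exp_le_exp.2 h3
    have h5 : C1 * Real.exp (2 * L) ≤ C1 * Real.exp ((2 / c ^ (3 / 2 : ℝ) + C0 * (C5 * k)) *
        (x ^ (3 / 2 : ℝ) * L + x * (L ^ (2 / 3 : ℝ) * l ^ (1 / 3 : ℝ)))) :=
      mul_le_mul_of_nonneg_left h4 (by linarith)
    refine h5.trans (mul_le_mul_of_nonneg_right ?_ (Real.exp_pos _).le)
    linarith
  have h1 : x < c := not_le.1 h1
  by_cases h2 : T < T0
  · refine htr.trans ?_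
    have h3 : T ^ 2 ≤ T0 ^ 2 := pow_le_pow_left₀ hT0'.le h2.le 2
    have h4 : C1 * T ^ 2 ≤ C1 * T0 ^ 2 := mul_le_mul_of_nonneg_left h3 (by linarith)
    have h5 : C1 + C1 * T0 ^ 2 + Real.exp C0 ≤ (C1 + C1 * T0 ^ 2 + Real.exp C0) *
        Real.exp ((2 / c ^ (3 / 2 : ℝ) + C0 * (C5 * k)) *
        (x ^ (3 / 2 : ℝ) * L + x * (L ^ (2 / 3 : ℝ) * l ^ (1 / 3 : ℝ)))) :=
      le_mul_of_one_le_right (by linarith) hexp1
    linarith
  have h2 : T0 ≤ T := not_lt.1 h2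
  obtain ⟨hT1, hT2, hT3, hT4, hT5⟩ := hT0 T h2
  rw [← hld] at hT3 hT4 hT5
  rw [← hLd] at hT5
  obtain ⟨s, hsd⟩ : ∃ s : ℝ, s = (l / L) ^ (1 / 3 : ℝ) := ⟨_, rfl⟩
  have hlL : 0 < l / L := by positivity
  have hs0 : 0 < s := hsd ▸ Real.rpow_pos_of_pos hlL _
  have hs3 : s ^ 3 = l / L := by
    rw [hsd, ← Real.rpow_natCast, ← Real.rpow_mul hlL.le]
    norm_num
  have hs3L : s ^ 3 * L = l := by
    rw [hs3]
    field_simp
  have hsk : s ≤ 1 / (2 * k) := by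
    refine le_of_pow_le_pow_left₀ (n := 3) (by norm_num) (by positivity) ?_
    rw [hs3]
    exact hT5
  have hsL : s * L = L ^ (2 / 3 : ℝ) * l ^ (1 / 3 : ℝ) := by
    rw [hsd, Real.div_rpow hl0.le hL0.le]
    have h3 : L = L ^ (1 / 3 : ℝ) * L ^ (2 / 3 : ℝ) := by
      rw [← Real.rpow_add hL0]
      norm_num
    have h4 : 0 < L ^ (1 / 3 : ℝ) := Real.rpow_pos_of_pos hL0 _
    have h5 : l ^ (1 / 3 : ℝ) / L ^ (1 / 3 : ℝ) * L =
        l ^ (1 / 3 : ℝ) / L ^ (1 / 3 : ℝ) * (L ^ (1 / 3 : ℝ) * L ^ (2 / 3 : ℝ)) := by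
      rw [← h3]
    rw [h5]
    field_simp
  obtain ⟨r0, E, x1, hr0, hr4, hE1, hE2, hx10, hxx1, hr0x, hE3, hlam1, hcond, hlam2⟩ :=
    ma_par (x := x) (L := L) (l := l) (s := s) hC0 hk1 hkk hCR hC5 hx0 (h1.le.trans hc4) hL
      (by rw [hld, hLd]) hT3 hT4 hs0 hs3L hsk
  have hfin := hcore r0 E x1 T S hr0 (by linarith) hE2 hT1 hx10 hr0x hE3 hlam1
    (by rw [← hLd]; exact hcond) ?_ ?_
  · refine hfin.trans ?_
    have h3 : C0 * (x1 * E / r0) ≤ C0 + (2 / c ^ (3 / 2 : ℝ) + C0 * (C5 * k)) *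
        (x ^ (3 / 2 : ℝ) * L + x * (L ^ (2 / 3 : ℝ) * l ^ (1 / 3 : ℝ))) := by
      have h4 := mul_le_mul_of_nonneg_left hlam2 (by linarith : (0:ℝ) ≤ C0)
      rw [hsL, ← ma_rpow hx0] at h4
      have h5 : 0 ≤ 2 / c ^ (3 / 2 : ℝ) *
          (x ^ (3 / 2 : ℝ) * L + x * (L ^ (2 / 3 : ℝ) * l ^ (1 / 3 : ℝ))) :=
        mul_nonneg hB2 (by linarith)
      rw [add_mul]
      linarith
    refine (Real.exp_le_exp.2 h3).trans ?_
    rw [Real.exp_add]
    refine mul_le_mul_of_nonneg_right ?_ (Real.exp_pos _).le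
    linarith
  · intro ρ hρ
    obtain ⟨g1, g2, g3, g4⟩ := hS ρ hρ
    have g5 : 1 ≤ |ρ.im| := by
      by_contra h3
      have h4 := hsmall ρ g1 (not_le.1 h3).le
      linarith
    have g6 : |ρ.im| = ρ.im := abs_of_pos g3
    refine ⟨g1, by linarith, g5, ?_⟩
    refine (htame r0 T ρ.im hr0 hr4 hT2 (by linarith) (by rw [g6]; exact g4)).mono ?_
    rw [← hld, ← hLd]
    exact hE1
  · intro ρ hρ ρ' hρ'
    obtain ⟨-, -, g3, g4⟩ := hS ρ hρ
    obtain ⟨-, -, g3', g4'⟩ := hS ρ' hρ'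
    rw [abs_le]
    constructor
    · linarith
    · linarith

end Pool.Agent.H48.LD
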