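import Mathlib
import Pool.Agent.H48.LD.Main

/-!
# Fin: the final statement

PROOF.  (1) `finsum_mem_eq_finite_toFinset_sum` with `nz_finite`, and `mainS`.  (2) from `mainS` with
`σ = max (1/2) (1 - lam/(L^(2/3) ℓ^(1/3)))`: `(1-σ)^(3/2) L ≤ lam^(3/2) ℓ^(-1/2)`; careful: for `T` near `3` one has
`ℓ < 1` (`loglog 3 = 0.09`): then `(1 - σ)^(3/2) L ≤ L ≤ ...`; simply treat `T ≤ e^e` by `triv` (`≤ C e^(2e)`), for
`T > e^e`: `ℓ ≥ 1`.  If `1 - lam/(..) < 1/2`, then `(1-σ) = 1/2 ≤ lam/(..)`.  About 80 lines.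
-/

set_option autoImplicit false

open Complex

namespace Pool.Agent.H48.LD

theorem main : (∃ A B : ℝ, 0 < A ∧ 0 < B ∧ ∀ σ T : ℝ, 1 / 2 ≤ σ → σ ≤ 1 → 3 ≤ T →
      {u : ℂ | riemannZeta u = 0 ∧ σ ≤ u.re ∧ 0 < u.im ∧ u.im ≤ T}.Finite ∧
      (NZ σ T : ℝ) ≤ A * Real.exp (B * ((1 - σ) ^ (3 / 2 : ℝ) * Real.log T +
        (1 - σ) * (Real.log T ^ (2 / 3 : ℝ) * Real.log (Real.log T) ^ (1 / 3 : ℝ))))) ∧
    (∀ lam : ℝ, 0 < lam → ∃ K : ℝ, ∀ (T : ℝ) (S : Finset ℂ), 3 ≤ T →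
      (∀ ρ ∈ S, riemannZeta ρ = 0 ∧ 1 / 2 ≤ ρ.re ∧ 0 < ρ.im ∧ ρ.im ≤ T ∧
        1 - lam / (Real.log T ^ (2 / 3 : ℝ) * Real.log (Real.log T) ^ (1 / 3 : ℝ)) < ρ.re) →
      ∑ ρ ∈ S, (analyticOrderNatAt riemannZeta ρ : ℝ) ≤ K) := by
  obtain ⟨A, B, hA, hB, hmain⟩ := mainS
  obtain ⟨C1, hC1, htriv⟩ := triv
  refine ⟨⟨A, B, hA, hB, fun σ T hσ hσ1 hT => ?_⟩, fun lam hlam => ?_⟩
  · have hfin := nz_finite σ T hσ
    refine ⟨hfin, ?_⟩
    have h1 : (NZ σ T : ℝ) = ∑ ρ ∈ hfin.toFinset, (analyticOrderNatAt riemannZeta ρ : ℝ) := by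
      rw [NZ, finsum_mem_eq_finite_toFinset_sum _ hfin, Nat.cast_sum]
    rw [h1]
    refine hmain σ T _ hσ hσ1 hT fun ρ hρ => ?_
    exact (Set.Finite.mem_toFinset hfin).1 hρ
  · refine ⟨C1 * Real.exp (Real.exp 1) ^ 2 +
      A * Real.exp (B * (lam ^ (3 / 2 : ℝ) + lam)), ?_⟩
    intro T S hT hS
    have hT0 : 0 < T := by linarith
    rcases le_total T (Real.exp (Real.exp 1)) with hTe | hTe
    · have h1 : ∑ ρ ∈ S, (analyticOrderNatAt riemannZeta ρ : ℝ) ≤ C1 * T ^ 2 := by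
        refine htriv T S (by linarith) fun u hu => ?_
        obtain ⟨h1, h2, h3, h4, -⟩ := hS u hu
        exact ⟨h1, h2, h3, h4⟩
      have h2 : T ^ 2 ≤ Real.exp (Real.exp 1) ^ 2 := pow_le_pow_left₀ hT0.le hTe 2
      have h3 := mul_le_mul_of_nonneg_left h2 (by linarith : (0:ℝ) ≤ C1)
      have h4 : 0 < A * Real.exp (B * (lam ^ (3 / 2 : ℝ) + lam)) := mul_pos hA (Real.exp_pos _)
      linarith
    · obtain ⟨L, hL⟩ : ∃ L : ℝ, L = Real.log T := ⟨_, rfl⟩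
      obtain ⟨l, hl⟩ : ∃ l : ℝ, l = Real.log (Real.log T) := ⟨_, rfl⟩
      have hLe : Real.exp 1 ≤ L := by
        rw [hL, Real.le_log_iff_exp_le hT0]
        exact hTe
      have hL0 : 0 < L := lt_of_lt_of_le (Real.exp_pos _) hLe
      have hl1 : 1 ≤ l := by
        rw [hl, ← hL, Real.le_log_iff_exp_le hL0]
        exact hLe
      have hl0 : 0 < l := by linarith
      obtain ⟨D, hD⟩ : ∃ D : ℝ, D = L ^ (2 / 3 : ℝ) * l ^ (1 / 3 : ℝ) := ⟨_, rfl⟩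
      have hD0 : 0 < D := by
        rw [hD]
        positivity
      obtain ⟨σ, hσ⟩ : ∃ σ : ℝ, σ = max (1 / 2) (1 - lam / D) := ⟨_, rfl⟩
      have hσ1 : 1 / 2 ≤ σ := hσ ▸ le_max_left _ _
      have hlD : 0 < lam / D := by positivity
      have hσ2 : σ ≤ 1 := by
        rw [hσ]
        exact max_le (by norm_num) (by linarith)
      have hσ3 : 1 - σ ≤ lam / D := by
        have h0 : 1 - lam / D ≤ σ := hσ ▸ le_max_right _ _
        linarith
      have h1 := hmain σ T S hσ1 hσ2 hT ?_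
      swap
      · intro ρ hρ
        obtain ⟨g1, g2, g3, g4, g5⟩ := hS ρ hρ
        refine ⟨g1, ?_, g3, g4⟩
        rw [← hl, ← hL, ← hD] at g5
        rw [hσ]
        exact max_le g2 g5.le
      refine h1.trans ?_
      rw [← hl, ← hL, ← hD]
      have h2 : (1 - σ) ^ (3 / 2 : ℝ) * L ≤ lam ^ (3 / 2 : ℝ) := by
        have h3 : (1 - σ) ^ (3 / 2 : ℝ) ≤ (lam / D) ^ (3 / 2 : ℝ) :=
          Real.rpow_le_rpow (by linarith) hσ3 (by norm_num)
        rw [Real.div_rpow hlam.le hD0.le] at h3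
        have h5 : D ^ (3 / 2 : ℝ) = L * l ^ (1 / 2 : ℝ) := by
          rw [hD, Real.mul_rpow (by positivity) (by positivity), ← Real.rpow_mul hL0.le,
            ← Real.rpow_mul hl0.le]
          norm_num
        have h6 : 1 ≤ l ^ (1 / 2 : ℝ) := Real.one_le_rpow hl1 (by norm_num)
        have h7 : L ≤ D ^ (3 / 2 : ℝ) := by
          rw [h5]
          exact le_mul_of_one_le_right hL0.le h6
        have h8 : 0 < D ^ (3 / 2 : ℝ) := Real.rpow_pos_of_pos hD0 _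
        have h9 : lam ^ (3 / 2 : ℝ) / D ^ (3 / 2 : ℝ) * L ≤ lam ^ (3 / 2 : ℝ) := by
          rw [div_mul_eq_mul_div, div_le_iff₀ h8]
          exact mul_le_mul_of_nonneg_left h7 (Real.rpow_nonneg hlam.le _)
        exact (mul_le_mul_of_nonneg_right h3 hL0.le).trans h9
      have h3 : (1 - σ) * D ≤ lam := by
        rw [← le_div_iff₀ hD0]
        exact hσ3
      have h4 : B * ((1 - σ) ^ (3 / 2 : ℝ) * L + (1 - σ) * D) ≤
          B * (lam ^ (3 / 2 : ℝ) + lam) :=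
        mul_le_mul_of_nonneg_left (add_le_add h2 h3) hB.le
      have h5 := mul_le_mul_of_nonneg_left (Real.exp_le_exp.2 h4) hA.le
      have h6 : 0 ≤ C1 * Real.exp (Real.exp 1) ^ 2 := by
        have h7 : 0 ≤ C1 := by linarith
        positivity
      linarith

end Pool.Agent.H48.LD
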